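import Pool.Agent.Lib.MP_f46765_al.H13.Words

/-! Alphabets of good words, chains inside words over them, and elimination of a letter. -/

namespace Pool.Agent.LawGrowth

variable {d : ℕ}

/-- `v` starts with a chain of `m` good words satisfying `Th`. -/
def HasCh (m : ℕ) (Th : Wd d → Prop) (v : Wd d) : Prop :=
  ∃ C : List (Wd d), C.length = m ∧ Ch C ∧ (∀ u ∈ C, Th u) ∧ C.flatten <+: v

/-- No suffix of the list `L` starts with a chain of `m` words satisfying `Th`. -/
def NoCh (m : ℕ) (Th : Wd d → Prop) (L : List (Wd d)) : Prop :=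
  ∀ P Q, L = P ++ Q → ¬ HasCh m Th Q.flatten

/-- The order condition on an alphabet. -/
def OE (S : Set (Wd d)) : Prop :=
  ∀ x ∈ S, ∀ y ∈ S, num x < num y → ∀ L : List (Wd d), (∀ z ∈ L, z ∈ S) →
    num (x ++ L.flatten) < num y

/-- Alphabets of good words. -/
structure Alph (S : Set (Wd d)) : Prop where
  good : ∀ x ∈ S, GW x
  oe : OE S

/-- `u` is beyond `z` followed by any word over `S`. -/
def bey (S : Set (Wd d)) (z u : Wd d) : Prop :=
  ∀ L : List (Wd d), (∀ y ∈ L, y ∈ S) → num (z ++ L.flatten) < num u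

/-- `u` is at least some letter of `S`. -/
def Thr (S : Set (Wd d)) (u : Wd d) : Prop := ∃ x ∈ S, num x ≤ num u

/-- Words over `S` avoiding chains of length `m`. -/
def Av (m : ℕ) (S : Set (Wd d)) : Set (Wd d) :=
  {w | ∃ L : List (Wd d), (∀ x ∈ L, x ∈ S) ∧ L.flatten = w ∧ NoCh m (Thr S) L}

/-- The alphabet obtained by eliminating everything but `ze`. -/
def nxt (n : ℕ) (S : Set (Wd d)) (ze : Wd d) : Set (Wd d) :=
  {y | ∃ (e : ℕ) (V : List (Wd d)), 1 ≤ e ∧ V ≠ [] ∧ (∀ x ∈ V, x ∈ S ∧ num ze < num x) ∧
    NoCh (n + 1) (bey S ze) V ∧ y = pw e ze ++ V.flatten}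

theorem HasCh.mono {m : ℕ} {Th Th' : Wd d → Prop} {v : Wd d} (h : HasCh m Th v)
    (hT : ∀ u, Th u → Th' u) : HasCh m Th' v := by
  obtain ⟨C, h1, h2, h3, h4⟩ := h
  exact ⟨C, h1, h2, fun u hu => hT u (h3 u hu), h4⟩

theorem HasCh.pfx {m : ℕ} {Th : Wd d → Prop} {v v' : Wd d} (h : HasCh m Th v)
    (hv : v <+: v') : HasCh m Th v' := by
  obtain ⟨C, h1, h2, h3, h4⟩ := h
  exact ⟨C, h1, h2, h3, h4.trans hv⟩

theorem Ch.cons {s : Wd d} {C : List (Wd d)} (hs : GW s) (hC : Ch C)
    (h : ∀ u ∈ C, per s < per u) : Ch (s :: C) := by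
  refine ⟨?_, ?_⟩
  · intro u hu
    rcases List.mem_cons.1 hu with rfl | hu
    · exact hs
    · exact hC.1 u hu
  · rw [List.pairwise_cons]; exact ⟨h, hC.2⟩

/-- Prepending one word to a chain. -/
theorem HasCh.cons {m : ℕ} {Th Th' : Wd d → Prop} {s v : Wd d} (h : HasCh m Th v)
    (hs : GW s) (hs' : Th' s) (hT : ∀ u, GW u → Th u → Th' u ∧ per s < per u) :
    HasCh (m + 1) Th' (s ++ v) := by
  obtain ⟨C, h1, h2, h3, h4⟩ := h
  refine ⟨s :: C, by simp [h1], h2.cons hs (fun u hu => (hT u (h2.1 u hu) (h3 u hu)).2), ?_, ?_⟩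
  · intro u hu
    rcases List.mem_cons.1 hu with rfl | hu
    · exact hs'
    · exact (hT u (h2.1 u hu) (h3 u hu)).1
  · rw [List.flatten_cons]; exact (List.prefix_append_right_inj s).2 h4

/-- Merging a word with the first word of a chain. -/
theorem HasCh.merge {m : ℕ} {Th Th' : Wd d → Prop} {s v : Wd d} (h : HasCh (m + 1) Th v)
    (hs : ∀ u, GW u → Th u → GW (s ++ u) ∧ Th' (s ++ u) ∧ Th' u ∧
      (∀ u', GW u' → Th u' → per u < per u' → per (s ++ u) < per u')) :
    HasCh (m + 1) Th' (s ++ v) := by
  obtain ⟨C, h1, h2, h3, h4⟩ := h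
  rcases C with _ | ⟨u, C⟩
  · simp at h1
  have hu := hs u (h2.1 u (by simp)) (h3 u (by simp))
  have hpw := List.pairwise_cons.1 h2.2
  refine ⟨(s ++ u) :: C, by simpa using h1, ?_, ?_, ?_⟩
  · refine ⟨?_, ?_⟩
    · intro x hx
      rcases List.mem_cons.1 hx with rfl | hx
      · exact hu.1
      · exact h2.1 x (by simp [hx])
    · rw [List.pairwise_cons]
      refine ⟨?_, hpw.2⟩
      intro x hx
      exact hu.2.2.2 x (h2.1 x (by simp [hx])) (h3 x (by simp [hx])) (hpw.1 x hx)
  · intro x hx
    rcases List.mem_cons.1 hx with rfl | hx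
    · exact hu.2.1
    · exact (hs x (h2.1 x (by simp [hx])) (h3 x (by simp [hx]))).2.2.1
  · rw [List.flatten_cons, List.append_assoc]
    rw [List.flatten_cons] at h4
    exact (List.prefix_append_right_inj s).2 h4

theorem NoCh.suffix {m : ℕ} {Th : Wd d → Prop} {P Q : List (Wd d)} (h : NoCh m Th (P ++ Q)) :
    NoCh m Th Q := by
  intro A B hAB hB
  exact h (P ++ A) B (by rw [hAB]; simp) hB

theorem NoCh.pre {m : ℕ} {Th : Wd d → Prop} {P Q : List (Wd d)} (h : NoCh m Th (P ++ Q)) :
    NoCh m Th P := by
  intro A B hAB hB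
  refine h A (B ++ Q) (by rw [hAB]; simp) (hB.pfx ?_)
  simp

theorem NoCh.mono {m : ℕ} {Th Th' : Wd d → Prop} {L : List (Wd d)} (h : NoCh m Th' L)
    (hT : ∀ u, Th u → Th' u) : NoCh m Th L := by
  intro A B hAB hB
  exact h A B hAB (hB.mono hT)

theorem Alph.bey {S : Set (Wd d)} (hS : Alph S) {x y : Wd d} (hx : x ∈ S) (hy : y ∈ S)
    (h : num x < num y) : bey S x y := fun L hL => hS.oe x hx y hy h L hL

theorem bey.num_lt {S : Set (Wd d)} {z u : Wd d} (h : bey S z u) : num z < num u := by
  have := h [] (by simp); simpa using this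

theorem bey.trans_le {S : Set (Wd d)} {z u v : Wd d} (h : bey S z u) (h' : num u ≤ num v) :
    bey S z v := fun L hL => lt_of_lt_of_le (h L hL) h'

/-- If `x <= z` are letters then being beyond `z` implies being beyond `x`. -/
theorem Alph.bey_of_le {S : Set (Wd d)} (hS : Alph S) {x z u : Wd d} (hx : x ∈ S) (hz : z ∈ S)
    (h : num x ≤ num z) (hu : LawGrowth.bey S z u) : LawGrowth.bey S x u := by
  rcases eq_or_lt_of_le h with h | h
  · rw [num_inj h]; exact hu
  · exact (hS.bey hx hz h).trans_le hu.num_lt.le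

theorem over_replicate {S : Set (Wd d)} {x : Wd d} (hx : x ∈ S) (n : ℕ) :
    ∀ y ∈ List.replicate n x, y ∈ S := by
  intro y hy; rw [List.eq_of_mem_replicate hy]; exact hx

theorem over_append {S : Set (Wd d)} {P Q : List (Wd d)} (hP : ∀ y ∈ P, y ∈ S)
    (hQ : ∀ y ∈ Q, y ∈ S) : ∀ y ∈ P ++ Q, y ∈ S := by
  intro y hy
  rcases List.mem_append.1 hy with h | h
  · exact hP y h
  · exact hQ y h

/-- Words over `S` starting with `ze` have smaller periodic value than everything beyond `ze`. -/
theorem per_lt_of_bey {S : Set (Wd d)} {ze u : Wd d} (hze : ze ∈ S) (hne : ze ≠ [])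
    {L : List (Wd d)} (hL : ∀ y ∈ L, y ∈ S) (h : bey S ze u) (hu : u ≠ []) :
    per (ze ++ L.flatten) < per u := by
  refine lt_of_le_of_lt (per_le_of_pw (by simp [hne]) (c := num u) ?_) (num_lt_per hu)
  intro n
  rcases n with _ | n
  · simp [pw_zero, num_nil, num_nonneg]
  · have : ∃ M : List (Wd d), (∀ y ∈ M, y ∈ S) ∧ M.flatten = pw n (ze ++ L.flatten) := by
      refine ⟨(List.replicate n (ze :: L)).flatten, ?_, ?_⟩
      · intro y hy
        obtain ⟨l, hl, hy⟩ := List.mem_flatten.1 hy
        rw [List.eq_of_mem_replicate hl] at hy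
        rcases List.mem_cons.1 hy with rfl | hy
        · exact hze
        · exact hL y hy
      · clear h
        induction n with
        | zero => simp [pw_zero]
        | succ n ih =>
          rw [List.replicate_succ, List.flatten_cons, List.flatten_append, ih, pw_succ,
            List.flatten_cons]
    obtain ⟨M, hM1, hM2⟩ := this
    rw [pw_succ, ← hM2]
    have := h (L ++ M) (over_append hL hM1)
    rw [List.flatten_append, ← List.append_assoc] at this
    exact this.le

theorem GW_cons {S : Set (Wd d)} (hS : Alph S) {ze : Wd d} (hze : ze ∈ S) :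
    ∀ V : List (Wd d), (∀ x ∈ V, x ∈ S ∧ num ze < num x) → GW (ze ++ V.flatten) := by
  intro V
  induction V using List.reverseRecOn with
  | nil => intro _; simpa using hS.good ze hze
  | append_singleton V x ih =>
    intro hV
    have h1 := ih (fun y hy => hV y (by simp [hy]))
    have hx := hV x (by simp)
    rw [List.flatten_append, ← List.append_assoc]
    have h2 : ([x] : List (Wd d)).flatten = x := by simp
    rw [h2]
    exact GW.mul h1 (hS.good x hx.1) (per_lt_of_bey hze (hS.good ze hze).ne_nil
      (fun y hy => (hV y (by simp [hy])).1) (hS.bey hze hx.1 hx.2) (hS.good x hx.1).ne_nil)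

theorem per_lt_flatten {c : ℚ} : ∀ V : List (Wd d), V ≠ [] → (∀ x ∈ V, x ≠ [] ∧ c < per x) →
    c < per V.flatten := by
  intro V
  induction V with
  | nil => intro h; exact absurd rfl h
  | cons x V ih =>
    intro _ hV
    by_cases h : V = []
    · subst h; simpa using (hV x (by simp)).2
    · have h1 := ih h (fun y hy => hV y (by simp [hy]))
      rw [List.flatten_cons]
      refine lt_per_append (hV x (by simp)).1 ?_ (hV x (by simp)).2.le h1
      rcases V with _ | ⟨y, V⟩
      · exact absurd rfl h
      · simp [(hV y (by simp)).1]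

theorem per_lt_pw {ze w : Wd d} (hze : ze ≠ []) (hw : w ≠ []) (h : per ze < per w) (e : ℕ) :
    per ze < per (pw e ze ++ w) := by
  induction e with
  | zero => simpa [pw_zero] using h
  | succ e ih =>
    rw [pw_succ, List.append_assoc]
    exact lt_per_append hze (by simp [hw]) le_rfl ih

theorem GW_pw {ze w : Wd d} (hze : GW ze) (hw : w ≠ []) (h : per ze < per w)
    (h1 : GW (ze ++ w)) (e : ℕ) : GW (pw (e + 1) ze ++ w) := by
  induction e with
  | zero => simpa [pw_succ, pw_zero] using h1
  | succ e ih =>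
    rw [pw_succ, List.append_assoc]
    exact GW.mul hze ih (per_lt_pw hze.ne_nil hw h _)

theorem per_lt_of_over {S : Set (Wd d)} (hS : Alph S) {ze : Wd d} (hze : ze ∈ S) {x : Wd d}
    (hx : x ∈ S) (h : num ze < num x) : per ze < per x := by
  have := per_lt_of_bey hze (hS.good ze hze).ne_nil (L := []) (by simp) (hS.bey hze hx h)
    (hS.good x hx).ne_nil
  simpa using this

theorem GW_nxt {S : Set (Wd d)} (hS : Alph S) {ze : Wd d} (hze : ze ∈ S) {e : ℕ} (he : 1 ≤ e)
    {V : List (Wd d)} (hne : V ≠ []) (hV : ∀ x ∈ V, x ∈ S ∧ num ze < num x) :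
    GW (pw e ze ++ V.flatten) := by
  obtain ⟨e, rfl⟩ : ∃ e', e = e' + 1 := ⟨e - 1, by omega⟩
  refine GW_pw (hS.good ze hze) ?_ ?_ (GW_cons hS hze V hV) e
  · rcases V with _ | ⟨x, V⟩
    · exact absurd rfl hne
    · simp [(hS.good x (hV x (by simp)).1).ne_nil]
  · exact per_lt_flatten V hne (fun x hx => ⟨(hS.good x (hV x hx).1).ne_nil,
      per_lt_of_over hS hze (hV x hx).1 (hV x hx).2⟩)

/-- Comparison of two lists of letters. -/
theorem list_cmp {α : Type*} : ∀ V V' : List α, V <+: V' ∨ V' <+: V ∨
    ∃ P x R y R', x ≠ y ∧ V = P ++ x :: R ∧ V' = P ++ y :: R' := by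
  intro V
  induction V with
  | nil => intro V'; left; exact List.nil_prefix
  | cons a V ih =>
    intro V'
    rcases V' with _ | ⟨b, V'⟩
    · right; left; exact List.nil_prefix
    · by_cases hab : a = b
      · subst hab
        rcases ih V' with h | h | ⟨P, x, R, y, R', h1, h2, h3⟩
        · left; exact (List.prefix_cons_inj a).2 h
        · right; left; exact (List.prefix_cons_inj a).2 h
        · right; right
          exact ⟨a :: P, x, R, y, R', h1, by simp [h2], by simp [h3]⟩
      · right; right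
        exact ⟨[], a, V, b, V', hab, by simp, by simp⟩

/-- First difference decides. -/
theorem Alph.lt_of_diff {S : Set (Wd d)} (hS : Alph S) {P R : List (Wd d)} {x y w : Wd d}
    (hx : x ∈ S) (hy : y ∈ S) (h : num x < num y) (hR : ∀ z ∈ R, z ∈ S) :
    num ((P ++ x :: R).flatten) < num (P.flatten ++ (y ++ w)) := by
  rw [List.flatten_append, List.flatten_cons]
  apply num_append_lt_append
  exact lt_of_lt_of_le (hS.oe x hx y hy h R hR) (num_le_append y w)

theorem pw_flat (e : ℕ) (ze : Wd d) : pw e ze = (List.replicate e ze).flatten := rfl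

/-- A list over the eliminated alphabet is a list over `S`, empty or starting with `ze`. -/
theorem nxt_flat {n : ℕ} {S : Set (Wd d)} {ze : Wd d} (hze : ze ∈ S) :
    ∀ L : List (Wd d), (∀ y ∈ L, y ∈ nxt n S ze) →
    ∃ M : List (Wd d), (∀ y ∈ M, y ∈ S) ∧ M.flatten = L.flatten ∧ (M = [] ∨ ∃ R, M = ze :: R) := by
  intro L
  induction L with
  | nil => intro _; exact ⟨[], by simp, by simp, Or.inl rfl⟩
  | cons y L ih =>
    intro hL
    obtain ⟨M, hM1, hM2, _⟩ := ih (fun z hz => hL z (by simp [hz]))
    obtain ⟨e, V, he, _, hV, _, hy⟩ := hL y (by simp)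
    obtain ⟨e, rfl⟩ : ∃ e', e = e' + 1 := ⟨e - 1, by omega⟩
    refine ⟨ze :: (List.replicate e ze ++ V ++ M), ?_, ?_, Or.inr ⟨_, rfl⟩⟩
    · intro z hz
      rcases List.mem_cons.1 hz with rfl | hz
      · exact hze
      · exact over_append (over_append (over_replicate hze e) (fun x hx => (hV x hx).1)) hM1 z hz
    · rw [List.flatten_cons, List.flatten_append, List.flatten_append, hM2, List.flatten_cons, hy,
        pw_succ, pw_flat]
      simp

theorem Alph_nxt {n : ℕ} {S : Set (Wd d)} (hS : Alph S) {ze : Wd d} (hze : ze ∈ S) :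
    Alph (nxt n S ze) := by
  refine ⟨?_, ?_⟩
  · rintro y ⟨e, V, he, hne, hV, _, rfl⟩
    exact GW_nxt hS hze he hne hV
  · rintro Y ⟨e, V, he, hne, hV, _, rfl⟩ Y' ⟨e', V', he', hne', hV', _, rfl⟩ hlt L hL
    obtain ⟨M, hM1, hM2, hM3⟩ := nxt_flat hze L hL
    rw [← hM2]
    rcases lt_trichotomy e e' with h | h | h
    · -- contradiction
      exfalso
      obtain ⟨k, rfl⟩ : ∃ k, e' = e + (k + 1) := ⟨e' - e - 1, by omega⟩
      obtain ⟨x, V, rfl⟩ := List.exists_cons_of_ne_nil hne
      have hx := hV x (by simp)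
      have h1 := hS.lt_of_diff (P := List.replicate e ze) (R := List.replicate k ze ++ V')
        (w := V.flatten) hze hx.1 hx.2
        (over_append (over_replicate hze k) (fun z hz => (hV' z hz).1))
      have e1 : pw (e + (k + 1)) ze ++ V'.flatten =
          (List.replicate e ze ++ ze :: (List.replicate k ze ++ V')).flatten := by
        simp only [pw_flat, List.replicate_add, List.replicate_succ, List.flatten_append,
          List.flatten_cons, List.append_assoc]
      have e2 : pw e ze ++ (x :: V).flatten = (List.replicate e ze).flatten ++ (x ++ V.flatten) := by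
        simp [pw_flat]
      rw [e1, e2] at hlt
      exact lt_asymm hlt h1
    · subst h
      rcases list_cmp V V' with h | h | ⟨P, x, R, y, R', hxy, rfl, rfl⟩
      · obtain ⟨R, rfl⟩ := h
        rcases hM3 with rfl | ⟨M', rfl⟩
        · simpa using hlt
        · rcases R with _ | ⟨x, R⟩
          · simp at hlt
          · have hx := hV' x (by simp)
            have h1 := hS.lt_of_diff (P := List.replicate e ze ++ V) (R := M')
              (w := R.flatten) hze hx.1 hx.2 (fun z hz => hM1 z (by simp [hz]))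
            simpa [pw_flat] using h1
      · exfalso
        obtain ⟨R, rfl⟩ := h
        have : num (pw e ze ++ V'.flatten) ≤ num (pw e ze ++ (V' ++ R).flatten) := by
          rw [List.flatten_append, ← List.append_assoc]; exact num_le_append _ _
        exact absurd hlt (not_lt.2 this)
      · have hx := hV x (by simp)
        have hy := hV' y (by simp)
        rcases lt_trichotomy (num x) (num y) with h | h | h
        · have h1 := hS.lt_of_diff (P := List.replicate e ze ++ P) (R := R ++ M)
            (w := R'.flatten) hx.1 hy.1 h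
            (over_append (fun z hz => (hV z (by simp [hz])).1) hM1)
          simpa [pw_flat] using h1
        · exact absurd (num_inj h) hxy
        · exfalso
          have h1 := hS.lt_of_diff (P := List.replicate e ze ++ P) (R := R')
            (w := R.flatten) hy.1 hx.1 h (fun z hz => (hV' z (by simp [hz])).1)
          have h2 : num (pw e ze ++ (P ++ y :: R').flatten) <
              num (pw e ze ++ (P ++ x :: R).flatten) := by
            simpa [pw_flat] using h1
          exact lt_asymm hlt h2
    · obtain ⟨k, rfl⟩ : ∃ k, e = e' + (k + 1) := ⟨e - e' - 1, by omega⟩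
      obtain ⟨y, V', rfl⟩ := List.exists_cons_of_ne_nil hne'
      have hy := hV' y (by simp)
      have h1 := hS.lt_of_diff (P := List.replicate e' ze)
        (R := List.replicate k ze ++ V ++ M) (w := V'.flatten) hze hy.1 hy.2
        (over_append (over_append (over_replicate hze k) (fun z hz => (hV z hz).1)) hM1)
      have e1 : pw (e' + (k + 1)) ze ++ V.flatten ++ M.flatten =
          (List.replicate e' ze ++ ze :: (List.replicate k ze ++ V ++ M)).flatten := by
        simp only [pw_flat, List.replicate_add, List.replicate_succ, List.flatten_append,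
          List.flatten_cons, List.append_assoc]
      have e2 : pw e' ze ++ (y :: V').flatten =
          (List.replicate e' ze).flatten ++ (y ++ V'.flatten) := by
        simp [pw_flat]
      rw [e1, e2]
      exact h1

end Pool.Agent.LawGrowth
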