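import Pool.Agent.Lib.MP_f46765_al.H13.Count

/-! Words over a finite alphabet without a chain of length `m` as a factor. -/

namespace Pool.Agent.LawGrowth

open scoped ENNReal

variable {d : ℕ}

/-- Words having no factor which is the concatenation of a chain of length `m`. -/
def Fr (d m : ℕ) : Set (Wd d) :=
  {w | ∀ (p : Wd d) (C : List (Wd d)) (q : Wd d), C.length = m → Ch C →
    w ≠ p ++ (C.flatten ++ q)}

/-- The alphabet of single letters. -/
def Let (d : ℕ) : Set (Wd d) := {w | ∃ a : Fin d, w = [a]}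

theorem Alph_Let : Alph (Let d) := by
  refine ⟨?_, ?_⟩
  · rintro x ⟨a, rfl⟩; exact GW.letter a
  · rintro x ⟨a, rfl⟩ y ⟨c, rfl⟩ h L _
    have hb := @bpos d
    rw [List.singleton_append, num_cons, num_cons, num_nil, div_lt_div_iff_of_pos_right hb]
    rw [num_cons, num_cons, num_nil, div_lt_div_iff_of_pos_right hb] at h
    have h1 := num_lt_one L.flatten
    have h2 : (a : ℕ) < (c : ℕ) := by
      have : ((a : ℕ) : ℚ) < ((c : ℕ) : ℚ) := by linarith
      exact_mod_cast this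
    have h3 : ((a : ℕ) : ℚ) + 1 ≤ ((c : ℕ) : ℚ) := by exact_mod_cast h2
    linarith

theorem Fr_subset (m : ℕ) : Fr d m ⊆ Av m (Let d) := by
  intro w hw
  refine ⟨w.map (fun a => [a]), ?_, ?_, ?_⟩
  · intro x hx
    obtain ⟨a, _, rfl⟩ := List.mem_map.1 hx
    exact ⟨a, rfl⟩
  · rw [← List.flatMap_def]; simp
  · rintro P Q hPQ ⟨C, hC, hch, _, q, hq⟩
    have h1 : w = P.flatten ++ Q.flatten := by
      rw [← List.flatten_append, ← hPQ, ← List.flatMap_def]; simp
    exact hw P.flatten C q hC hch (by rw [h1, hq])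

theorem Z_Let (t : ℝ≥0∞) : Z t (Let d) ≤ d * t := by
  have h1 : Let d ⊆ ⋃ a : Fin d, {[a]} := by
    rintro w ⟨a, rfl⟩; exact Set.mem_iUnion.2 ⟨a, rfl⟩
  refine (Z_mono h1).trans ((Z_iUnion _ _).trans ?_)
  simp [Z_singleton]

/-- Number of words of length `n` without chain factor. -/
noncomputable def cn (d m n : ℕ) : ℕ := Set.ncard {w : Wd d | w ∈ Fr d m ∧ w.length = n}

theorem finite_len (n : ℕ) : {w : Wd d | w.length = n}.Finite := List.finite_length_eq _ n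

theorem cn_le (d m : ℕ) (t : ℝ≥0∞) (ht : t < 1) : ∃ C < ⊤, ∀ n, (cn d m n : ℝ≥0∞) * t ^ n ≤ C := by
  obtain ⟨Φ, hΦ, hΦb⟩ := TT_all d m (fun t => d * t) (fun t ht =>
    ENNReal.mul_lt_top (ENNReal.natCast_lt_top d) (ht.trans ENNReal.one_lt_top))
  refine ⟨Φ t, hΦ t ht, fun n => ?_⟩
  have h1 := hΦb (Let d) Alph_Let (fun t _ => Z_Let t) t ht
  refine le_trans ?_ ((Z_mono (Fr_subset m)).trans h1)
  have hfin : {w : Wd d | w ∈ Fr d m ∧ w.length = n}.Finite :=
    (finite_len n).subset (fun w hw => hw.2)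
  have h2 : {w : Wd d | w ∈ Fr d m ∧ w.length = n} ⊆ Fr d m := fun w hw => hw.1
  refine le_trans (le_of_eq ?_) (Z_mono h2)
  unfold Z cn
  have h3 : ∀ w : {w : Wd d | w ∈ Fr d m ∧ w.length = n}, t ^ (w.1.length) = t ^ n := by
    intro w; rw [w.2.2]
  rw [tsum_congr h3]
  have := hfin.fintype
  rw [tsum_fintype, Finset.sum_const, nsmul_eq_mul, Finset.card_univ, ← Nat.card_eq_fintype_card,
    Nat.card_coe_set_eq]

/-- The numbers `cn d m n` grow subexponentially in `n`. -/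
theorem cn_subexp (d m : ℕ) (ε : ℝ) (hε : 0 < ε) :
    ∃ C : ℝ, ∀ n, (cn d m n : ℝ) ≤ C * (1 + ε) ^ n := by
  set t : ℝ := (1 + ε)⁻¹ with ht
  have h0 : 0 < 1 + ε := by linarith
  have ht0 : 0 < t := inv_pos.2 h0
  have ht1 : t < 1 := inv_lt_one_of_one_lt₀ (by linarith)
  obtain ⟨C, hC, hCb⟩ := cn_le d m (ENNReal.ofReal t) (by
    rw [← ENNReal.ofReal_one]; exact (ENNReal.ofReal_lt_ofReal_iff one_pos).2 ht1)
  refine ⟨C.toReal, fun n => ?_⟩
  have h1 := ENNReal.toReal_mono hC.ne (hCb n)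
  rw [ENNReal.toReal_mul, ENNReal.toReal_pow, ENNReal.toReal_ofReal ht0.le,
    ENNReal.toReal_natCast, ht, inv_pow, ← div_eq_mul_inv, div_le_iff₀ (pow_pos h0 n)] at h1
  exact h1

end Pool.Agent.LawGrowth
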