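import Pool.Agent.Lib.MP_f46765_al.H13.ML

/-! From a group law to the multilinear relation. -/

namespace Pool.Agent.LawGrowth

theorem coef_nil (L : List (ℕ × Bool)) : coef L [] = 1 := by cases L <;> rfl

theorem coef_cons (r : ℕ × Bool) (L : List (ℕ × Bool)) (i : ℕ) (τ : List ℕ) :
    coef (r :: L) (i :: τ) = coef L (i :: τ) + (if i = r.1 then sn r.2 * coef L τ else 0) := rfl

theorem coef_skip (L : List (ℕ × Bool)) (τ : List ℕ) : ∀ B : List (ℕ × Bool),
    (τ = [] ∨ ∃ i τ', τ = i :: τ' ∧ ∀ r ∈ B, r.1 ≠ i) → coef (B ++ L) τ = coef L τ := by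
  intro B
  rcases τ with _ | ⟨i, τ⟩
  · intro _; rw [coef_nil, coef_nil]
  · intro hB
    have hB' : ∀ r ∈ B, r.1 ≠ i := by
      rcases hB with h | ⟨i', τ', h1, h2⟩
      · exact absurd h (by simp)
      · rw [(List.cons_eq_cons.1 h1).1]; exact h2
    clear hB
    induction B with
    | nil => rfl
    | cons r B ih =>
      rw [List.cons_append, coef_cons, if_neg (fun h => hB' r (by simp) h.symm), add_zero]
      exact ih (fun r' hr' => hB' r' (by simp [hr']))

theorem coef_once (L : List (ℕ × Bool)) (B1 B2 : List (ℕ × Bool)) (i : ℕ) (e : Bool) (τ : List ℕ)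
    (h1 : ∀ r ∈ B1, r.1 ≠ i) (h2 : ∀ r ∈ B2, r.1 ≠ i)
    (h3 : τ = [] ∨ ∃ i' τ', τ = i' :: τ' ∧ ∀ r ∈ B2, r.1 ≠ i') :
    coef ((B1 ++ (i, e) :: B2) ++ L) (i :: τ) = coef L (i :: τ) + sn e * coef L τ := by
  have e1 : (B1 ++ (i, e) :: B2) ++ L = B1 ++ ((i, e) :: (B2 ++ L)) := by simp
  rw [e1, coef_skip _ _ B1 (Or.inr ⟨i, τ, rfl, h1⟩), coef_cons, if_pos rfl,
    coef_skip _ _ B2 (Or.inr ⟨i, τ, rfl, h2⟩), coef_skip _ _ B2 h3]

section
variable {β : Type*} [DecidableEq β] (cls : ℕ → β) (sgn : ℕ → Bool) (M : ℕ)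

/-- Positions of the class `b`. -/
def Cb (b : β) : List ℕ := (List.range M).filter (fun j => cls j = b)

/-- The block replacing the letter at position `t`. -/
def Bt (t : ℕ) : List (ℕ × Bool) :=
  if sgn t then (Cb cls M (cls t)).map (fun j => (j, true))
  else (Cb cls M (cls t)).reverse.map (fun j => (j, false))

theorem mem_Cb {b : β} {j : ℕ} : j ∈ Cb cls M b ↔ j < M ∧ cls j = b := by
  simp [Cb]

theorem mem_Bt {t : ℕ} {r : ℕ × Bool} (h : r ∈ Bt cls sgn M t) : r.1 < M ∧ cls r.1 = cls t := by
  unfold Bt at h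
  split_ifs at h
  · obtain ⟨j, hj, rfl⟩ := List.mem_map.1 h
    exact (mem_Cb cls M).1 hj
  · obtain ⟨j, hj, rfl⟩ := List.mem_map.1 h
    exact (mem_Cb cls M).1 (List.mem_reverse.1 hj)

theorem split_Bt {t i : ℕ} (hi : i < M) (hc : cls i = cls t) :
    ∃ B1 B2, Bt cls sgn M t = B1 ++ (i, sgn t) :: B2 ∧ (∀ r ∈ B1, r.1 ≠ i) ∧
      (∀ r ∈ B2, r.1 ≠ i) := by
  have hmem : i ∈ Cb cls M (cls t) := (mem_Cb cls M).2 ⟨hi, hc⟩
  have hnd : (Cb cls M (cls t)).Nodup := List.Nodup.filter _ List.nodup_range
  obtain ⟨P, Q, hPQ⟩ := List.append_of_mem hmem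
  rw [hPQ] at hnd
  have h1 : i ∉ P := by
    intro h; exact (List.nodup_append.1 hnd).2.2 i h i (by simp) rfl
  have h2 : i ∉ Q := (List.nodup_cons.1 (List.nodup_append.1 hnd).2.1).1
  unfold Bt
  rw [hPQ]
  cases hs : sgn t with
  | true =>
    refine ⟨P.map (fun j => (j, true)), Q.map (fun j => (j, true)), by simp, ?_, ?_⟩
    · rintro r hr; obtain ⟨j, hj, rfl⟩ := List.mem_map.1 hr
      intro h; exact h1 (h ▸ hj)
    · rintro r hr; obtain ⟨j, hj, rfl⟩ := List.mem_map.1 hr
      intro h; exact h2 (h ▸ hj)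
  | false =>
    refine ⟨Q.reverse.map (fun j => (j, false)), P.reverse.map (fun j => (j, false)), by simp, ?_, ?_⟩
    · rintro r hr; obtain ⟨j, hj, rfl⟩ := List.mem_map.1 hr
      intro h; exact h2 (h ▸ List.mem_reverse.1 hj)
    · rintro r hr; obtain ⟨j, hj, rfl⟩ := List.mem_map.1 hr
      intro h; exact h1 (h ▸ List.mem_reverse.1 hj)

/-- The coefficient of the increasing product is `1` or `-1`. -/
theorem coef_big (hadj : ∀ t, t + 1 < M → cls t ≠ cls (t + 1)) : ∀ k t, t + k = M → ∀ k' i,
    i + k' = M → i ≤ t →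
    (i < t → coef ((List.range' t k).flatMap (Bt cls sgn M)) (List.range' i k') = 0) ∧
    (i = t → coef ((List.range' t k).flatMap (Bt cls sgn M)) (List.range' i k') = 1 ∨
      coef ((List.range' t k).flatMap (Bt cls sgn M)) (List.range' i k') = -1) := by
  intro k
  induction k with
  | zero =>
    intro t ht k' i hi hit
    constructor
    · intro hlt
      obtain ⟨k', rfl⟩ : ∃ a, k' = a + 1 := ⟨k' - 1, by omega⟩
      simp [List.range'_succ, coef]
    · intro he
      have : k' = 0 := by omega
      subst this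
      left; simp [coef]
  | succ k ih =>
    intro t ht k' i hi hit
    obtain ⟨k', rfl⟩ : ∃ a, k' = a + 1 := ⟨k' - 1, by omega⟩
    have e1 : (List.range' t (k + 1)).flatMap (Bt cls sgn M) =
        Bt cls sgn M t ++ (List.range' (t + 1) k).flatMap (Bt cls sgn M) := by
      rw [List.range'_succ, List.flatMap_cons]
    rw [e1]
    have hz := (ih (t + 1) (by omega) (k' + 1) i hi (by omega)).1 (by omega)
    by_cases hc : cls i = cls t
    · obtain ⟨B1, B2, hB, h1, h2⟩ := split_Bt cls sgn M (i := i) (t := t) (by omega) hc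
      have h3 : List.range' (i + 1) k' = [] ∨ ∃ i' τ', List.range' (i + 1) k' = i' :: τ' ∧
          ∀ r ∈ B2, r.1 ≠ i' := by
        rcases k' with _ | k'
        · left; rfl
        · right
          refine ⟨i + 1, List.range' (i + 2) k', by rw [List.range'_succ], ?_⟩
          intro r hr h
          have hr' : r ∈ Bt cls sgn M t := by rw [hB]; simp [hr]
          have := (mem_Bt cls sgn M hr').2
          rw [h] at this
          exact hadj i (by omega) (hc.trans this.symm)
      have hz' : coef ((List.range' (t + 1) k).flatMap (Bt cls sgn M)) (i :: List.range' (i + 1) k') = 0 := by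
        rw [List.range'_succ] at hz; exact hz
      rw [hB, List.range'_succ, coef_once _ B1 B2 i (sgn t) _ h1 h2 h3, hz', zero_add]
      constructor
      · intro hlt
        rw [(ih (t + 1) (by omega) k' (i + 1) (by omega) (by omega)).1 (by omega), mul_zero]
      · intro he
        have hs : sn (sgn t) = 1 ∨ sn (sgn t) = -1 := by
          cases sgn t <;> simp [sn]
        rcases (ih (t + 1) (by omega) k' (i + 1) (by omega) (by omega)).2 (by omega) with h | h <;>
          rcases hs with h' | h' <;> rw [h, h'] <;> simp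
    · have hsk : coef (Bt cls sgn M t ++ (List.range' (t + 1) k).flatMap (Bt cls sgn M))
          (List.range' i (k' + 1)) = 0 := by
        rw [coef_skip, hz]
        right
        refine ⟨i, List.range' (i + 1) k', by rw [List.range'_succ], ?_⟩
        intro r hr h
        have := (mem_Bt cls sgn M hr).2
        rw [h] at this
        exact hc this
      constructor
      · intro _; exact hsk
      · intro he; exact absurd (congrArg cls he) hc

end

section
variable {K A : Type*} [Field K] [Ring A] [Algebra K A] {G : Type*} [Group G]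
  {β : Type*} [DecidableEq β]

theorem Pe_append (rho : G →* A) (h : ℕ → G) (L1 L2 : List (ℕ × Bool)) (S : Finset ℕ) :
    Pe rho h (L1 ++ L2) S = Pe rho h L1 S * Pe rho h L2 S := by
  simp [Pe]

/-- The value of the class `b` with only the variables in `S` switched on. -/
def phi (cls : ℕ → β) (M : ℕ) (h : ℕ → G) (S : Finset ℕ) (b : β) : G :=
  ((Cb cls M b).map (fun j => if j ∈ S then h j else 1)).prod

theorem Pe_Bt (rho : G →* A) (cls : ℕ → β) (sgn : ℕ → Bool) (M : ℕ) (h : ℕ → G) (S : Finset ℕ)
    (t : ℕ) : Pe rho h (Bt cls sgn M t) S = rho (sg (sgn t) (phi cls M h S (cls t))) := by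
  unfold Pe Bt phi sg
  cases hs : sgn t with
  | true =>
    simp only [if_true, List.map_map, map_list_prod]
    congr 1
    apply List.map_congr_left
    intro j _
    by_cases hj : j ∈ S <;> simp [hj]
  | false =>
    simp only [if_false, Bool.false_eq_true, List.map_map, List.prod_inv_reverse, map_list_prod,
      ← List.map_reverse]
    congr 1
    apply List.map_congr_left
    intro j _
    by_cases hj : j ∈ S <;> simp [hj]

theorem law_rel (Fl : Filt K A) (rho : G →* A) (cls : ℕ → β) (sgn : ℕ → Bool) (M : ℕ) (hM : 1 ≤ M)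
    (hadj : ∀ t, t + 1 < M → cls t ≠ cls (t + 1))
    (hlaw : ∀ φ : β → G, ((List.range M).map (fun t => sg (sgn t) (φ (cls t)))).prod = 1)
    (h : ℕ → G) (N : ℕ → ℕ) (hy : ∀ j, rho (h j) - 1 ∈ Fl.F (N j)) (hN : ∀ j, 1 ≤ N j) :
    Yp rho h (List.range M) ∈ WW Fl rho h N (Finset.range M) (List.range M) := by
  set L : List (ℕ × Bool) := (List.range' 0 M).flatMap (Bt cls sgn M) with hL
  have hPe : ∀ S, Pe rho h L S = 1 := by
    intro S
    have h1 : ∀ T : List ℕ, Pe rho h (T.flatMap (Bt cls sgn M)) S =
        rho ((T.map (fun t => sg (sgn t) (phi cls M h S (cls t)))).prod) := by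
      intro T
      induction T with
      | nil => simp [Pe]
      | cons t T ih => rw [List.flatMap_cons, Pe_append, ih, Pe_Bt]; simp
    rw [hL, h1, ← List.range_eq_range', hlaw]; simp
  have hD : Df (Finset.range M) (Pe rho h L) = 0 := by
    rw [← Df_const_one (A := A) (J := Finset.range M) ⟨0, Finset.mem_range.2 hM⟩]
    exact Df_congr (fun S _ => hPe S)
  have h1 := main_expand (Fl := Fl) hy hN L (Finset.range M) (List.range M) List.nodup_range
    (List.toFinset_range M)
  rw [hD, zero_sub] at h1
  have h2 := (coef_big cls sgn M hadj M 0 (by omega) M 0 (by omega) le_rfl).2 rfl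
  rw [← hL, ← List.range_eq_range'] at h2
  rcases h2 with h2 | h2
  · rw [h2, one_smul] at h1
    have := Submodule.neg_mem _ h1
    rwa [neg_neg] at this
  · rw [h2, neg_smul, one_smul, neg_neg] at h1
    exact h1

end

section
variable {α : Type*}

/-- Replacing each letter by two letters. -/
def dbl (a : α × Bool) : List ((α × Bool) × Bool) := [((a.1, !a.2), a.2), ((a.1, a.2), a.2)]

theorem dbl_ne (a : α × Bool) : (a.1, !a.2) ≠ (a.1, a.2) := by
  intro h
  have := congrArg Prod.snd h
  cases ha : a.2 <;> simp [ha] at this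

theorem chain_dbl : ∀ L : List (α × Bool), L.IsChain (fun a b => a.1 = b.1 → a.2 = b.2) →
    (L.flatMap dbl).IsChain (fun p q => p.1 ≠ q.1) := by
  intro L
  induction L with
  | nil => intro _; simp
  | cons a L ih =>
    intro hL
    rcases L with _ | ⟨b, L⟩
    · simp only [dbl, List.flatMap_cons, List.flatMap_nil, List.append_nil]
      exact List.isChain_cons_cons.2 ⟨dbl_ne a, List.isChain_singleton _⟩
    · rw [List.isChain_cons_cons] at hL
      have h1 := ih hL.2
      rw [List.flatMap_cons] at h1 ⊢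
      simp only [dbl, List.cons_append, List.nil_append] at h1 ⊢
      rw [List.flatMap_cons]
      simp only [dbl, List.cons_append, List.nil_append]
      refine List.isChain_cons_cons.2 ⟨dbl_ne a, List.isChain_cons_cons.2 ⟨?_, h1⟩⟩
      intro h
      replace h : (a.1, a.2) = (b.1, !b.2) := h
      obtain ⟨h2, h3⟩ := Prod.mk.inj h
      have h4 := hL.1 h2
      rw [h4] at h3
      cases hb : b.2 <;> simp [hb] at h3

theorem chain_getD {γ : Type*} {R : γ → γ → Prop} (p0 : γ) : ∀ (D : List γ), D.IsChain R →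
    ∀ t, t + 1 < D.length → R (D.getD t p0) (D.getD (t + 1) p0) := by
  intro D
  induction D with
  | nil => intro _ t ht; simp at ht
  | cons a D ih =>
    intro hD t ht
    rcases D with _ | ⟨b, D⟩
    · simp at ht
    · rw [List.isChain_cons_cons] at hD
      rcases t with _ | t
      · simpa using hD.1
      · have := ih hD.2 t (by simpa using ht)
        simpa using this

theorem map_range_getD {γ δ : Type*} (p0 : γ) (g : γ → δ) (D : List γ) :
    (List.range D.length).map (fun t => g (D.getD t p0)) = D.map g := by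
  apply List.ext_getElem
  · simp
  · intro n h1 h2
    simp only [List.length_map, List.length_range] at h1 h2
    simp [List.getElem?_eq_getElem h1]

/-- A nontrivial word gives a cyclic pattern with distinct adjacent classes. -/
theorem exists_pattern [DecidableEq α] (w : FreeGroup α) (hw : w ≠ 1) :
    ∃ (M : ℕ) (cls : ℕ → α × Bool) (sgn : ℕ → Bool), 1 ≤ M ∧ M ≤ 2 * w.norm ∧
      (∀ t, t + 1 < M → cls t ≠ cls (t + 1)) ∧
      ∀ (G : Type _) [Group G], (∀ φ : α → G, FreeGroup.lift φ w = 1) →
        ∀ φ : α × Bool → G, ((List.range M).map (fun t => sg (sgn t) (φ (cls t)))).prod = 1 := by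
  set T := w.toWord with hT
  have hTne : T ≠ [] := by
    intro h; apply hw; rwa [hT, FreeGroup.toWord_eq_nil_iff] at h
  obtain ⟨p, T', hp⟩ := List.exists_cons_of_ne_nil hTne
  set D := T.flatMap dbl with hD
  set p0 : (α × Bool) × Bool := ((p.1, true), true) with hp0
  refine ⟨D.length, fun t => (D.getD t p0).1, fun t => (D.getD t p0).2, ?_, ?_, ?_, ?_⟩
  · rw [hD, hp, List.flatMap_cons]; simp [dbl]
  · have hlen : ∀ T : List (α × Bool), (T.flatMap dbl).length ≤ 2 * T.length := by
      intro T
      induction T with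
      | nil => simp
      | cons a T ih =>
        rw [List.flatMap_cons, List.length_append, List.length_cons]
        have : (dbl a).length = 2 := rfl
        omega
    exact hlen T
  · have h1 : D.IsChain (fun p q => p.1 ≠ q.1) := chain_dbl T FreeGroup.isReduced_toWord
    exact fun t ht => chain_getD p0 D h1 t ht
  · intro G _ hlaw φ
    rw [map_range_getD p0 (fun q => sg q.2 (φ q.1)) D]
    have h1 := hlaw (fun a => φ (a, false) * φ (a, true))
    rw [← FreeGroup.mk_toWord (x := w), FreeGroup.lift_mk, ← hT] at h1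
    rw [← h1, hD]
    clear h1 hD hp hTne hT
    clear_value T
    induction T with
    | nil => simp
    | cons a T ih =>
      rw [List.flatMap_cons, List.map_append, List.prod_append, ih, List.map_cons, List.prod_cons]
      congr 1
      rcases a with ⟨a, e⟩
      cases e <;> simp [dbl, sg]

end

end Pool.Agent.LawGrowth
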