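import Pool.Agent.Lib.MP_f46765_al.H13.Def
import Pool.Agent.Lib.MP_f46765_al.H13.LawRel
import Pool.Agent.Lib.MP_f46765_al.H13.Free

/-! The augmentation filtration of a group algebra and words in the generators. -/

namespace Pool.Agent.LawGrowth

section
variable {K G : Type*} [Field K] [Group G]

theorem of_sub_mem (g : G) : MonoidAlgebra.of K G g - 1 ∈ aug K G :=
  Submodule.subset_span ⟨g, rfl⟩

theorem top_mul_aug : (⊤ : Submodule K (MonoidAlgebra K G)) * aug K G ≤ aug K G := by
  rw [Submodule.mul_le]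
  intro x _ y hy
  induction x using MonoidAlgebra.induction_on with
  | of h =>
    refine Submodule.span_induction ?_ ?_ ?_ ?_ hy
    · rintro _ ⟨g, rfl⟩
      have : MonoidAlgebra.of K G h * (MonoidAlgebra.of K G g - 1) =
          (MonoidAlgebra.of K G (h * g) - 1) - (MonoidAlgebra.of K G h - 1) := by
        rw [map_mul]; noncomm_ring
      rw [this]
      exact Submodule.sub_mem _ (of_sub_mem _) (of_sub_mem _)
    · simp
    · intro a b _ _ ha hb; rw [mul_add]; exact Submodule.add_mem _ ha hb
    · intro c a _ ha; rw [mul_smul_comm]; exact Submodule.smul_mem _ _ ha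
  | add a b ha hb => rw [add_mul]; exact Submodule.add_mem _ (ha trivial) (hb trivial)
  | smul c a ha => rw [smul_mul_assoc]; exact Submodule.smul_mem _ _ (ha trivial)

theorem top_mul_augPow (n : ℕ) :
    (⊤ : Submodule K (MonoidAlgebra K G)) * augPow K G n ≤ augPow K G n := by
  rcases n with _ | n
  · exact le_top
  · rw [augPow, ← mul_assoc]
    exact mul_le_mul' top_mul_aug le_rfl

theorem augPow_anti (n : ℕ) : augPow K G (n + 1) ≤ augPow K G n := by
  induction n with
  | zero => exact le_top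
  | succ n ih => exact mul_le_mul' le_rfl ih

theorem augPow_mul (m n : ℕ) : augPow K G m * augPow K G n ≤ augPow K G (m + n) := by
  induction m with
  | zero => rw [zero_add]; exact top_mul_augPow n
  | succ m ih =>
    rw [augPow, mul_assoc, add_right_comm, augPow]
    exact mul_le_mul' le_rfl ih

/-- The augmentation filtration. -/
noncomputable def augF (K G : Type*) [Field K] [Group G] : Filt K (MonoidAlgebra K G) where
  F := augPow K G
  top := rfl
  anti := augPow_anti
  mul := fun m n _ _ hx hy => augPow_mul m n (Submodule.mul_mem_mul hx hy)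

theorem of_sub_mem' (g : G) : MonoidAlgebra.of K G g - 1 ∈ augPow K G 1 := by
  have := Submodule.mul_mem_mul (of_sub_mem (K := K) g)
    (show (1 : MonoidAlgebra K G) ∈ augPow K G 0 from trivial)
  rw [mul_one] at this
  exact this

theorem aug_le : aug K G ≤ augPow K G 1 := by
  unfold aug
  rw [Submodule.span_le]
  rintro _ ⟨g, rfl⟩
  exact of_sub_mem' g

variable {d : ℕ} (s : Fin d → G)

/-- The product of the elements `s i - 1` along a word. -/
noncomputable def Br (w : Wd d) : MonoidAlgebra K G := (w.map (fun i => MonoidAlgebra.of K G (s i) - 1)).prod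

theorem Br_append (u v : Wd d) : Br (K := K) s (u ++ v) = Br s u * Br s v := by simp [Br]

theorem Br_mem (w : Wd d) : Br (K := K) s w ∈ augPow K G w.length := by
  induction w with
  | nil => trivial
  | cons i w ih =>
    have : Br (K := K) s (i :: w) = (MonoidAlgebra.of K G (s i) - 1) * Br s w := by simp [Br]
    rw [this, List.length_cons, augPow]
    exact Submodule.mul_mem_mul (of_sub_mem _) ih

/-- Span of the words of length `n` and value at least `c`, up to higher order. -/
noncomputable def Ge (n : ℕ) (c : ℚ) : Submodule K (MonoidAlgebra K G) :=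
  Submodule.span K {x | ∃ v : Wd d, v.length = n ∧ c ≤ num v ∧ x = Br s v} ⊔ augPow K G (n + 1)

/-- Span of the words of length `n` and value larger than `c`, up to higher order. -/
noncomputable def Up (n : ℕ) (c : ℚ) : Submodule K (MonoidAlgebra K G) :=
  Submodule.span K {x | ∃ v : Wd d, v.length = n ∧ c < num v ∧ x = Br s v} ⊔ augPow K G (n + 1)

variable {s}

theorem Ge_anti {n : ℕ} {c c' : ℚ} (h : c ≤ c') : Ge (K := K) s n c' ≤ Ge s n c := by
  refine sup_le_sup_right (Submodule.span_mono ?_) _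
  rintro x ⟨v, h1, h2, h3⟩; exact ⟨v, h1, h.trans h2, h3⟩

theorem Ge_le_Up {n : ℕ} {c c' : ℚ} (h : c < c') : Ge (K := K) s n c' ≤ Up s n c := by
  refine sup_le_sup_right (Submodule.span_mono ?_) _
  rintro x ⟨v, h1, h2, h3⟩; exact ⟨v, h1, lt_of_lt_of_le h h2, h3⟩

theorem Up_anti {n : ℕ} {c c' : ℚ} (h : c ≤ c') : Up (K := K) s n c' ≤ Up s n c := by
  refine sup_le_sup_right (Submodule.span_mono ?_) _
  rintro x ⟨v, h1, h2, h3⟩; exact ⟨v, h1, lt_of_le_of_lt h h2, h3⟩

theorem Up_le_Ge {n : ℕ} {c : ℚ} : Up (K := K) s n c ≤ Ge s n c := by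
  refine sup_le_sup_right (Submodule.span_mono ?_) _
  rintro x ⟨v, h1, h2, h3⟩; exact ⟨v, h1, h2.le, h3⟩

theorem Ge_le {n : ℕ} {c : ℚ} : Ge (K := K) s n c ≤ augPow K G n := by
  refine sup_le ?_ (augPow_anti n)
  rw [Submodule.span_le]
  rintro x ⟨v, rfl, _, rfl⟩; exact Br_mem s v

theorem Br_mem_Ge (w : Wd d) : Br (K := K) s w ∈ Ge s w.length (num w) :=
  Submodule.mem_sup_left (Submodule.subset_span ⟨w, rfl, le_rfl, rfl⟩)

/-- Bilinearity helper: products of two spans modulo higher order. -/
theorem mul_sup_mem {X Y : Set (MonoidAlgebra K G)} {m n : ℕ}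
    {W : Submodule K (MonoidAlgebra K G)} (hX : ∀ x ∈ X, x ∈ augPow K G m)
    (hY : ∀ y ∈ Y, y ∈ augPow K G n) (hW : augPow K G (m + n + 1) ≤ W)
    (hXY : ∀ x ∈ X, ∀ y ∈ Y, x * y ∈ W) {a b : MonoidAlgebra K G}
    (ha : a ∈ Submodule.span K X ⊔ augPow K G (m + 1))
    (hb : b ∈ Submodule.span K Y ⊔ augPow K G (n + 1)) : a * b ∈ W := by
  obtain ⟨a1, ha1, a2, ha2, rfl⟩ := Submodule.mem_sup.1 ha
  obtain ⟨b1, hb1, b2, hb2, rfl⟩ := Submodule.mem_sup.1 hb
  have hXs : Submodule.span K X ≤ augPow K G m := Submodule.span_le.2 hX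
  have hYs : Submodule.span K Y ≤ augPow K G n := Submodule.span_le.2 hY
  have h1 : a1 * b1 ∈ W := by
    have h2 : Submodule.span K X * Submodule.span K Y ≤ W := by
      rw [Submodule.span_mul_span, Submodule.span_le]
      rintro _ ⟨x, hx, y, hy, rfl⟩
      exact hXY x hx y hy
    exact h2 (Submodule.mul_mem_mul ha1 hb1)
  have h2 : a1 * b2 ∈ W := by
    apply hW
    have := augPow_mul m (n + 1) (Submodule.mul_mem_mul (hXs ha1) hb2)
    exact this
  have h3 : a2 * (b1 + b2) ∈ W := by
    apply hW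
    have hb' : b1 + b2 ∈ augPow K G n :=
      Submodule.add_mem _ (hYs hb1) (augPow_anti n hb2)
    have := augPow_mul (m + 1) n (Submodule.mul_mem_mul ha2 hb')
    rwa [add_right_comm] at this
  have : (a1 + a2) * (b1 + b2) = a1 * b1 + a1 * b2 + a2 * (b1 + b2) := by noncomm_ring
  rw [this]
  exact Submodule.add_mem _ (Submodule.add_mem _ h1 h2) h3

theorem num_append_ge {u u' v v' : Wd d} (hl : u'.length = u.length) (h1 : num u ≤ num u')
    (h2 : num v ≤ num v') : num (u ++ v) ≤ num (u' ++ v') := by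
  rw [num_append, num_append]
  have hb : bet u' = bet u := by unfold bet; rw [hl]
  rw [hb]
  have := mul_le_mul_of_nonneg_left h2 (bet_pos u).le
  linarith

theorem num_append_gt_left {u u' v v' : Wd d} (hl : u'.length = u.length) (h1 : num u < num u')
    (h2 : num v ≤ num v') : num (u ++ v) < num (u' ++ v') := by
  rw [num_append, num_append]
  have hb : bet u' = bet u := by unfold bet; rw [hl]
  rw [hb]
  have := mul_le_mul_of_nonneg_left h2 (bet_pos u).le
  linarith

theorem num_append_gt_right {u u' v v' : Wd d} (hl : u'.length = u.length) (h1 : num u ≤ num u')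
    (h2 : num v < num v') : num (u ++ v) < num (u' ++ v') := by
  rw [num_append, num_append]
  have hb : bet u' = bet u := by unfold bet; rw [hl]
  rw [hb]
  have := mul_lt_mul_of_pos_left h2 (bet_pos u)
  linarith

theorem Ge_mul_Ge {u v : Wd d} {a b : MonoidAlgebra K G} (ha : a ∈ Ge s u.length (num u))
    (hb : b ∈ Ge s v.length (num v)) : a * b ∈ Ge s (u ++ v).length (num (u ++ v)) := by
  refine mul_sup_mem (m := u.length) (n := v.length) ?_ ?_ ?_ ?_ ha hb
  · rintro x ⟨w, hw, _, rfl⟩; rw [← hw]; exact Br_mem s w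
  · rintro x ⟨w, hw, _, rfl⟩; rw [← hw]; exact Br_mem s w
  · rw [List.length_append]; exact le_sup_right
  · rintro x ⟨w, hw, hw', rfl⟩ y ⟨w', hv, hv', rfl⟩
    rw [← Br_append]
    refine Submodule.mem_sup_left (Submodule.subset_span ⟨w ++ w', ?_, ?_, rfl⟩)
    · simp [hw, hv]
    · exact num_append_ge hw hw' hv'

theorem Up_mul_Ge {u v : Wd d} {a b : MonoidAlgebra K G} (ha : a ∈ Up s u.length (num u))
    (hb : b ∈ Ge s v.length (num v)) : a * b ∈ Up s (u ++ v).length (num (u ++ v)) := by
  refine mul_sup_mem (m := u.length) (n := v.length) ?_ ?_ ?_ ?_ ha hb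
  · rintro x ⟨w, hw, _, rfl⟩; rw [← hw]; exact Br_mem s w
  · rintro x ⟨w, hw, _, rfl⟩; rw [← hw]; exact Br_mem s w
  · rw [List.length_append]; exact le_sup_right
  · rintro x ⟨w, hw, hw', rfl⟩ y ⟨w', hv, hv', rfl⟩
    rw [← Br_append]
    refine Submodule.mem_sup_left (Submodule.subset_span ⟨w ++ w', ?_, ?_, rfl⟩)
    · simp [hw, hv]
    · exact num_append_gt_left hw hw' hv'

theorem Ge_mul_Up {u v : Wd d} {a b : MonoidAlgebra K G} (ha : a ∈ Ge s u.length (num u))
    (hb : b ∈ Up s v.length (num v)) : a * b ∈ Up s (u ++ v).length (num (u ++ v)) := by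
  refine mul_sup_mem (m := u.length) (n := v.length) ?_ ?_ ?_ ?_ ha hb
  · rintro x ⟨w, hw, _, rfl⟩; rw [← hw]; exact Br_mem s w
  · rintro x ⟨w, hw, _, rfl⟩; rw [← hw]; exact Br_mem s w
  · rw [List.length_append]; exact le_sup_right
  · rintro x ⟨w, hw, hw', rfl⟩ y ⟨w', hv, hv', rfl⟩
    rw [← Br_append]
    refine Submodule.mem_sup_left (Submodule.subset_span ⟨w ++ w', ?_, ?_, rfl⟩)
    · simp [hw, hv]
    · exact num_append_gt_right hw hw' hv'

/-- `x` has leading word `u`. -/
def Lead (s : Fin d → G) (u : Wd d) (x : MonoidAlgebra K G) : Prop :=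
  x - Br s u ∈ Up s u.length (num u)

theorem Lead.mem_Ge {u : Wd d} {x : MonoidAlgebra K G} (h : Lead s u x) :
    x ∈ Ge s u.length (num u) := by
  have := Submodule.add_mem _ (Up_le_Ge h) (Br_mem_Ge (K := K) (s := s) u)
  simpa using this

theorem Lead.mul {u v : Wd d} {x y : MonoidAlgebra K G} (hx : Lead s u x) (hy : Lead s v y) :
    Lead s (u ++ v) (x * y) := by
  unfold Lead
  have h1 := Up_mul_Ge hx hy.mem_Ge
  have h2 := Ge_mul_Up (Br_mem_Ge (K := K) (s := s) u) hy
  have := Submodule.add_mem _ h1 h2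
  convert this using 1
  rw [Br_append]; noncomm_ring

/-- Good words are leading words of group elements. -/
theorem GW.exists_lead {u : Wd d} (hu : GW u) :
    ∃ g : G, Lead (K := K) s u (MonoidAlgebra.of K G g - 1) := by
  induction hu with
  | letter a =>
    refine ⟨s a, ?_⟩
    have : MonoidAlgebra.of K G (s a) - 1 - Br (K := K) s [a] = 0 := by simp [Br]
    unfold Lead; rw [this]; exact Submodule.zero_mem _
  | @mul u v hu hv hlt ihu ihv =>
    obtain ⟨g, hg⟩ := ihu
    obtain ⟨k, hk⟩ := ihv
    refine ⟨(k * g)⁻¹ * (g * k), ?_⟩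
    set x := MonoidAlgebra.of K G g - 1 with hx
    set y := MonoidAlgebra.of K G k - 1 with hy
    set c := MonoidAlgebra.of K G ((k * g)⁻¹) - 1 with hc
    have hxg : MonoidAlgebra.of K G g = x + 1 := by rw [hx]; simp
    have hyk : MonoidAlgebra.of K G k = y + 1 := by rw [hy]; simp
    have h1 : MonoidAlgebra.of K G ((k * g)⁻¹ * (g * k)) - 1 = (x * y - y * x) + c * (x * y - y * x) := by
      have e1 : MonoidAlgebra.of K G ((k * g)⁻¹) * MonoidAlgebra.of K G (k * g) = 1 := by
        rw [← map_mul, inv_mul_cancel, map_one]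
      have e2 : MonoidAlgebra.of K G ((k * g)⁻¹) = c + 1 := by rw [hc, sub_add_cancel]
      have e3 : x * y - y * x = MonoidAlgebra.of K G (g * k) - MonoidAlgebra.of K G (k * g) := by
        rw [map_mul, map_mul, hxg, hyk]; noncomm_ring
      have e4 : (x * y - y * x) + c * (x * y - y * x) =
          MonoidAlgebra.of K G ((k * g)⁻¹) * (x * y - y * x) := by rw [e2]; noncomm_ring
      rw [e4, e3, mul_sub, e1, ← map_mul]
    have h2 : Lead s (u ++ v) (x * y) := hg.mul hk
    have h3 : y * x ∈ Up s (u ++ v).length (num (u ++ v)) := by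
      have e := Ge_mul_Ge hk.mem_Ge hg.mem_Ge
      have e' := Ge_le_Up (num_comm_lt hu.ne_nil hv.ne_nil hlt) e
      rwa [List.length_append, add_comm, ← List.length_append] at e'
    have h4 : c * (x * y - y * x) ∈ Up s (u ++ v).length (num (u ++ v)) := by
      refine Submodule.mem_sup_right ?_
      have e1 : x * y ∈ augPow K G (u ++ v).length := by
        rw [List.length_append]
        exact augPow_mul _ _ (Submodule.mul_mem_mul (Ge_le hg.mem_Ge) (Ge_le hk.mem_Ge))
      have e2 : y * x ∈ augPow K G (u ++ v).length := by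
        rw [List.length_append, add_comm]
        exact augPow_mul _ _ (Submodule.mul_mem_mul (Ge_le hk.mem_Ge) (Ge_le hg.mem_Ge))
      have e3 := augPow_mul 1 (u ++ v).length
        (Submodule.mul_mem_mul (of_sub_mem' (K := K) ((k * g)⁻¹)) (Submodule.sub_mem _ e1 e2))
      rwa [add_comm 1] at e3
    unfold Lead
    rw [h1]
    have := Submodule.add_mem _ (Submodule.sub_mem _ h2 h3) h4
    convert this using 1
    abel

end

end Pool.Agent.LawGrowth
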