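import Pool.Agent.Lib.MP_f46765_al.H13.GradB

/-! The rank of a finite `p`-group and the final estimates. -/

namespace Pool.Agent.LawGrowth

/-- Finitely many points detect the elements of a finite-dimensional space of functions. -/
theorem exists_points {K X : Type*} [Field K] : ∀ (r : ℕ) (U : Submodule K (X → K)),
    Module.Finite K U → Module.finrank K U ≤ r → ∃ L : List X, L.length ≤ r ∧
      ∀ f ∈ U, (∀ x ∈ L, f x = 0) → f = 0 := by
  intro r
  induction r with
  | zero =>
    intro U _ hU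
    have : U = ⊥ := Submodule.finrank_eq_zero.1 (Nat.le_zero.1 hU)
    subst this
    exact ⟨[], le_rfl, fun f hf _ => (Submodule.mem_bot K).1 hf⟩
  | succ r ih =>
    intro U hfin hU
    by_cases hbot : U = ⊥
    · subst hbot
      exact ⟨[], by simp, fun f hf _ => (Submodule.mem_bot K).1 hf⟩
    · obtain ⟨f, hf, hf0⟩ := Submodule.exists_mem_ne_zero_of_ne_bot hbot
      obtain ⟨x, hx⟩ := Function.ne_iff.1 hf0
      set U' : Submodule K (X → K) := U ⊓ LinearMap.ker (LinearMap.proj (R := K) (φ := fun _ : X => K) x) with hU'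
      have hlt : U' < U := by
        refine lt_of_le_of_ne inf_le_left ?_
        intro h
        rw [← h] at hf
        exact hx (LinearMap.mem_ker.1 hf.2)
      have h1 := Submodule.finrank_lt_finrank_of_lt hlt
      have hfin' : Module.Finite K U' := Submodule.finiteDimensional_of_le hlt.le
      obtain ⟨L, hL, hLU⟩ := ih U' hfin' (by omega)
      refine ⟨x :: L, by simpa using hL, ?_⟩
      intro g hg hgL
      refine hLU g ⟨hg, ?_⟩ (fun y hy => hgL y (by simp [hy]))
      exact LinearMap.mem_ker.2 (hgL x (by simp))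

/-- Proper subgroups of finite `p`-groups are annihilated by nonzero homomorphisms to `ZMod p`. -/
theorem exists_hom {p : ℕ} [Fact p.Prime] {H : Type*} [Group H] [Finite H] (hH : IsPGroup p H)
    (T : Subgroup H) (hT : T ≠ ⊤) : ∃ χ ∈ HomF p H, χ ≠ 0 ∧ ∀ t ∈ T, χ t = 0 := by
  have hp : p.Prime := Fact.out
  obtain ⟨N, hN⟩ := (IsPGroup.iff_card (p := p)).1 hH
  obtain ⟨k, hk⟩ := (IsPGroup.iff_card (p := p)).1 (hH.to_subgroup T)
  have hkN : k < N := by
    have h1 : Nat.card T < Nat.card H := by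
      refine lt_of_le_of_ne (Subgroup.card_le_card_group T) ?_
      intro h; exact hT (Subgroup.card_eq_iff_eq_top T |>.1 h)
    rw [hN, hk] at h1
    exact (Nat.pow_lt_pow_iff_right hp.one_lt).1 h1
  obtain ⟨N, rfl⟩ : ∃ N', N = N' + 1 := ⟨N - 1, by omega⟩
  obtain ⟨Kk, hK1, hK2⟩ := Sylow.exists_subgroup_card_pow_prime_le (G := H) p (n := k) (m := N)
    (by rw [hN]; exact pow_dvd_pow p (Nat.le_succ N)) T hk (by omega)
  have hidx : Kk.index = p := by
    have := Kk.card_mul_index
    rw [hK1, hN, pow_succ] at this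
    exact Nat.eq_of_mul_eq_mul_left (pow_pos hp.pos N) this
  have hnorm : Kk.Normal := by
    apply Subgroup.normal_of_index_eq_minFac_card
    rw [hidx, hN, hp.pow_minFac (by omega)]
  have hcard : Nat.card (H ⧸ Kk) = p := hidx
  have hcard2 : Nat.card (Multiplicative (ZMod p)) = p := by
    rw [Nat.card_congr Multiplicative.toAdd, Nat.card_zmod]
  let e : (H ⧸ Kk) ≃* Multiplicative (ZMod p) := mulEquivOfPrimeCardEq hcard hcard2
  refine ⟨fun h => Multiplicative.toAdd (e (QuotientGroup.mk h)), ?_, ?_, ?_⟩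
  · intro h h'
    show Multiplicative.toAdd (e (QuotientGroup.mk (h * h'))) = _
    rw [QuotientGroup.mk_mul, map_mul, toAdd_mul]
  · intro h0
    have hKt : Kk ≠ ⊤ := by
      intro h
      rw [h, Subgroup.index_top] at hidx
      exact hp.one_lt.ne hidx
    obtain ⟨h, hh⟩ : ∃ h, h ∉ Kk := by
      by_contra hcon
      push Not at hcon
      exact hKt (Subgroup.eq_top_iff' Kk |>.2 hcon)
    have h1 : Multiplicative.toAdd (e (QuotientGroup.mk h)) = 0 := congrFun h0 h
    have h2 : e (QuotientGroup.mk h) = 1 := h1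
    rw [← map_one e] at h2
    exact hh ((QuotientGroup.eq_one_iff h).1 (e.injective h2))
  · intro t ht
    have : (QuotientGroup.mk t : H ⧸ Kk) = 1 := (QuotientGroup.eq_one_iff t).2 (hK2 ht)
    show Multiplicative.toAdd (e (QuotientGroup.mk t)) = 0
    rw [this, map_one]; rfl

theorem rank_le_finrank {p : ℕ} [Fact p.Prime] {H : Type*} [Group H] [Finite H]
    (hH : IsPGroup p H) : Group.rank H ≤ Module.finrank (ZMod p) (HomF p H) := by
  classical
  obtain ⟨L, hL, hLU⟩ := exists_points (Module.finrank (ZMod p) (HomF p H)) (HomF p H)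
    inferInstance le_rfl
  have hcl : Subgroup.closure ((L.toFinset : Finset H) : Set H) = ⊤ := by
    by_contra hne
    obtain ⟨χ, hχ, hχ0, hχT⟩ := exists_hom hH _ hne
    exact hχ0 (hLU χ hχ (fun x hx => hχT x (Subgroup.subset_closure (by simpa using hx))))
  exact (Group.rank_le hcl).trans ((List.toFinset_card_le L).trans hL)

/-- The numerical lemma. -/
theorem exists_level (c : ℕ → ℕ) (hc : ∀ ε : ℝ, 0 < ε → ∃ C : ℝ, ∀ n, (c n : ℝ) ≤ C * (1 + ε) ^ n)
    (ε : ℝ) (hε : 0 < ε) : ∃ N : ℕ, ∀ m : ℕ → ℝ, 1 ≤ m 1 → m 0 = 0 →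
      (∀ n, m (n + 1) ≤ m n + c n) → ∃ n, 1 ≤ n ∧ n ≤ N ∧ m (n + 1) - m n - 1 ≤ ε * m n := by
  obtain ⟨C, hC⟩ := hc (ε / 2) (by linarith)
  have hC0 : 0 ≤ C := by
    have := hC 0
    simp only [pow_zero, mul_one] at this
    exact le_trans (Nat.cast_nonneg _) this
  -- choose N
  have hlim : Filter.Tendsto (fun N : ℕ => ((N : ℝ) + 1) * (((1 + ε / 2) / (1 + ε)) ^ N))
      Filter.atTop (nhds 0) := by
    have hr0 : 0 ≤ (1 + ε / 2) / (1 + ε) := by positivity
    have hr1 : (1 + ε / 2) / (1 + ε) < 1 := by rw [div_lt_one (by linarith)]; linarith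
    have h1 := tendsto_self_mul_const_pow_of_lt_one hr0 hr1
    have h2 := tendsto_pow_atTop_nhds_zero_of_lt_one hr0 hr1
    have := h1.add h2
    rw [add_zero] at this
    refine this.congr (fun n => ?_)
    ring
  have hlim2 := hlim.const_mul C
  rw [mul_zero] at hlim2
  obtain ⟨N, hN⟩ := (hlim2.eventually (gt_mem_nhds (show (0 : ℝ) < 1 from one_pos))).exists
  refine ⟨N, ?_⟩
  intro m hm1 hm0 hstep
  by_contra hcon
  push Not at hcon
  have hlow : ∀ n, n ≤ N → (1 + ε) ^ n ≤ m (n + 1) := by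
    intro n
    induction n with
    | zero => intro _; simpa using hm1
    | succ n ih =>
      intro hn
      have h1 := ih (by omega)
      have h2 := hcon (n + 1) (by omega) hn
      have h3 : 0 < (1 + ε) ^ n := by positivity
      rw [pow_succ]
      nlinarith
  have hup : ∀ n, n ≤ N + 1 → m n ≤ n * (C * (1 + ε / 2) ^ N) := by
    intro n
    induction n with
    | zero => intro _; simp [hm0]
    | succ n ih =>
      intro hn
      have h1 := ih (by omega)
      have h2 := hstep n
      have h3 := hC n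
      have h4 : (1 + ε / 2) ^ n ≤ (1 + ε / 2) ^ N :=
        pow_le_pow_right₀ (by linarith) (by omega)
      have h5 : C * (1 + ε / 2) ^ n ≤ C * (1 + ε / 2) ^ N := mul_le_mul_of_nonneg_left h4 hC0
      push_cast
      linarith
  have h1 := hlow N le_rfl
  have h2 := hup (N + 1) le_rfl
  have h3 : (0 : ℝ) < (1 + ε) ^ N := by positivity
  have h4 : C * (((N : ℝ) + 1) * ((1 + ε / 2) / (1 + ε)) ^ N) * (1 + ε) ^ N < (1 + ε) ^ N := by
    have := mul_lt_mul_of_pos_right hN h3
    rwa [one_mul] at this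
  rw [div_pow] at h4
  have h5 : C * (((N : ℝ) + 1) * ((1 + ε / 2) ^ N / (1 + ε) ^ N)) * (1 + ε) ^ N =
      ((N : ℝ) + 1) * (C * (1 + ε / 2) ^ N) := by
    field_simp
  rw [h5] at h4
  push_cast at h2
  linarith

end Pool.Agent.LawGrowth
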