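import Pool.Agent.Lib.MP_f46765_al.H13.Parse

/-! The counting theorem for words over alphabets without long chains. -/

namespace Pool.Agent.LawGrowth

open scoped ENNReal

variable {d : ℕ}

/-- The counting statement for chains of length `m`. -/
def TT (d m : ℕ) : Prop := ∀ κ : ℝ≥0∞ → ℝ≥0∞, (∀ t < 1, κ t < ⊤) →
  ∃ Φ : ℝ≥0∞ → ℝ≥0∞, (∀ t < 1, Φ t < ⊤) ∧ ∀ S : Set (Wd d), Alph S → (∀ t < 1, Z t S ≤ κ t) →
    ∀ t < 1, Z t (Av m S) ≤ Φ t

theorem TT_zero : TT d 0 := by
  intro κ _
  refine ⟨fun _ => 0, fun _ _ => by simp, ?_⟩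
  intro S _ _ t _
  have : Av 0 S = ∅ := by
    ext w
    simp only [Set.mem_empty_iff_false, iff_false]
    rintro ⟨L, _, _, hch⟩
    exact hch [] L rfl ⟨[], rfl, ⟨by simp, by simp⟩, by simp, List.nil_prefix⟩
  rw [this, Z_empty]

theorem TT_one : TT d 1 := by
  intro κ _
  refine ⟨fun _ => 1, fun _ _ => by simp, ?_⟩
  intro S hS _ t _
  have : Av 1 S ⊆ {[]} := by
    rintro w ⟨L, hL, rfl, hch⟩
    rcases L with _ | ⟨x, L⟩
    · rfl
    · exfalso
      refine hch [] (x :: L) rfl (HasCh_one (hS.good x (hL x (by simp))) ⟨x, hL x (by simp), le_rfl⟩ ?_)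
      simp
  refine (Z_mono this).trans ?_
  rw [Z_singleton]; simp

/-- Iterated elimination. -/
inductive Desc (n : ℕ) (S0 : Set (Wd d)) : ℕ → Set (Wd d) → Prop
  | zero : Desc n S0 0 S0
  | succ {j : ℕ} {S : Set (Wd d)} {ze : Wd d} : Desc n S0 j S → ze ∈ S →
      Desc n S0 (j + 1) (nxt n S ze)

theorem Desc.alph {n : ℕ} {S0 : Set (Wd d)} (h0 : Alph S0) {j : ℕ} {S : Set (Wd d)}
    (h : Desc n S0 j S) : Alph S ∧ ∀ x ∈ S, j + 1 ≤ x.length := by
  induction h with
  | zero => exact ⟨h0, fun x hx => List.length_pos_iff.2 (h0.good x hx).ne_nil⟩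
  | @succ j S ze _ hze ih =>
    refine ⟨Alph_nxt ih.1 hze, ?_⟩
    rintro y ⟨e, V, he, hne, hV, _, rfl⟩
    obtain ⟨e, rfl⟩ : ∃ e', e = e' + 1 := ⟨e - 1, by omega⟩
    obtain ⟨v, V, rfl⟩ := List.exists_cons_of_ne_nil hne
    have h1 := ih.2 ze hze
    have h2 := ih.2 v (hV v (by simp)).1
    rw [pw_succ, List.flatten_cons]
    simp only [List.length_append]
    omega

theorem exists_bound (t C K : ℝ≥0∞) (ht : t < 1) (hC : C < ⊤) (hK : K < ⊤) :
    ∃ M < ⊤, ∀ j, K * ∏ i ∈ Finset.range j, (t ^ (i + 1) * C) ≤ M := by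
  have h1 : Filter.Tendsto (fun i : ℕ => t ^ (i + 1) * C) Filter.atTop (nhds (0 * C)) := by
    refine ENNReal.Tendsto.mul_const ?_ (Or.inr hC.ne)
    exact (ENNReal.tendsto_pow_atTop_nhds_zero_of_lt_one ht).comp (Filter.tendsto_add_atTop_nat 1)
  rw [zero_mul] at h1
  obtain ⟨N, hN⟩ := (h1.eventually (ge_mem_nhds (show (0 : ℝ≥0∞) < 1 from one_pos))).exists_forall_of_atTop
  refine ⟨∑ j ∈ Finset.range (N + 1), K * ∏ i ∈ Finset.range j, (t ^ (i + 1) * C), ?_, ?_⟩
  · refine ENNReal.sum_lt_top.2 (fun j _ => ENNReal.mul_lt_top hK ?_)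
    refine ENNReal.prod_lt_top (fun i _ => ENNReal.mul_lt_top ?_ hC)
    exact ENNReal.pow_lt_top (ht.trans ENNReal.one_lt_top)
  · have hle : ∀ j ≤ N, K * ∏ i ∈ Finset.range j, (t ^ (i + 1) * C) ≤
        ∑ j ∈ Finset.range (N + 1), K * ∏ i ∈ Finset.range j, (t ^ (i + 1) * C) := by
      intro j hj
      exact Finset.single_le_sum (f := fun j => K * ∏ i ∈ Finset.range j, (t ^ (i + 1) * C))
        (fun _ _ => zero_le) (Finset.mem_range.2 (by omega))
    intro j
    rcases le_total j N with h | h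
    · exact hle j h
    · refine le_trans ?_ (hle N le_rfl)
      induction j, h using Nat.le_induction with
      | base => exact le_rfl
      | succ j hj ih =>
        rw [Finset.prod_range_succ, ← mul_assoc]
        calc (K * ∏ i ∈ Finset.range j, (t ^ (i + 1) * C)) * (t ^ (j + 1) * C)
            ≤ (K * ∏ i ∈ Finset.range j, (t ^ (i + 1) * C)) * 1 := mul_le_mul' le_rfl (hN j hj)
          _ = K * ∏ i ∈ Finset.range j, (t ^ (i + 1) * C) := mul_one _
          _ ≤ _ := ih

/-- Uniform bounds for the letters of bounded rank on all levels. -/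
theorem rank_bound {n : ℕ} (hT : ∀ i ≤ n, TT d i) (κ : ℝ≥0∞ → ℝ≥0∞) (hκ : ∀ t < 1, κ t < ⊤) :
    ∀ k ≤ n, ∃ M : ℝ≥0∞ → ℝ≥0∞, (∀ t < 1, M t < ⊤) ∧ ∀ S0 : Set (Wd d), Alph S0 →
      (∀ t < 1, Z t S0 ≤ κ t) → ∀ j S, Desc n S0 j S → ∀ z ∈ S, ∀ t < 1, Z t (Bk k S z) ≤ M t := by
  intro k
  induction k with
  | zero =>
    intro _
    refine ⟨fun _ => 0, fun _ _ => by simp, ?_⟩
    intro S0 h0 _ j S hS z hz t _
    rw [Bk_zero (hS.alph h0).1 hz, Z_empty]
  | succ k ih =>
    intro hk
    obtain ⟨M, hM, hMb⟩ := ih (by omega)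
    obtain ⟨Φ, hΦ, hΦb⟩ := hT (k + 1) hk M hM
    have hex : ∀ t : ℝ≥0∞, ∃ M', t < 1 → M' < ⊤ ∧
        ∀ j, κ t * ∏ i ∈ Finset.range j, (t ^ (i + 1) * ((1 - t)⁻¹ * Φ t)) ≤ M' := by
      intro t
      by_cases ht : t < 1
      · have hC : (1 - t)⁻¹ * Φ t < ⊤ := by
          refine ENNReal.mul_lt_top ?_ (hΦ t ht)
          rw [ENNReal.inv_lt_top]; exact tsub_pos_of_lt ht
        obtain ⟨M', h1, h2⟩ := exists_bound t _ (κ t) ht hC (hκ t ht)
        exact ⟨M', fun _ => ⟨h1, h2⟩⟩
      · exact ⟨0, fun h => absurd h ht⟩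
    choose M' hM' using hex
    refine ⟨M', fun t ht => (hM' t ht).1, ?_⟩
    intro S0 h0 hκ0 j S hS z hz t ht
    refine le_trans ?_ ((hM' t ht).2 j)
    induction hS generalizing z with
    | zero =>
      simp only [Finset.range_zero, Finset.prod_empty, mul_one]
      exact (Z_mono (Bk_subset _ _ _)).trans (hκ0 t ht)
    | @succ j S ze hD hze ihD =>
      have hA := (hD.alph h0).1
      have hlen := (hD.alph h0).2 ze hze
      have hc : Z t (Av (k + 1) (Bk k S ze)) ≤ Φ t :=
        hΦb (Bk k S ze) (hA.subset (Bk_subset _ _ _))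
          (fun s hs => hMb S0 h0 hκ0 j S hD ze hze s hs) t ht
      refine (Z_Bk_nxt hA hze hz ht.le (fun zz hzz => ihD zz hzz) hc).trans ?_
      rw [Finset.prod_range_succ]
      calc t ^ ze.length * (1 - t)⁻¹ *
            ((κ t * ∏ i ∈ Finset.range j, (t ^ (i + 1) * ((1 - t)⁻¹ * Φ t))) * Φ t)
          ≤ t ^ (j + 1) * (1 - t)⁻¹ *
            ((κ t * ∏ i ∈ Finset.range j, (t ^ (i + 1) * ((1 - t)⁻¹ * Φ t))) * Φ t) := by
            gcongr ?_ * _ * _
            exact pow_le_pow_right_of_le_one' ht.le hlen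
        _ = _ := by ring

theorem exists_tau {t r : ℝ≥0∞} (htr : t < r) (hr : r < 1) (J : ℕ) :
    ∃ τ < 1, t ≤ r * τ ^ J := by
  have h1 : Filter.Tendsto (fun τ : ℝ≥0∞ => r * τ ^ J) (nhdsWithin 1 (Set.Iio 1)) (nhds (r * 1 ^ J)) := by
    refine Filter.Tendsto.mono_left ?_ nhdsWithin_le_nhds
    refine ENNReal.Tendsto.const_mul ?_ (Or.inr (hr.trans ENNReal.one_lt_top).ne)
    exact (ENNReal.continuous_pow J).tendsto 1
  rw [one_pow, mul_one] at h1
  have h2 := h1.eventually (lt_mem_nhds htr)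
  have : (nhdsWithin (1 : ℝ≥0∞) (Set.Iio 1)).NeBot := nhdsLT_neBot_of_exists_lt ⟨0, one_pos⟩
  obtain ⟨τ, hτ1, hτ2⟩ := (h2.and self_mem_nhdsWithin).exists
  exact ⟨τ, hτ2, hτ1.le⟩

theorem TT_all (d : ℕ) : ∀ m, TT d m := by
  intro m
  induction m using Nat.strong_induction_on with
  | _ m ih =>
    rcases m with _ | _ | n
    · exact TT_zero
    · exact TT_one
    · intro κ hκ
      obtain ⟨M, hM, hMb⟩ := rank_bound (n := n) (fun i hi => ih i (by omega)) κ hκ n le_rfl
      obtain ⟨Ψ, hΨ, hΨb⟩ := ih (n + 1) (by omega) M hM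
      -- the size of the alphabets on level j
      let kl : ℕ → ℝ≥0∞ → ℝ≥0∞ := fun j t =>
        if j = 0 then κ t else t ^ j * ((1 - t)⁻¹ * Ψ t)
      have hkl : ∀ j, ∀ t < 1, kl j t < ⊤ := by
        intro j t ht
        by_cases hj : j = 0
        · simp only [kl, hj, if_true]; exact hκ t ht
        · simp only [kl, hj, if_false]
          refine ENNReal.mul_lt_top (ENNReal.pow_lt_top (ht.trans ENNReal.one_lt_top))
            (ENNReal.mul_lt_top ?_ (hΨ t ht))
          rw [ENNReal.inv_lt_top]; exact tsub_pos_of_lt ht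
      have hlev : ∀ S0 : Set (Wd d), Alph S0 → (∀ t < 1, Z t S0 ≤ κ t) → ∀ j S, Desc n S0 j S →
          ∀ t < 1, Z t S ≤ kl j t := by
        intro S0 h0 hκ0 j S hS t ht
        rcases hS with _ | ⟨hD, hze⟩
        · simp only [kl, if_true]; exact hκ0 t ht
        · rename_i j S ze
          have hA := (hD.alph h0).1
          have hlen := (hD.alph h0).2 ze hze
          have hc := hΨb (Bk n S ze) (hA.subset (Bk_subset _ _ _))
            (fun s hs => hMb S0 h0 hκ0 j S hD ze hze s hs) t ht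
          refine (Z_nxt hA hze ht.le hc).trans ?_
          simp only [kl, Nat.succ_ne_zero, if_false, mul_assoc]
          gcongr ?_ * _
          exact pow_le_pow_right_of_le_one' ht.le hlen
      have hex : ∀ t : ℝ≥0∞, ∃ B, t < 1 → B < ⊤ ∧ ∀ S0 : Set (Wd d), Alph S0 →
          (∀ t < 1, Z t S0 ≤ κ t) → Z t (Av (n + 2) S0) ≤ B := by
        intro t
        by_cases ht : t < 1
        swap
        · exact ⟨0, fun h => absurd h ht⟩
        obtain ⟨r, htr, hr⟩ := exists_between ht
        -- choose J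
        obtain ⟨J, hJ⟩ : ∃ J, kl J r ≤ 2⁻¹ := by
          have hC : (1 - r)⁻¹ * Ψ r < ⊤ := by
            refine ENNReal.mul_lt_top ?_ (hΨ r hr)
            rw [ENNReal.inv_lt_top]; exact tsub_pos_of_lt hr
          have h1 : Filter.Tendsto (fun i : ℕ => r ^ (i + 1) * ((1 - r)⁻¹ * Ψ r)) Filter.atTop
              (nhds (0 * ((1 - r)⁻¹ * Ψ r))) := by
            refine ENNReal.Tendsto.mul_const ?_ (Or.inr hC.ne)
            exact (ENNReal.tendsto_pow_atTop_nhds_zero_of_lt_one hr).comp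
              (Filter.tendsto_add_atTop_nat 1)
          rw [zero_mul] at h1
          obtain ⟨N, hN⟩ := (h1.eventually (ge_mem_nhds
            (show (0 : ℝ≥0∞) < 2⁻¹ by simp))).exists
          exact ⟨N + 1, by simpa only [kl, Nat.succ_ne_zero, if_false] using hN⟩
        obtain ⟨τ, hτ, htτ⟩ := exists_tau htr hr J
        have hrτ : ∀ i, r * τ ^ i < 1 := fun i =>
          lt_of_le_of_lt (mul_le_of_le_one_right' (pow_le_one' hτ.le i)) hr
        -- downward induction
        have hdown : ∀ i ≤ J, ∃ B < ⊤, ∀ S0 : Set (Wd d), Alph S0 →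
            (∀ t < 1, Z t S0 ≤ κ t) → ∀ S, Desc n S0 (J - i) S →
            Z (r * τ ^ i) (Av (n + 2) S) ≤ B := by
          intro i
          induction i with
          | zero =>
            intro _
            refine ⟨(1 - 2⁻¹)⁻¹, ?_, ?_⟩
            · rw [ENNReal.one_sub_inv_two, inv_inv]; exact ENNReal.ofNat_lt_top
            · intro S0 h0 hκ0 S hS
              rw [pow_zero, mul_one]
              refine (Z_star (X := S) ?_).trans ?_
              · rintro w ⟨L, hL, hw, _⟩; exact ⟨L, hL, hw⟩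
              · rw [ENNReal.inv_le_inv]
                exact tsub_le_tsub_left ((hlev S0 h0 hκ0 _ S hS r hr).trans hJ) 1
          | succ i ihi =>
            intro hi
            obtain ⟨B, hB, hBb⟩ := ihi (by omega)
            set j := J - (i + 1) with hj
            have hjj : J - i = j + 1 := by omega
            set E : ℝ≥0∞ := kl j τ * (B * (1 - r)⁻¹) with hE
            have hEtop : E < ⊤ := by
              refine ENNReal.mul_lt_top (hkl j τ hτ) (ENNReal.mul_lt_top hB ?_)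
              rw [ENNReal.inv_lt_top]; exact tsub_pos_of_lt hr
            refine ⟨ENNReal.ofReal (Real.exp E.toReal), ENNReal.ofReal_lt_top, ?_⟩
            intro S0 h0 hκ0 S hS
            have hA := (hS.alph h0).1
            refine Z_Av_le _ (fun F hF => ?_)
            refine (Z_AF _ F hF).trans ?_
            have hG : ∀ x ∈ F, Z (r * τ ^ (i + 1)) (Gz (n + 2) S x) ≤
                τ ^ x.length * (B * (1 - r)⁻¹) := by
              intro x hx
              have e1 : r * τ ^ (i + 1) = τ * (r * τ ^ i) := by ring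
              rw [e1]
              refine (Z_shift hτ.le (length_Gz (ze := x))).trans ?_
              refine mul_le_mul' le_rfl ((Z_Gz hA (hF x hx) (hrτ i).le).trans ?_)
              refine mul_le_mul' (hBb S0 h0 hκ0 _ ?_) ?_
              · rw [hjj]; exact Desc.succ hS (hF x hx)
              · rw [ENNReal.inv_le_inv]
                exact tsub_le_tsub_left (mul_le_of_le_one_right' (pow_le_one' hτ.le i)) 1
            have hsum : ∑ x ∈ F, Z (r * τ ^ (i + 1)) (Gz (n + 2) S x) ≤ E := by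
              refine (Finset.sum_le_sum hG).trans ?_
              rw [← Finset.sum_mul]
              refine mul_le_mul' ?_ le_rfl
              refine le_trans ?_ (hlev S0 h0 hκ0 j S hS τ hτ)
              rw [← Finset.tsum_subtype' F (fun w : Wd d => τ ^ w.length)]
              exact Z_mono (X := (F : Set (Wd d))) (fun x hx => hF x hx)
            refine (prod_one_add_le F _ (lt_of_le_of_lt hsum hEtop).ne).trans ?_
            apply ENNReal.ofReal_le_ofReal
            apply Real.exp_le_exp.2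
            exact ENNReal.toReal_mono hEtop.ne hsum
        obtain ⟨B, hB, hBb⟩ := hdown J le_rfl
        refine ⟨B, fun _ => ⟨hB, ?_⟩⟩
        intro S0 h0 hκ0
        refine (Z_mono_t htτ _).trans (hBb S0 h0 hκ0 S0 ?_)
        rw [Nat.sub_self]; exact Desc.zero
      choose Φ hΦ using hex
      exact ⟨Φ, fun t ht => (hΦ t ht).1, fun S hS hκS t ht => (hΦ t ht).2 S hS hκS⟩

end Pool.Agent.LawGrowth
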