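import Mathlib

/-! The augmentation ideal of a group algebra and its powers. -/

namespace Pool.Agent.LawGrowth

/-- The augmentation ideal of `K[G]`, the `K`-span of the elements `g - 1`. -/
noncomputable def aug (K G : Type*) [Field K] [Group G] : Submodule K (MonoidAlgebra K G) :=
  Submodule.span K (Set.range (fun g : G => MonoidAlgebra.of K G g - 1))

/-- The powers of the augmentation ideal, the zeroth power being the whole algebra. -/
noncomputable def augPow (K G : Type*) [Field K] [Group G] : ℕ → Submodule K (MonoidAlgebra K G)
  | 0 => ⊤
  | n + 1 => aug K G * augPow K G n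

/-- The dimension over `K` of `I^n / I^(n+1)`, as a cardinal number. -/
noncomputable def layerRank (K G : Type*) [Field K] [Group G] (n : ℕ) : Cardinal :=
  Module.rank K (augPow K G n ⧸ (augPow K G (n + 1)).submoduleOf (augPow K G n))

end Pool.Agent.LawGrowth
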