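import Pool.Agent.Lib.MP_f46765_al.H13.Burn

/-! The two theorems on groups satisfying a law. -/

namespace Pool.Agent.LawGrowth

universe u v

/-- The bounding sequence. -/
noncomputable def cc (l d n : ℕ) : ℕ := ∑ M ∈ Finset.range (2 * l + 1), cn d M n

theorem sum_subexp (d : ℕ) (ε : ℝ) (hε : 0 < ε) : ∀ L : ℕ, ∃ C : ℝ, ∀ n,
    ((∑ M ∈ Finset.range L, cn d M n : ℕ) : ℝ) ≤ C * (1 + ε) ^ n := by
  intro L
  induction L with
  | zero => exact ⟨0, fun n => by simp⟩
  | succ L ih =>
    obtain ⟨C1, h1⟩ := ih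
    obtain ⟨C2, h2⟩ := cn_subexp d L ε hε
    refine ⟨C1 + C2, fun n => ?_⟩
    rw [Finset.sum_range_succ, Nat.cast_add, add_mul]
    exact add_le_add (h1 n) (h2 n)

theorem growth {l d k : ℕ} {w : FreeGroup (Fin k)} (hw : w ≠ 1) (hl : w.norm ≤ l)
    {K : Type u} [Field K] {G : Type v} [Group G]
    (hlaw : ∀ φ : Fin k → G, FreeGroup.lift φ w = 1) {s : Fin d → G}
    (hs : Subgroup.closure (Set.range s) = ⊤) (n : ℕ) :
    Module.Finite K (augPow K G n ⧸ (augPow K G (n + 1)).submoduleOf (augPow K G n)) ∧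
      Module.finrank K (augPow K G n ⧸ (augPow K G (n + 1)).submoduleOf (augPow K G n)) ≤
        cc l d n := by
  obtain ⟨M, cls, sgn, hM, hMw, hadj, hl2⟩ := exists_pattern.{0, v} w hw
  have h := dim_le (K := K) hs cls sgn hM hadj (hl2 G hlaw) n
  refine ⟨h.1, h.2.trans ?_⟩
  exact Finset.single_le_sum (f := fun M => cn d M n) (fun _ _ => Nat.zero_le _)
    (Finset.mem_range.2 (by omega))

theorem finrank_layer {K : Type u} [Field K] {G : Type v} [Group G]
    [Module.Finite K (MonoidAlgebra K G)] (n : ℕ) :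
    Module.finrank K (augPow K G n ⧸ (augPow K G (n + 1)).submoduleOf (augPow K G n)) +
      Module.finrank K (augPow K G (n + 1)) = Module.finrank K (augPow K G n) := by
  have h1 := Submodule.finrank_quotient_add_finrank ((augPow K G (n + 1)).submoduleOf (augPow K G n))
  rwa [(Submodule.submoduleOfEquivOfLe (augPow_anti n)).finrank_eq] at h1

theorem rank_gradient (l d : ℕ) (ε : ℝ) (hε : 0 < ε) : ∃ N : ℕ, ∀ (k : ℕ) (w : FreeGroup (Fin k)),
    w ≠ 1 → w.norm ≤ l → ∀ (p : ℕ) [Fact p.Prime] (G : Type v) [Group G] [Finite G], IsPGroup p G →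
      (∀ φ : Fin k → G, FreeGroup.lift φ w = 1) → ∀ s : Fin d → G,
      Subgroup.closure (Set.range s) = ⊤ → ∀ H : Subgroup G,
      (∀ h ∈ H, MonoidAlgebra.of (ZMod p) G h - 1 ∈ augPow (ZMod p) G N) →
      (Group.rank H : ℝ) ≤ 1 + ε * H.index := by
  obtain ⟨N, hN⟩ := exists_level (cc l d) (fun ε hε => sum_subexp d ε hε (2 * l + 1)) ε hε
  refine ⟨N, ?_⟩
  intro k w hw hwl p _ G _ _ hG hlaw s hs H hH
  set F : ℕ → ℕ := fun n => Module.finrank (ZMod p) (augPow (ZMod p) G n) with hF
  have hlayer : ∀ n, F n ≤ F (n + 1) + cc l d n ∧ F (n + 1) ≤ F n := by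
    intro n
    have h1 := finrank_layer (K := ZMod p) (G := G) n
    have h2 := (growth (K := ZMod p) hw hwl hlaw hs n).2
    constructor
    · simp only [hF]; omega
    · simp only [hF]; omega
  have hF0 : F 0 = Nat.card G := by
    simp only [hF]
    show Module.finrank (ZMod p) (⊤ : Submodule (ZMod p) (MonoidAlgebra (ZMod p) G)) = _
    rw [finrank_top, finrank_alg]
  have hF1 : F 1 + 1 ≤ Nat.card G := by
    have := finrank_E0 (p := p) (G := G) 0
    rw [zero_add] at this
    simp only [hF]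
    omega
  have hFle : ∀ n, F n ≤ Nat.card G := by
    intro n
    induction n with
    | zero => exact hF0.le
    | succ n ih => exact (hlayer n).2.trans ih
  set m : ℕ → ℝ := fun n => (Nat.card G : ℝ) - F n with hm
  obtain ⟨n, hn1, hnN, hn⟩ := hN m (by
      simp only [hm]
      have : (F 1 : ℝ) + 1 ≤ Nat.card G := by exact_mod_cast hF1
      linarith) (by simp [hm, hF0]) (by
      intro n
      simp only [hm]
      have : (F n : ℝ) ≤ F (n + 1) + cc l d n := by exact_mod_cast (hlayer n).1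
      linarith)
  have hHn : ∀ h ∈ H, MonoidAlgebra.of (ZMod p) G h - 1 ∈ augPow (ZMod p) G n :=
    fun h hh => (augF (ZMod p) G).mono hnN (hH h hh)
  have hcmp := compare H hG hHn
  have hrk := rank_le_finrank (p := p) (H := H) (hG.to_subgroup H)
  set δ := Module.finrank (ZMod p) (HomF p H) with hδ
  -- convert to real numbers
  have hFn1 : F (n + 1) + 1 ≤ Nat.card G := by
    have : F (n + 1) ≤ F 1 := by
      obtain ⟨j, rfl⟩ : ∃ j, n = j := ⟨n, rfl⟩
      clear hn hHn hcmp hnN
      induction n with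
      | zero => exact le_rfl
      | succ n ih =>
        rcases Nat.eq_zero_or_pos n with h | h
        · subst h; exact (hlayer 1).2
        · exact (hlayer (n + 1)).2.trans (ih h)
    omega
  have hmn : (1 : ℝ) ≤ m n := by
    have : F n ≤ F 1 := by
      clear hn hHn hcmp hnN hFn1
      induction n, hn1 using Nat.le_induction with
      | base => exact le_rfl
      | succ n _ ih => exact (hlayer n).2.trans ih
    have h2 : (F n : ℝ) + 1 ≤ Nat.card G := by exact_mod_cast (by omega : F n + 1 ≤ Nat.card G)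
    simp only [hm]; linarith
  have hcmpR : m n * ((δ : ℝ) + H.index) ≤ H.index * (m (n + 1) - 1) + m n := by
    have e1 : ((Nat.card G - F n : ℕ) : ℝ) = m n := by
      rw [Nat.cast_sub (hFle n)]
    have e2 : ((Nat.card G - F (n + 1) - 1 : ℕ) : ℝ) = m (n + 1) - 1 := by
      rw [Nat.cast_sub (by omega), Nat.cast_sub (hFle _)]; simp [hm]
    have := (Nat.cast_le (α := ℝ)).2 hcmp
    push_cast at this
    rw [← e1, ← e2]
    exact_mod_cast hcmp
  have hq : (0 : ℝ) ≤ H.index := Nat.cast_nonneg _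
  have h1 : m n * (δ : ℝ) ≤ m n * (1 + ε * H.index) := by
    have h2 : H.index * (m (n + 1) - 1 - m n) ≤ H.index * (ε * m n) :=
      mul_le_mul_of_nonneg_left (by linarith) hq
    nlinarith
  have h3 : (δ : ℝ) ≤ 1 + ε * H.index := le_of_mul_le_mul_left h1 (by linarith)
  exact le_trans (by exact_mod_cast hrk) h3

end Pool.Agent.LawGrowth
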