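import Pool.Agent.Lib.MP_f46765_al.H13.Main

/-! Crossed homomorphisms and the comparison of ranks with the augmentation filtration. -/

namespace Pool.Agent.LawGrowth

section
variable {K G : Type*} [Field K] [Group G]

theorem aug_mul_top : aug K G * (⊤ : Submodule K (MonoidAlgebra K G)) ≤ aug K G := by
  rw [Submodule.mul_le]
  intro y hy x _
  induction x using MonoidAlgebra.induction_on with
  | of h =>
    refine Submodule.span_induction ?_ ?_ ?_ ?_ hy
    · rintro _ ⟨g, rfl⟩
      have : (MonoidAlgebra.of K G g - 1) * MonoidAlgebra.of K G h =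
          (MonoidAlgebra.of K G (g * h) - 1) - (MonoidAlgebra.of K G h - 1) := by
        rw [map_mul]; noncomm_ring
      rw [this]
      exact Submodule.sub_mem _ (of_sub_mem _) (of_sub_mem _)
    · simp
    · intro a b _ _ ha hb; rw [add_mul]; exact Submodule.add_mem _ ha hb
    · intro c a _ ha; rw [smul_mul_assoc]; exact Submodule.smul_mem _ _ ha
  | add a b ha hb => rw [mul_add]; exact Submodule.add_mem _ (ha trivial) (hb trivial)
  | smul c a ha => rw [mul_smul_comm]; exact Submodule.smul_mem _ _ (ha trivial)

theorem augPow_one : augPow K G 1 = aug K G :=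
  le_antisymm aug_mul_top aug_le

theorem augPow_succ' (n : ℕ) : augPow K G (n + 1) = augPow K G n * aug K G := by
  induction n with
  | zero =>
    rw [zero_add, augPow_one, augPow]
    refine le_antisymm ?_ top_mul_aug
    intro x hx
    have := Submodule.mul_mem_mul (show (1 : MonoidAlgebra K G) ∈ (⊤ : Submodule K _) from trivial) hx
    rwa [one_mul] at this
  | succ n ih =>
    calc augPow K G (n + 1 + 1) = aug K G * augPow K G (n + 1) := rfl
      _ = aug K G * (augPow K G n * aug K G) := by rw [ih]
      _ = (aug K G * augPow K G n) * aug K G := (mul_assoc _ _ _).symm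
      _ = augPow K G (n + 1) * aug K G := rfl

/-- The augmentation. -/
noncomputable def eps (K G : Type*) [Field K] [Group G] : MonoidAlgebra K G →ₐ[K] K :=
  MonoidAlgebra.lift K K G 1

theorem eps_of (g : G) : eps K G (MonoidAlgebra.of K G g) = 1 := by
  unfold eps; rw [MonoidAlgebra.lift_of]; rfl

theorem augPow_le_ker (n : ℕ) : ∀ x ∈ augPow K G (n + 1), eps K G x = 0 := by
  intro x hx
  have h1 : augPow K G (n + 1) ≤ LinearMap.ker (eps K G).toLinearMap := by
    rw [augPow, Submodule.mul_le]
    intro a ha b _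
    have h2 : aug K G ≤ LinearMap.ker (eps K G).toLinearMap := by
      unfold aug
      rw [Submodule.span_le]
      rintro _ ⟨g, rfl⟩
      simp only [SetLike.mem_coe, LinearMap.mem_ker, AlgHom.toLinearMap_apply, map_sub, eps_of,
        map_one, sub_self]
    have h3 := h2 ha
    rw [LinearMap.mem_ker, AlgHom.toLinearMap_apply] at h3 ⊢
    rw [map_mul, h3, zero_mul]
  exact h1 hx

end

section
variable (p : ℕ) [Fact p.Prime] (G : Type*) [Group G]

/-- Crossed homomorphisms into the dual of the group algebra modulo the `n`-th power. -/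
noncomputable def E0 (n : ℕ) :
    Submodule (ZMod p) (G → MonoidAlgebra (ZMod p) G →ₗ[ZMod p] ZMod p) where
  carrier := {c | (∀ g, ∀ x ∈ augPow (ZMod p) G n, c g x = 0) ∧
    ∀ g g' x, c (g * g') x = c g x + c g' (x * MonoidAlgebra.of (ZMod p) G g)}
  zero_mem' := by simp
  add_mem' := by
    rintro c c' ⟨h1, h2⟩ ⟨h3, h4⟩
    refine ⟨fun g x hx => ?_, fun g g' x => ?_⟩
    · simp [h1 g x hx, h3 g x hx]
    · simp only [Pi.add_apply, LinearMap.add_apply, h2, h4]; ring
  smul_mem' := by
    rintro a c ⟨h1, h2⟩
    refine ⟨fun g x hx => ?_, fun g g' x => ?_⟩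
    · simp [h1 g x hx]
    · simp only [Pi.smul_apply, LinearMap.smul_apply, h2, smul_eq_mul]; ring

variable {p G}
variable [Finite G]

instance : Module.Finite (ZMod p) (MonoidAlgebra (ZMod p) G) :=
  Module.Finite.of_basis (MonoidAlgebra.basis G (ZMod p))

omit [Group G] [Finite G] in
theorem finrank_alg : Module.finrank (ZMod p) (MonoidAlgebra (ZMod p) G) = Nat.card G :=
  Module.finrank_eq_nat_card_basis (MonoidAlgebra.basis G (ZMod p))

/-- The functional attached to a crossed homomorphism. -/
noncomputable def ell (c : G → MonoidAlgebra (ZMod p) G →ₗ[ZMod p] ZMod p) :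
    MonoidAlgebra (ZMod p) G →ₗ[ZMod p] ZMod p :=
  (MonoidAlgebra.basis G (ZMod p)).constr (ZMod p) (fun g => c g 1)

omit [Finite G] in
theorem ell_of (c : G → MonoidAlgebra (ZMod p) G →ₗ[ZMod p] ZMod p) (g : G) :
    ell c (MonoidAlgebra.of (ZMod p) G g) = c g 1 := by
  unfold ell
  have := (MonoidAlgebra.basis G (ZMod p)).constr_basis (ZMod p) (fun g => c g 1) g
  rwa [MonoidAlgebra.basis_apply] at this

omit [Finite G] in
theorem ell_of_basis (g : G) (c : G → MonoidAlgebra (ZMod p) G →ₗ[ZMod p] ZMod p) :
    ell c (MonoidAlgebra.basis G (ZMod p) g) = c g 1 :=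
  (MonoidAlgebra.basis G (ZMod p)).constr_basis (ZMod p) (fun g => c g 1) g

omit [Finite G] in
theorem ell_add (c c' : G → MonoidAlgebra (ZMod p) G →ₗ[ZMod p] ZMod p) :
    ell (c + c') = ell c + ell c' :=
  (MonoidAlgebra.basis G (ZMod p)).ext (fun g => by
    rw [LinearMap.add_apply, ell_of_basis, ell_of_basis, ell_of_basis]; rfl)

omit [Finite G] in
theorem ell_smul (r : ZMod p) (c : G → MonoidAlgebra (ZMod p) G →ₗ[ZMod p] ZMod p) :
    ell (r • c) = r • ell c :=
  (MonoidAlgebra.basis G (ZMod p)).ext (fun g => by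
    rw [LinearMap.smul_apply, ell_of_basis, ell_of_basis]; rfl)

omit [Finite G] in
theorem ell_mul {n : ℕ} {c : G → MonoidAlgebra (ZMod p) G →ₗ[ZMod p] ZMod p} (hc : c ∈ E0 p G n)
    (g : G) (x : MonoidAlgebra (ZMod p) G) :
    ell c (x * (MonoidAlgebra.of (ZMod p) G g - 1)) = c g x := by
  induction x using MonoidAlgebra.induction_on with
  | of h =>
    rw [mul_sub, mul_one, ← map_mul, map_sub, ell_of, ell_of, hc.2 h g 1, one_mul]
    ring
  | add a b ha hb => rw [add_mul, map_add, ha, hb, map_add]
  | smul r a ha => rw [smul_mul_assoc, map_smul, ha, map_smul]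

theorem finrank_E0 (n : ℕ) : Module.finrank (ZMod p) (E0 p G n) +
    (Module.finrank (ZMod p) (augPow (ZMod p) G (n + 1)) + 1) ≤ Nat.card G := by
  set U : Submodule (ZMod p) (MonoidAlgebra (ZMod p) G) :=
    Submodule.span (ZMod p) {1} ⊔ augPow (ZMod p) G (n + 1) with hU
  have hUdim : Module.finrank (ZMod p) U = Module.finrank (ZMod p) (augPow (ZMod p) G (n + 1)) + 1 := by
    have h1 := Submodule.finrank_sup_add_finrank_inf_eq (Submodule.span (ZMod p)
      {(1 : MonoidAlgebra (ZMod p) G)}) (augPow (ZMod p) G (n + 1))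
    have h2 : Submodule.span (ZMod p) {(1 : MonoidAlgebra (ZMod p) G)} ⊓
        augPow (ZMod p) G (n + 1) = ⊥ := by
      rw [eq_bot_iff]
      rintro x ⟨hx1, hx2⟩
      obtain ⟨a, rfl⟩ := Submodule.mem_span_singleton.1 hx1
      have h3 := augPow_le_ker n _ hx2
      rw [map_smul, map_one, smul_eq_mul, mul_one] at h3
      rw [h3, zero_smul]; exact Submodule.zero_mem _
    rw [h2, finrank_bot, add_zero, finrank_span_singleton one_ne_zero] at h1
    rw [hU, h1, add_comm]
  let Psi : E0 p G n →ₗ[ZMod p] U.dualAnnihilator :=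
    { toFun := fun c => ⟨ell c.1, by
        rw [Submodule.mem_dualAnnihilator]
        have hle : U ≤ LinearMap.ker (ell c.1) := by
          refine sup_le ?_ ?_
          · rw [Submodule.span_le]
            rintro x hx
            rw [Set.mem_singleton_iff] at hx
            subst hx
            rw [SetLike.mem_coe, LinearMap.mem_ker, ← map_one (MonoidAlgebra.of (ZMod p) G), ell_of]
            have h4 := c.2.2 1 1 1
            rw [mul_one] at h4
            have h5 : (1 : MonoidAlgebra (ZMod p) G) * MonoidAlgebra.of (ZMod p) G 1 = 1 := by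
              rw [map_one, mul_one]
            rw [h5] at h4
            exact left_eq_add.1 h4
          · rw [augPow_succ', Submodule.mul_le]
            intro a ha b hb
            rw [LinearMap.mem_ker]
            refine Submodule.span_induction ?_ ?_ ?_ ?_ hb
            · rintro _ ⟨g, rfl⟩
              rw [ell_mul c.2]; exact c.2.1 g a ha
            · simp
            · intro x y _ _ hx hy; rw [mul_add, map_add, hx, hy, add_zero]
            · intro r x _ hx; rw [mul_smul_comm, map_smul, hx, smul_zero]
        intro w hw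
        exact LinearMap.mem_ker.1 (hle hw)⟩
      map_add' := fun c c' => Subtype.ext (ell_add c.1 c'.1)
      map_smul' := fun r c => Subtype.ext (ell_smul r c.1) }
  have hinj : Function.Injective Psi := by
    rw [← LinearMap.ker_eq_bot, LinearMap.ker_eq_bot']
    intro c hc
    have h1 : ell c.1 = 0 := congrArg Subtype.val hc
    apply Subtype.ext
    funext g
    refine LinearMap.ext (fun x => ?_)
    rw [← ell_mul c.2 g x, h1]; rfl
  have h2 := LinearMap.finrank_le_finrank_of_injective hinj
  have h3 := Subspace.finrank_add_finrank_dualAnnihilator_eq U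
  rw [finrank_alg] at h3
  omega

end

end Pool.Agent.LawGrowth
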