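import Pool.Agent.Lib.MP_f46765_al.H13.Grad

/-! The comparison inequality between ranks of subgroups and the augmentation filtration. -/

namespace Pool.Agent.LawGrowth

section
variable {p : ℕ} [Fact p.Prime] {G : Type*} [Group G] (H : Subgroup G)

/-- Functions on the coset space. -/
abbrev Pf (p : ℕ) {G : Type*} [Group G] (H : Subgroup G) : Type _ := (G ⧸ H) → ZMod p

/-- The permutation action on functions on the coset space. -/
def pact (g : G) : Pf p H →ₗ[ZMod p] Pf p H :=
  LinearMap.funLeft (ZMod p) (ZMod p) (fun y : G ⧸ H => g⁻¹ • y)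

theorem pact_apply (g : G) (f : Pf p H) (y : G ⧸ H) : pact H g f y = f (g⁻¹ • y) := rfl

theorem pact_mul (g g' : G) (f : Pf p H) : pact H (g * g') f = pact H g (pact H g' f) := by
  funext y; rw [pact_apply, pact_apply, pact_apply, mul_inv_rev, mul_smul]

theorem pact_one (f : Pf p H) : pact H (1 : G) f = f := by
  funext y; rw [pact_apply, inv_one, one_smul]

/-- Crossed homomorphisms with values in homomorphisms from the algebra to `W`. -/
noncomputable def EE (n : ℕ) (W : Submodule (ZMod p) (Pf p H)) :
    Submodule (ZMod p) (G → MonoidAlgebra (ZMod p) G →ₗ[ZMod p] Pf p H) where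
  carrier := {c | (∀ g, ∀ x ∈ augPow (ZMod p) G n, c g x = 0) ∧ (∀ g x, c g x ∈ W) ∧
    ∀ g g' x, c (g * g') x = c g x + pact H g (c g' (x * MonoidAlgebra.of (ZMod p) G g))}
  zero_mem' := by simp
  add_mem' := by
    rintro c c' ⟨h1, h2, h3⟩ ⟨h4, h5, h6⟩
    refine ⟨fun g x hx => ?_, fun g x => ?_, fun g g' x => ?_⟩
    · simp [h1 g x hx, h4 g x hx]
    · exact Submodule.add_mem _ (h2 g x) (h5 g x)
    · simp only [Pi.add_apply, LinearMap.add_apply, h3, h6, map_add]; abel
  smul_mem' := by
    rintro a c ⟨h1, h2, h3⟩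
    refine ⟨fun g x hx => ?_, fun g x => ?_, fun g g' x => ?_⟩
    · simp [h1 g x hx]
    · exact Submodule.smul_mem _ _ (h2 g x)
    · simp only [Pi.smul_apply, LinearMap.smul_apply, h3, map_smul, smul_add]

variable [Finite G]

instance : Finite (G ⧸ H) := Quotient.finite _

/-- A `p`-group fixes a nonzero functional on every nonzero invariant subspace. -/
theorem exists_inv_functional (hG : IsPGroup p G) (W : Submodule (ZMod p) (Pf p H))
    (hW : ∀ g, ∀ w ∈ W, pact H g w ∈ W) (hne : W ≠ ⊥) :
    ∃ lam : Pf p H →ₗ[ZMod p] ZMod p, (∃ w ∈ W, lam w ≠ 0) ∧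
      ∀ g, ∀ w ∈ W, lam (pact H g w) = lam w := by
  let pW : G → W →ₗ[ZMod p] W := fun g => (pact H g).restrict (hW g)
  have hpW : ∀ g (w : W), ((pW g w : W) : Pf p H) = pact H g w.1 := fun g w => rfl
  let act : MulAction G (Module.Dual (ZMod p) W) :=
    { smul := fun g lam => lam.comp (pW g⁻¹)
      one_smul := by
        intro lam
        refine LinearMap.ext (fun w => ?_)
        show lam (pW (1 : G)⁻¹ w) = lam w
        congr 1
        apply Subtype.ext
        rw [hpW, inv_one, pact_one]
      mul_smul := by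
        intro g g' lam
        refine LinearMap.ext (fun w => ?_)
        show lam (pW (g * g')⁻¹ w) = lam (pW g'⁻¹ (pW g⁻¹ w))
        congr 1
        apply Subtype.ext
        rw [hpW, hpW, hpW, mul_inv_rev, pact_mul] }
  have hpos : 0 < Module.finrank (ZMod p) W := by
    rw [Nat.pos_iff_ne_zero]
    intro h
    exact hne (Submodule.finrank_eq_zero.1 h)
  have hcard : p ∣ Nat.card (Module.Dual (ZMod p) W) := by
    rw [Module.natCard_eq_pow_finrank (K := ZMod p), Subspace.dual_finrank_eq, Nat.card_zmod]
    exact dvd_pow_self p hpos.ne'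
  have : Finite (Module.Dual (ZMod p) W) := Module.finite_of_finite (ZMod p)
  obtain ⟨lam, hlam, hne0⟩ := hG.exists_fixed_point_of_prime_dvd_card_of_fixed_point
    (Module.Dual (ZMod p) W) hcard (a := 0) (by
      intro g
      refine LinearMap.ext (fun w => ?_)
      rfl)
  obtain ⟨lam', hlam'⟩ := LinearMap.exists_extend lam
  have hext : ∀ w : W, lam' w.1 = lam w := fun w => by rw [← hlam']; rfl
  refine ⟨lam', ?_, ?_⟩
  · by_contra hcon
    push Not at hcon
    apply hne0
    refine LinearMap.ext (fun w => ?_)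
    rw [← hext w, hcon w.1 w.2]; rfl
  · intro g w hw
    have h1 := hlam g⁻¹
    have h2 : lam (pW (g⁻¹)⁻¹ ⟨w, hw⟩) = lam ⟨w, hw⟩ := congrArg (fun f => f ⟨w, hw⟩) h1
    rw [inv_inv, ← hext, ← hext, hpW] at h2
    exact h2

/-- Post-composition with a functional. -/
noncomputable def postc (lam : Pf p H →ₗ[ZMod p] ZMod p) :
    (G → MonoidAlgebra (ZMod p) G →ₗ[ZMod p] Pf p H) →ₗ[ZMod p]
      (G → MonoidAlgebra (ZMod p) G →ₗ[ZMod p] ZMod p) where
  toFun := fun c g => lam.comp (c g)
  map_add' := by intro c c'; funext g; exact LinearMap.comp_add _ _ _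
  map_smul' := by intro a c; funext g; exact LinearMap.comp_smul _ _ _

theorem finrank_EE (hG : IsPGroup p G) (n : ℕ) : ∀ (k : ℕ) (W : Submodule (ZMod p) (Pf p H)),
    (∀ g, ∀ w ∈ W, pact H g w ∈ W) → Module.finrank (ZMod p) W ≤ k →
    Module.finrank (ZMod p) (EE H n W) ≤ k * Module.finrank (ZMod p) (E0 p G n) := by
  intro k
  induction k with
  | zero =>
    intro W _ hk
    have hbot : W = ⊥ := Submodule.finrank_eq_zero.1 (Nat.le_zero.1 hk)
    have : EE H n W = ⊥ := by
      rw [eq_bot_iff]
      rintro c ⟨_, h2, _⟩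
      rw [Submodule.mem_bot]
      funext g
      refine LinearMap.ext (fun x => ?_)
      have := h2 g x
      rw [hbot, Submodule.mem_bot] at this
      exact this
    rw [this, finrank_bot]; simp
  | succ k ih =>
    intro W hW hk
    by_cases hne : W = ⊥
    · exact (ih W hW (by rw [hne, finrank_bot]; omega)).trans (by
        apply Nat.mul_le_mul_right; omega)
    obtain ⟨lam, ⟨w0, hw0, hw0'⟩, hinv⟩ := exists_inv_functional H hG W hW hne
    set W' : Submodule (ZMod p) (Pf p H) := W ⊓ LinearMap.ker lam with hW'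
    have hW's : ∀ g, ∀ w ∈ W', pact H g w ∈ W' := by
      rintro g w ⟨hw1, hw2⟩
      refine ⟨hW g w hw1, ?_⟩
      show lam (pact H g w) = 0
      rw [hinv g w hw1]
      exact LinearMap.mem_ker.1 hw2
    have hlt : W' < W := by
      refine lt_of_le_of_ne inf_le_left ?_
      intro h
      rw [← h] at hw0
      exact hw0' (LinearMap.mem_ker.1 hw0.2)
    have hfin' : Module.finrank (ZMod p) W' ≤ k := by
      have := Submodule.finrank_lt_finrank_of_lt hlt
      omega
    have h1 := ih W' hW's hfin'
    let f := (postc H lam).domRestrict (EE H n W)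
    have h2 := LinearMap.finrank_range_add_finrank_ker (K := ZMod p) (V := EE H n W)
      (V₂ := G → MonoidAlgebra (ZMod p) G →ₗ[ZMod p] ZMod p) f
    have h3 : Module.finrank (ZMod p) (LinearMap.range f) ≤ Module.finrank (ZMod p) (E0 p G n) := by
      apply Submodule.finrank_mono
      rintro _ ⟨c, rfl⟩
      refine ⟨fun g x hx => ?_, fun g g' x => ?_⟩
      · show lam (c.1 g x) = 0
        rw [c.2.1 g x hx, map_zero]
      · show lam (c.1 (g * g') x) = lam (c.1 g x) + lam (c.1 g' (x * MonoidAlgebra.of (ZMod p) G g))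
        rw [c.2.2.2 g g' x, map_add, hinv g _ (c.2.2.1 g' _)]
    have h4 : Module.finrank (ZMod p) (LinearMap.ker f) ≤ Module.finrank (ZMod p) (EE H n W') := by
      let j : LinearMap.ker f →ₗ[ZMod p] EE H n W' :=
        { toFun := fun c => ⟨c.1.1, c.1.2.1, fun g x => ⟨c.1.2.2.1 g x, by
            have h5 : f c.1 = 0 := LinearMap.mem_ker.1 c.2
            have h6 : (postc H lam c.1.1) g x = 0 := by
              have : postc H lam c.1.1 = 0 := h5
              rw [this]; rfl
            exact LinearMap.mem_ker.2 h6⟩, c.1.2.2.2⟩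
          map_add' := fun _ _ => rfl
          map_smul' := fun _ _ => rfl }
      refine LinearMap.finrank_le_finrank_of_injective (f := j) ?_
      intro c c' hcc
      apply Subtype.ext
      apply Subtype.ext
      exact congrArg (fun z => z.1) hcc
    calc Module.finrank (ZMod p) (EE H n W)
        = Module.finrank (ZMod p) (LinearMap.range f) +
            Module.finrank (ZMod p) (LinearMap.ker f) := h2.symm
      _ ≤ Module.finrank (ZMod p) (E0 p G n) + k * Module.finrank (ZMod p) (E0 p G n) :=
          Nat.add_le_add h3 (h4.trans h1)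
      _ = _ := by ring

/-- Crossed homomorphisms with values in the functions on the coset space. -/
def Z1 (p : ℕ) [Fact p.Prime] {G : Type*} [Group G] (H : Subgroup G) :
    Submodule (ZMod p) (G → Pf p H) where
  carrier := {z | ∀ g g', z (g * g') = z g + pact H g (z g')}
  zero_mem' := by intro g g'; simp
  add_mem' := by
    intro z z' h h' g g'
    simp only [Pi.add_apply, h g g', h' g g', map_add]; abel
  smul_mem' := by
    intro a z h g g'
    simp only [Pi.smul_apply, h g g', map_smul, smul_add]

omit [Finite G] in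
theorem dual_coset {n : ℕ} (hH : ∀ h ∈ H, MonoidAlgebra.of (ZMod p) G h - 1 ∈ augPow (ZMod p) G n)
    {v : Module.Dual (ZMod p) (MonoidAlgebra (ZMod p) G)}
    (hv : v ∈ (augPow (ZMod p) G n).dualAnnihilator) {a a' : G}
    (haa : (QuotientGroup.mk a : G ⧸ H) = QuotientGroup.mk a') (x : MonoidAlgebra (ZMod p) G) :
    v (x * MonoidAlgebra.of (ZMod p) G a) = v (x * MonoidAlgebra.of (ZMod p) G a') := by
  have h1 : a⁻¹ * a' ∈ H := QuotientGroup.eq.1 haa
  have h2 : a' = a * (a⁻¹ * a') := by group
  rw [eq_comm, ← sub_eq_zero, ← map_sub, h2, map_mul]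
  have h3 : x * (MonoidAlgebra.of (ZMod p) G a * MonoidAlgebra.of (ZMod p) G (a⁻¹ * a')) -
      x * MonoidAlgebra.of (ZMod p) G a = (x * MonoidAlgebra.of (ZMod p) G a) *
        (MonoidAlgebra.of (ZMod p) G (a⁻¹ * a') - 1) := by noncomm_ring
  rw [h3]
  rw [Submodule.mem_dualAnnihilator] at hv
  apply hv
  exact top_mul_augPow n (Submodule.mul_mem_mul trivial (hH _ h1))

theorem finrank_EE_top {n : ℕ}
    (hH : ∀ h ∈ H, MonoidAlgebra.of (ZMod p) G h - 1 ∈ augPow (ZMod p) G n) :
    Module.finrank (ZMod p) (augPow (ZMod p) G n).dualAnnihilator *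
      Module.finrank (ZMod p) (Z1 p H) ≤
      Module.finrank (ZMod p) (EE H n (⊤ : Submodule (ZMod p) (Pf p H))) := by
  set D := (augPow (ZMod p) G n).dualAnnihilator with hD
  set b := Module.finBasis (ZMod p) D with hb
  let m := Module.finrank (ZMod p) D
  have hform : ∀ (z : Fin (Module.finrank (ZMod p) D) → Z1 p H), ∃ c : EE H n (⊤ : Submodule (ZMod p) (Pf p H)),
      ∀ g x y, c.1 g x y = ∑ i, (z i).1 g y * (b i).1 (x * MonoidAlgebra.of (ZMod p) G (Quotient.out y)) := by
    intro z
    refine ⟨⟨fun g =>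
      { toFun := fun x y => ∑ i, (z i).1 g y *
          (b i).1 (x * MonoidAlgebra.of (ZMod p) G (Quotient.out y))
        map_add' := by
          intro x x'; funext y
          simp only [add_mul, map_add, mul_add, Finset.sum_add_distrib, Pi.add_apply]
        map_smul' := by
          intro a x; funext y
          simp only [smul_mul_assoc, map_smul, smul_eq_mul, Pi.smul_apply, RingHom.id_apply,
            Finset.mul_sum]
          refine Finset.sum_congr rfl (fun i _ => ?_)
          ring }, ?_, ?_, ?_⟩, ?_⟩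
    · intro g x hx
      funext y
      show ∑ i, (z i).1 g y * (b i).1 (x * MonoidAlgebra.of (ZMod p) G (Quotient.out y)) = 0
      refine Finset.sum_eq_zero (fun i _ => ?_)
      have h1 := (Submodule.mem_dualAnnihilator _).1 (b i).2
        (x * MonoidAlgebra.of (ZMod p) G (Quotient.out y)) (by
          have := augPow_mul n 0 (Submodule.mul_mem_mul hx (show
            MonoidAlgebra.of (ZMod p) G (Quotient.out y) ∈ augPow (ZMod p) G 0 from trivial))
          exact this)
      rw [h1, mul_zero]
    · intro g x; trivial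
    · intro g g' x
      funext y
      show ∑ i, (z i).1 (g * g') y * (b i).1 (x * MonoidAlgebra.of (ZMod p) G (Quotient.out y)) =
        ∑ i, (z i).1 g y * (b i).1 (x * MonoidAlgebra.of (ZMod p) G (Quotient.out y)) +
        ∑ i, (z i).1 g' (g⁻¹ • y) * (b i).1 (x * MonoidAlgebra.of (ZMod p) G g *
          MonoidAlgebra.of (ZMod p) G (Quotient.out (g⁻¹ • y)))
      rw [← Finset.sum_add_distrib]
      refine Finset.sum_congr rfl (fun i _ => ?_)
      have h1 : (z i).1 (g * g') y = (z i).1 g y + (z i).1 g' (g⁻¹ • y) := by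
        rw [(z i).2 g g']; rfl
      have h2 : (b i).1 (x * MonoidAlgebra.of (ZMod p) G g *
          MonoidAlgebra.of (ZMod p) G (Quotient.out (g⁻¹ • y))) =
          (b i).1 (x * MonoidAlgebra.of (ZMod p) G (Quotient.out y)) := by
        rw [mul_assoc, ← map_mul]
        refine dual_coset H hH (b i).2 ?_ x
        have e1 : (QuotientGroup.mk (Quotient.out y) : G ⧸ H) = y := QuotientGroup.out_eq' y
        have e2 : (QuotientGroup.mk (Quotient.out (g⁻¹ • y)) : G ⧸ H) = g⁻¹ • y :=
          QuotientGroup.out_eq' _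
        have e3 : (QuotientGroup.mk (g * Quotient.out (g⁻¹ • y)) : G ⧸ H) =
            g • (QuotientGroup.mk (Quotient.out (g⁻¹ • y)) : G ⧸ H) := rfl
        rw [e3, e2, e1, smul_inv_smul]
      rw [h1, h2]; ring
    · intro g x y; rfl
  choose T hT using hform
  let TL : (Fin (Module.finrank (ZMod p) D) → Z1 p H) →ₗ[ZMod p]
      EE H n (⊤ : Submodule (ZMod p) (Pf p H)) :=
    { toFun := T
      map_add' := by
        intro z z'
        apply Subtype.ext
        funext g
        refine LinearMap.ext (fun x => ?_)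
        funext y
        show (T (z + z')).1 g x y = (T z).1 g x y + (T z').1 g x y
        rw [hT, hT, hT, ← Finset.sum_add_distrib]
        refine Finset.sum_congr rfl (fun i _ => ?_)
        show ((z i).1 g y + (z' i).1 g y) * _ = _
        ring
      map_smul' := by
        intro a z
        apply Subtype.ext
        funext g
        refine LinearMap.ext (fun x => ?_)
        funext y
        show (T (a • z)).1 g x y = a * (T z).1 g x y
        rw [hT, hT, Finset.mul_sum]
        refine Finset.sum_congr rfl (fun i _ => ?_)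
        show (a * (z i).1 g y) * _ = _
        ring }
  have hinj : Function.Injective TL := by
    rw [← LinearMap.ker_eq_bot, LinearMap.ker_eq_bot']
    intro z hz
    funext i
    apply Subtype.ext
    funext g y
    have h1 : ∀ x, ∑ i, (z i).1 g y * (b i).1 x = 0 := by
      intro x
      have h2 := hT z g (x * MonoidAlgebra.of (ZMod p) G (Quotient.out y)⁻¹) y
      have h3 : (T z).1 g (x * MonoidAlgebra.of (ZMod p) G (Quotient.out y)⁻¹) y = 0 := by
        have : T z = 0 := hz
        rw [this]; rfl
      rw [h3] at h2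
      rw [h2]
      refine Finset.sum_congr rfl (fun i _ => ?_)
      rw [mul_assoc, ← map_mul, inv_mul_cancel, map_one, mul_one]
    have h2 : ∑ i, (z i).1 g y • b i = 0 := by
      apply Subtype.ext
      refine LinearMap.ext (fun x => ?_)
      have h3 := h1 x
      simp only [Submodule.coe_sum, Submodule.coe_smul, LinearMap.sum_apply, LinearMap.smul_apply,
        smul_eq_mul, ZeroMemClass.coe_zero, LinearMap.zero_apply]
      exact h3
    have h3 := Fintype.linearIndependent_iff.1 b.linearIndependent (fun i => (z i).1 g y) h2 i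
    exact h3
  have h := LinearMap.finrank_le_finrank_of_injective hinj
  rw [Module.finrank_pi_fintype] at h
  simpa using h

/-- Homomorphisms from `H` to the additive group of `ZMod p`. -/
def HomF (p : ℕ) [Fact p.Prime] (H : Type*) [Group H] : Submodule (ZMod p) (H → ZMod p) where
  carrier := {χ | ∀ h h', χ (h * h') = χ h + χ h'}
  zero_mem' := by intro h h'; simp
  add_mem' := by intro χ χ' h1 h2 h h'; simp only [Pi.add_apply, h1 h h', h2 h h']; ring
  smul_mem' := by
    intro a χ h1 h h'; simp only [Pi.smul_apply, h1 h h', smul_eq_mul]; ring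

omit [Finite G] in
/-- The Schreier cocycle element. -/
theorem schreier_mem (g : G) (y : G ⧸ H) :
    (Quotient.out y)⁻¹ * g * Quotient.out (g⁻¹ • y) ∈ H := by
  have e1 : (QuotientGroup.mk (Quotient.out y) : G ⧸ H) = y := QuotientGroup.out_eq' y
  have e2 : (QuotientGroup.mk (Quotient.out (g⁻¹ • y)) : G ⧸ H) = g⁻¹ • y := QuotientGroup.out_eq' _
  have e3 : (QuotientGroup.mk (g * Quotient.out (g⁻¹ • y)) : G ⧸ H) =
      g • (QuotientGroup.mk (Quotient.out (g⁻¹ • y)) : G ⧸ H) := rfl
  rw [e2, smul_inv_smul] at e3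
  have h := QuotientGroup.eq.1 (e1.trans e3.symm)
  rwa [← mul_assoc] at h

theorem finrank_Z1 : Module.finrank (ZMod p) (HomF p H) + H.index ≤
    Module.finrank (ZMod p) (Z1 p H) + 1 := by
  classical
  let y0 : G ⧸ H := QuotientGroup.mk 1
  let ev : Pf p H →ₗ[ZMod p] ZMod p := LinearMap.proj y0
  let P0 : Submodule (ZMod p) (Pf p H) := LinearMap.ker ev
  have hP0 : H.index ≤ Module.finrank (ZMod p) P0 + 1 := by
    show H.index ≤ Module.finrank (ZMod p) (LinearMap.ker ev) + 1
    have h1 := LinearMap.finrank_range_add_finrank_ker ev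
    have h2 : Module.finrank (ZMod p) (LinearMap.range ev) ≤ 1 := by
      have := Submodule.finrank_le (LinearMap.range ev)
      rwa [Module.finrank_self] at this
    have h3 : Module.finrank (ZMod p) (Pf p H) = H.index := by
      have := Fintype.ofFinite (G ⧸ H)
      rw [Module.finrank_fintype_fun_eq_card, ← Nat.card_eq_fintype_card]; rfl
    rw [h3] at h1
    omega
  let sch : G → (G ⧸ H) → H := fun g y => ⟨_, schreier_mem H g y⟩
  have hsch : ∀ g g' y, sch (g * g') y = sch g y * sch g' (g⁻¹ • y) := by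
    intro g g' y
    apply Subtype.ext
    show (Quotient.out y)⁻¹ * (g * g') * Quotient.out ((g * g')⁻¹ • y) =
      (Quotient.out y)⁻¹ * g * Quotient.out (g⁻¹ • y) *
        ((Quotient.out (g⁻¹ • y))⁻¹ * g' * Quotient.out (g'⁻¹ • (g⁻¹ • y)))
    rw [mul_inv_rev, mul_smul]; group
  let Xi : (HomF p H × P0) →ₗ[ZMod p] Z1 p H :=
    { toFun := fun q => ⟨fun g y => q.1.1 (sch g y) + (q.2.1 (g⁻¹ • y) - q.2.1 y), by
        intro g g'
        funext y
        show q.1.1 (sch (g * g') y) + (q.2.1 ((g * g')⁻¹ • y) - q.2.1 y) =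
          (q.1.1 (sch g y) + (q.2.1 (g⁻¹ • y) - q.2.1 y)) +
          (q.1.1 (sch g' (g⁻¹ • y)) + (q.2.1 (g'⁻¹ • (g⁻¹ • y)) - q.2.1 (g⁻¹ • y)))
        rw [hsch, q.1.2, mul_inv_rev, mul_smul]; ring⟩
      map_add' := by
        intro q q'
        apply Subtype.ext
        funext g y
        show (q.1.1 (sch g y) + q'.1.1 (sch g y)) +
          ((q.2.1 (g⁻¹ • y) + q'.2.1 (g⁻¹ • y)) - (q.2.1 y + q'.2.1 y)) =
          (q.1.1 (sch g y) + (q.2.1 (g⁻¹ • y) - q.2.1 y)) +
          (q'.1.1 (sch g y) + (q'.2.1 (g⁻¹ • y) - q'.2.1 y))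
        ring
      map_smul' := by
        intro a q
        apply Subtype.ext
        funext g y
        show a * q.1.1 (sch g y) + (a * q.2.1 (g⁻¹ • y) - a * q.2.1 y) =
          a * (q.1.1 (sch g y) + (q.2.1 (g⁻¹ • y) - q.2.1 y))
        ring }
  have hinj : Function.Injective Xi := by
    rw [← LinearMap.ker_eq_bot, LinearMap.ker_eq_bot']
    rintro ⟨χ, f⟩ hq
    have h0 : ∀ g y, χ.1 (sch g y) + (f.1 (g⁻¹ • y) - f.1 y) = 0 := by
      intro g y
      have : (Xi (χ, f)).1 g y = 0 := by rw [hq]; rfl
      exact this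
    have hχ1 : χ.1 1 = 0 := by
      have := χ.2 1 1
      rw [mul_one] at this
      exact left_eq_add.1 this
    have hχinv : ∀ h, χ.1 h⁻¹ = -χ.1 h := by
      intro h
      have := χ.2 h⁻¹ h
      rw [inv_mul_cancel, hχ1] at this
      linear_combination -this
    have hχ : χ = 0 := by
      apply Subtype.ext
      funext h
      have h1 := h0 h.1 y0
      have e1 : h.1⁻¹ • y0 = y0 := by
        show (QuotientGroup.mk (h.1⁻¹ * 1) : G ⧸ H) = QuotientGroup.mk 1
        rw [QuotientGroup.eq]
        simp [h.2]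
      rw [e1, sub_self, add_zero] at h1
      set h00 : H := ⟨Quotient.out y0, by
        have : (QuotientGroup.mk (Quotient.out y0) : G ⧸ H) = QuotientGroup.mk 1 :=
          QuotientGroup.out_eq' y0
        rw [QuotientGroup.eq] at this
        simpa using this⟩ with hh00
      have e2 : sch h.1 y0 = h00⁻¹ * h * h00 := by
        apply Subtype.ext
        show (Quotient.out y0)⁻¹ * h.1 * Quotient.out (h.1⁻¹ • y0) =
          (Quotient.out y0)⁻¹ * h.1 * Quotient.out y0
        rw [e1]
      rw [e2, χ.2, χ.2, hχinv] at h1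
      show χ.1 h = 0
      linear_combination h1
    subst hχ
    have hf : f = 0 := by
      apply Subtype.ext
      funext y
      obtain ⟨g, rfl⟩ := QuotientGroup.mk_surjective y
      have h1 := h0 g (QuotientGroup.mk g)
      have e1 : g⁻¹ • (QuotientGroup.mk g : G ⧸ H) = y0 := by
        show (QuotientGroup.mk (g⁻¹ * g) : G ⧸ H) = QuotientGroup.mk 1
        rw [inv_mul_cancel]
      rw [e1] at h1
      have h2 : f.1 y0 = 0 := LinearMap.mem_ker.1 f.2
      have h3 : (0 : HomF p H).1 (sch g (QuotientGroup.mk g)) = 0 := rfl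
      rw [h2, h3] at h1
      show f.1 (QuotientGroup.mk g) = 0
      linear_combination -h1
    rw [hf]; rfl
  have h := LinearMap.finrank_le_finrank_of_injective hinj
  rw [Module.finrank_prod] at h
  omega

/-- The comparison inequality. -/
theorem compare (hG : IsPGroup p G) {n : ℕ}
    (hH : ∀ h ∈ H, MonoidAlgebra.of (ZMod p) G h - 1 ∈ augPow (ZMod p) G n) :
    (Nat.card G - Module.finrank (ZMod p) (augPow (ZMod p) G n)) *
      (Module.finrank (ZMod p) (HomF p H) + H.index) ≤
    H.index * (Nat.card G - Module.finrank (ZMod p) (augPow (ZMod p) G (n + 1)) - 1) +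
      (Nat.card G - Module.finrank (ZMod p) (augPow (ZMod p) G n)) := by
  have h1 := finrank_EE_top H hH
  have h2 := finrank_EE H hG n H.index ⊤ (fun _ _ _ => trivial) (by
    rw [finrank_top]
    have := Fintype.ofFinite (G ⧸ H)
    rw [Module.finrank_fintype_fun_eq_card, ← Nat.card_eq_fintype_card]; rfl)
  have h3 := finrank_E0 (p := p) (G := G) n
  have h4 := finrank_Z1 (p := p) H
  have h5 := Subspace.finrank_add_finrank_dualAnnihilator_eq (augPow (ZMod p) G n)
  rw [finrank_alg] at h5
  have h6 : Module.finrank (ZMod p) (augPow (ZMod p) G n).dualAnnihilator =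
      Nat.card G - Module.finrank (ZMod p) (augPow (ZMod p) G n) := by omega
  rw [h6] at h1
  set m := Nat.card G - Module.finrank (ZMod p) (augPow (ZMod p) G n)
  have h7 : Module.finrank (ZMod p) (E0 p G n) ≤
      Nat.card G - Module.finrank (ZMod p) (augPow (ZMod p) G (n + 1)) - 1 := by omega
  calc m * (Module.finrank (ZMod p) (HomF p H) + H.index)
      ≤ m * (Module.finrank (ZMod p) (Z1 p H) + 1) := Nat.mul_le_mul_left _ h4
    _ = m * Module.finrank (ZMod p) (Z1 p H) + m := by ring
    _ ≤ _ := Nat.add_le_add_right (h1.trans (h2.trans (Nat.mul_le_mul_left _ h7))) _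

end

end Pool.Agent.LawGrowth
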