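import Mathlib

/-! The multilinear relation coming from a law. -/

namespace Pool.Agent.LawGrowth

/-- A decreasing multiplicative filtration. -/
structure Filt (K A : Type*) [Field K] [Ring A] [Algebra K A] where
  F : ℕ → Submodule K A
  top : F 0 = ⊤
  anti : ∀ n, F (n + 1) ≤ F n
  mul : ∀ m n x y, x ∈ F m → y ∈ F n → x * y ∈ F (m + n)

section
variable {K A : Type*} [Field K] [Ring A] [Algebra K A] (Fl : Filt K A)

theorem Filt.mono {m n : ℕ} (h : m ≤ n) : Fl.F n ≤ Fl.F m := by
  induction n, h using Nat.le_induction with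
  | base => exact le_rfl
  | succ n _ ih => exact (Fl.anti n).trans ih

variable {G : Type*} [Group G] (rho : G →* A)

/-- `g` or its inverse. -/
def sg (e : Bool) (g : G) : G := if e then g else g⁻¹

/-- The sign. -/
def sn (e : Bool) : ℤ := if e then 1 else -1

/-- Signed number of occurrences of a list as a subsequence. -/
def coef : List (ℕ × Bool) → List ℕ → ℤ
  | _, [] => 1
  | [], _ :: _ => 0
  | r :: L, i :: τ => coef L (i :: τ) + (if i = r.1 then sn r.2 * coef L τ else 0)

/-- Products of the elements `rho (h j) - 1`. -/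
def Yp (h : ℕ → G) (τ : List ℕ) : A := (τ.map (fun j => rho (h j) - 1)).prod

/-- The word `L` evaluated with only the variables in `S` switched on. -/
def Pe (h : ℕ → G) (L : List (ℕ × Bool)) (S : Finset ℕ) : A :=
  (L.map (fun r => if r.1 ∈ S then rho (sg r.2 (h r.1)) else 1)).prod

/-- Iterated difference. -/
def Df (J : Finset ℕ) (f : Finset ℕ → A) : A := ∑ S ∈ J.powerset, (-1 : ℤ) ^ (J \ S).card • f S

theorem Df_insert {j : ℕ} {J : Finset ℕ} (hj : j ∉ J) (f : Finset ℕ → A) :
    Df (insert j J) f = Df J (fun S => f (insert j S)) - Df J f := by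
  unfold Df
  rw [Finset.sum_powerset_insert hj]
  have h1 : ∀ S ∈ J.powerset, (-1 : ℤ) ^ (insert j J \ S).card • f S =
      -((-1 : ℤ) ^ (J \ S).card • f S) := by
    intro S hS
    have hjS : j ∉ S := fun h => hj (Finset.mem_powerset.1 hS h)
    rw [Finset.insert_sdiff_of_notMem _ hjS, Finset.card_insert_of_notMem (by
      simp [hj]), pow_succ]
    simp
  have h2 : ∀ S ∈ J.powerset, (-1 : ℤ) ^ (insert j J \ insert j S).card • f (insert j S) =
      (-1 : ℤ) ^ (J \ S).card • f (insert j S) := by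
    intro S hS
    have h3 : insert j J \ insert j S = J \ S := by
      ext x
      simp only [Finset.mem_sdiff, Finset.mem_insert, not_or]
      constructor
      · rintro ⟨h1 | h1, h2, h3⟩
        · exact absurd h1 h2
        · exact ⟨h1, h3⟩
      · rintro ⟨h1, h2⟩
        exact ⟨Or.inr h1, fun h' => hj (h' ▸ h1), h2⟩
    rw [h3]
  rw [Finset.sum_congr rfl h1, Finset.sum_congr rfl h2, Finset.sum_neg_distrib]
  abel

theorem Df_congr {J : Finset ℕ} {f g : Finset ℕ → A} (h : ∀ S ⊆ J, f S = g S) :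
    Df J f = Df J g := by
  unfold Df
  exact Finset.sum_congr rfl (fun S hS => by rw [h S (Finset.mem_powerset.1 hS)])

theorem Df_mul (J : Finset ℕ) (c : A) (f : Finset ℕ → A) :
    Df J (fun S => c * f S) = c * Df J f := by
  unfold Df
  rw [Finset.mul_sum]
  exact Finset.sum_congr rfl (fun S _ => by rw [mul_smul_comm])

theorem Df_const_one {J : Finset ℕ} (hJ : J.Nonempty) : Df J (fun _ => (1 : A)) = 0 := by
  obtain ⟨j, hj⟩ := hJ
  have : J = insert j (J.erase j) := (Finset.insert_erase hj).symm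
  rw [this, Df_insert (Finset.notMem_erase j J)]
  exact sub_self _

variable (h : ℕ → G) (N : ℕ → ℕ)

/-- Span of the multilinear monomials in `J`, up to higher order. -/
def VV (J : Finset ℕ) : Submodule K A :=
  Submodule.span K {x | ∃ τ : List ℕ, τ.Nodup ∧ τ.toFinset = J ∧ x = Yp rho h τ} ⊔
    Fl.F ((∑ j ∈ J, N j) + 1)

/-- Span of the multilinear monomials in `J` other than `σ`, up to higher order. -/
def WW (J : Finset ℕ) (σ : List ℕ) : Submodule K A :=
  Submodule.span K {x | ∃ τ : List ℕ, τ.Nodup ∧ τ.toFinset = J ∧ τ ≠ σ ∧ x = Yp rho h τ} ⊔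
    Fl.F ((∑ j ∈ J, N j) + 1)

theorem Yp_cons (j : ℕ) (τ : List ℕ) : Yp rho h (j :: τ) = (rho (h j) - 1) * Yp rho h τ := by
  simp [Yp]

variable {Fl rho h N}

theorem Yp_mem (hy : ∀ j, rho (h j) - 1 ∈ Fl.F (N j)) : ∀ τ : List ℕ, τ.Nodup →
    Yp rho h τ ∈ Fl.F (∑ j ∈ τ.toFinset, N j) := by
  intro τ
  induction τ with
  | nil => intro _; simp [Yp, Fl.top]
  | cons j τ ih =>
    intro hn
    rw [List.nodup_cons] at hn
    rw [Yp_cons, List.toFinset_cons, Finset.sum_insert (by simpa using hn.1)]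
    exact Fl.mul _ _ _ _ (hy j) (ih hn.2)

theorem VV_le (hy : ∀ j, rho (h j) - 1 ∈ Fl.F (N j)) (J : Finset ℕ) :
    VV Fl rho h N J ≤ Fl.F (∑ j ∈ J, N j) := by
  refine sup_le ?_ (Fl.anti _)
  rw [Submodule.span_le]
  rintro x ⟨τ, h1, rfl, rfl⟩
  exact Yp_mem hy τ h1

theorem WW_le_VV (J : Finset ℕ) (σ : List ℕ) : WW Fl rho h N J σ ≤ VV Fl rho h N J := by
  refine sup_le_sup_right (Submodule.span_mono ?_) _
  rintro x ⟨τ, h1, h2, _, h3⟩
  exact ⟨τ, h1, h2, h3⟩

/-- Multiplication by `rho (h j) - 1`. -/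
theorem mul_VV (hy : ∀ j, rho (h j) - 1 ∈ Fl.F (N j)) {j : ℕ} {J : Finset ℕ} (hj : j ∉ J) {x : A}
    (hx : x ∈ VV Fl rho h N J) {σ : List ℕ} (hσ : ∀ σ', σ ≠ j :: σ') :
    (rho (h j) - 1) * x ∈ WW Fl rho h N (insert j J) σ := by
  obtain ⟨a, ha, b, hb, rfl⟩ := Submodule.mem_sup.1 hx
  rw [mul_add]
  refine Submodule.add_mem _ (Submodule.mem_sup_left ?_) (Submodule.mem_sup_right ?_)
  · refine Submodule.span_induction ?_ ?_ ?_ ?_ ha
    · rintro y ⟨τ, h1, h2, rfl⟩
      refine Submodule.subset_span ⟨j :: τ, ?_, ?_, ?_, (Yp_cons rho h j τ).symm⟩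
      · rw [List.nodup_cons]; refine ⟨?_, h1⟩
        intro h3; apply hj; rw [← h2]; simpa using h3
      · simp [h2]
      · exact fun h3 => hσ τ h3.symm
    · simp
    · intro y z _ _ hy' hz'
      rw [mul_add]; exact Submodule.add_mem _ hy' hz'
    · intro c y _ hy'
      rw [mul_smul_comm]; exact Submodule.smul_mem _ _ hy'
  · rw [Finset.sum_insert hj, add_assoc]
    exact Fl.mul _ _ _ _ (hy j) hb

theorem mul_WW (hy : ∀ j, rho (h j) - 1 ∈ Fl.F (N j)) {j : ℕ} {J : Finset ℕ} (hj : j ∉ J) {x : A}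
    {σ : List ℕ} (hx : x ∈ WW Fl rho h N J σ) :
    (rho (h j) - 1) * x ∈ WW Fl rho h N (insert j J) (j :: σ) := by
  obtain ⟨a, ha, b, hb, rfl⟩ := Submodule.mem_sup.1 hx
  rw [mul_add]
  refine Submodule.add_mem _ (Submodule.mem_sup_left ?_) (Submodule.mem_sup_right ?_)
  · refine Submodule.span_induction ?_ ?_ ?_ ?_ ha
    · rintro y ⟨τ, h1, h2, h4, rfl⟩
      refine Submodule.subset_span ⟨j :: τ, ?_, ?_, ?_, (Yp_cons rho h j τ).symm⟩
      · rw [List.nodup_cons]; refine ⟨?_, h1⟩
        intro h3; apply hj; rw [← h2]; simpa using h3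
      · simp [h2]
      · intro h3; exact h4 (List.cons_eq_cons.1 h3).2
    · simp
    · intro y z _ _ hy' hz'
      rw [mul_add]; exact Submodule.add_mem _ hy' hz'
    · intro c y _ hy'
      rw [mul_smul_comm]; exact Submodule.smul_mem _ _ hy'
  · rw [Finset.sum_insert hj, add_assoc]
    exact Fl.mul _ _ _ _ (hy j) hb

theorem sign_approx (hy : ∀ j, rho (h j) - 1 ∈ Fl.F (N j)) (hN : ∀ j, 1 ≤ N j) (e : Bool) (j : ℕ) :
    ∃ z ∈ Fl.F (N j + 1), rho (sg e (h j)) = 1 + ((sn e : ℤ) • (rho (h j) - 1) + z) := by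
  cases e with
  | true => exact ⟨0, Submodule.zero_mem _, by simp [sg, sn]⟩
  | false =>
    have h1 : rho ((h j)⁻¹) * rho (h j) = 1 := by rw [← map_mul]; simp
    have h2 : rho ((h j)⁻¹) - 1 ∈ Fl.F (N j) := by
      have : rho ((h j)⁻¹) - 1 = (-rho ((h j)⁻¹)) * (rho (h j) - 1) := by
        rw [mul_sub, neg_mul, h1]; simp [sub_eq_add_neg, add_comm]
      rw [this]
      have := Fl.mul 0 (N j) (-rho ((h j)⁻¹)) (rho (h j) - 1) (by rw [Fl.top]; trivial) (hy j)
      simpa using this
    refine ⟨-((rho ((h j)⁻¹) - 1) * (rho (h j) - 1)), ?_, ?_⟩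
    · refine Submodule.neg_mem _ (Fl.mono ?_ (Fl.mul _ _ _ _ h2 (hy j)))
      have := hN j; omega
    · simp only [sg, sn, if_false, Bool.false_eq_true, neg_smul, one_smul]
      rw [sub_mul, mul_sub, h1]
      noncomm_ring

theorem Pe_cons (r : ℕ × Bool) (L : List (ℕ × Bool)) (S : Finset ℕ) :
    Pe rho h (r :: L) S = (if r.1 ∈ S then rho (sg r.2 (h r.1)) else 1) * Pe rho h L S := by
  simp [Pe]

theorem Df_Pe_cons_of_mem (r : ℕ × Bool) (L : List (ℕ × Bool)) {J : Finset ℕ} (hj : r.1 ∉ J) :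
    Df (insert r.1 J) (Pe rho h (r :: L)) = rho (sg r.2 (h r.1)) *
      (Df (insert r.1 J) (Pe rho h L) + Df J (Pe rho h L)) - Df J (Pe rho h L) := by
  rw [Df_insert hj, Df_insert hj]
  congr 1
  · rw [sub_add_cancel, ← Df_mul]
    refine Df_congr (fun S _ => ?_)
    rw [Pe_cons]; simp
  · refine Df_congr (fun S hS => ?_)
    rw [Pe_cons, if_neg (fun h' => hj (hS h')), one_mul]

theorem Df_Pe_cons_of_notMem (r : ℕ × Bool) (L : List (ℕ × Bool)) {J : Finset ℕ} (hj : r.1 ∉ J) :
    Df J (Pe rho h (r :: L)) = Df J (Pe rho h L) := by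
  refine Df_congr (fun S hS => ?_)
  rw [Pe_cons, if_neg (fun h' => hj (hS h')), one_mul]

theorem main_expand (hy : ∀ j, rho (h j) - 1 ∈ Fl.F (N j)) (hN : ∀ j, 1 ≤ N j) :
    ∀ (L : List (ℕ × Bool)) (J : Finset ℕ) (σ : List ℕ), σ.Nodup → σ.toFinset = J →
      Df J (Pe rho h L) - (coef L σ : ℤ) • Yp rho h σ ∈ WW Fl rho h N J σ := by
  intro L
  induction L with
  | nil =>
    intro J σ hσ hσJ
    rcases σ with _ | ⟨j, σ⟩
    · simp only [List.toFinset_nil] at hσJ
      subst hσJ
      simp [Df, Pe, coef, Yp]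
    · have hJ : J.Nonempty := ⟨j, by rw [← hσJ]; simp⟩
      have : Df J (Pe rho h []) = 0 := by
        have := Df_const_one (A := A) hJ
        rw [← this]
        exact Df_congr (fun S _ => by simp [Pe])
      rw [this]; simp [coef]
  | cons r L ih =>
    intro J σ hσ hσJ
    have hfull : ∀ J, Df J (Pe rho h L) ∈ VV Fl rho h N J := by
      intro J
      have h1 := ih J J.toList J.nodup_toList (by simp)
      have h2 : (coef L J.toList : ℤ) • Yp rho h J.toList ∈ VV Fl rho h N J := by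
        refine Submodule.mem_sup_left ?_
        rw [← Int.cast_smul_eq_zsmul K]
        exact Submodule.smul_mem _ _ (Submodule.subset_span ⟨J.toList, J.nodup_toList, by simp, rfl⟩)
      have h3 := Submodule.add_mem _ (WW_le_VV _ _ h1) h2
      simpa using h3
    by_cases hrJ : r.1 ∈ J
    · obtain ⟨J', hJ', hJ⟩ : ∃ J', r.1 ∉ J' ∧ J = insert r.1 J' :=
        ⟨J.erase r.1, Finset.notMem_erase _ _, (Finset.insert_erase hrJ).symm⟩
      subst hJ
      obtain ⟨z, hz, hz2⟩ := sign_approx hy hN r.2 r.1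
      rw [Df_Pe_cons_of_mem r L hJ', hz2]
      have hD1 := VV_le hy _ (hfull (insert r.1 J'))
      have hD2 := VV_le hy _ (hfull J')
      set D1 := Df (insert r.1 J') (Pe rho h L) with hD1def
      set D2 := Df J' (Pe rho h L) with hD2def
      set y := rho (h r.1) - 1 with hydef
      have hsum : ∑ j ∈ insert r.1 J', N j = N r.1 + ∑ j ∈ J', N j := Finset.sum_insert hJ'
      -- error terms
      have hyr : y ∈ Fl.F (N r.1) := hy r.1
      have e1 : ((sn r.2 : ℤ) • y + z) * D1 ∈ Fl.F ((∑ j ∈ insert r.1 J', N j) + 1) := by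
        have hw : (sn r.2 : ℤ) • y + z ∈ Fl.F (N r.1) :=
          Submodule.add_mem _ (by
            rw [← Int.cast_smul_eq_zsmul K]; exact Submodule.smul_mem _ _ hyr) (Fl.anti _ hz)
        refine Fl.mono ?_ (Fl.mul _ _ _ _ hw hD1)
        have := hN r.1; omega
      have e2 : z * D2 ∈ Fl.F ((∑ j ∈ insert r.1 J', N j) + 1) := by
        refine Fl.mono ?_ (Fl.mul _ _ _ _ hz hD2)
        omega
      have hW1 : Fl.F ((∑ j ∈ insert r.1 J', N j) + 1) ≤ WW Fl rho h N (insert r.1 J') σ :=
        le_sup_right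
      have h1 := ih (insert r.1 J') σ hσ hσJ
      rw [← hD1def] at h1
      rcases σ with _ | ⟨i, σ⟩
      · exfalso
        simp only [List.toFinset_nil] at hσJ
        exact Finset.insert_ne_empty _ _ hσJ.symm
      by_cases hir : i = r.1
      · subst hir
        have hσ' : σ.toFinset = J' := by
          rw [List.toFinset_cons] at hσJ
          rw [List.nodup_cons] at hσ
          have h3 : r.1 ∉ σ.toFinset := by simpa using hσ.1
          have := congrArg (fun s => Finset.erase s r.1) hσJ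
          simpa [Finset.erase_insert h3, Finset.erase_insert hJ'] using this
        have h2 := ih J' σ (List.nodup_cons.1 hσ).2 hσ'
        rw [← hD2def] at h2
        have h3 := mul_WW hy hJ' h2
        rw [← hydef] at h3
        have h4 : (sn r.2 : ℤ) • (y * (D2 - (coef L σ : ℤ) • Yp rho h σ)) ∈
            WW Fl rho h N (insert r.1 J') (r.1 :: σ) := by
          rw [← Int.cast_smul_eq_zsmul K]; exact Submodule.smul_mem _ _ h3
        have h5 := Submodule.add_mem _ (Submodule.add_mem _ (Submodule.add_mem _ h1 h4)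
          (hW1 e1)) (hW1 e2)
        convert h5 using 1
        rw [coef, if_pos rfl, Yp_cons, ← hydef]
        simp only [add_mul, mul_add, mul_sub, add_smul, smul_sub, mul_smul, smul_mul_assoc,
          mul_smul_comm, one_mul]
        abel
      · have h3 := mul_VV hy hJ' (hfull J') (σ := i :: σ) (by
          intro σ' hc; exact hir (List.cons_eq_cons.1 hc).1)
        rw [← hydef, ← hD2def] at h3
        have h4 : (sn r.2 : ℤ) • (y * D2) ∈ WW Fl rho h N (insert r.1 J') (i :: σ) := by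
          rw [← Int.cast_smul_eq_zsmul K]; exact Submodule.smul_mem _ _ h3
        have h5 := Submodule.add_mem _ (Submodule.add_mem _ (Submodule.add_mem _ h1 h4)
          (hW1 e1)) (hW1 e2)
        convert h5 using 1
        rw [coef, if_neg hir]
        simp only [add_mul, mul_add, add_smul, smul_mul_assoc, one_mul, zero_smul]
        abel
    · rw [Df_Pe_cons_of_notMem r L hrJ]
      have h1 := ih J σ hσ hσJ
      rcases σ with _ | ⟨i, σ⟩
      · have e : ∀ L, coef L [] = 1 := by intro L; cases L <;> rfl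
        rw [e] at h1 ⊢; exact h1
      · have hir : i ≠ r.1 := by
          intro h'; apply hrJ; rw [← hσJ, ← h']; simp
        rw [coef, if_neg hir, add_zero]; exact h1

end

end Pool.Agent.LawGrowth
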