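import Pool.Agent.Lib.MP_f46765_al.H13.Aug

/-! Uniform subexponential growth of the augmentation filtration of groups with a law. -/

namespace Pool.Agent.LawGrowth

section
variable {K G : Type*} [Field K] [Group G] {d : ℕ} {s : Fin d → G}

theorem Lead_list {C : ℕ → Wd d} {x : ℕ → MonoidAlgebra K G} : ∀ τ : List ℕ,
    (∀ j ∈ τ, Lead s (C j) (x j)) → Lead s (τ.map C).flatten (τ.map x).prod := by
  intro τ
  induction τ with
  | nil =>
    intro _
    have : (1 : MonoidAlgebra K G) - Br s [] = 0 := by simp [Br]
    simp only [List.map_nil, List.flatten_nil, List.prod_nil]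
    unfold Lead; rw [this]; exact Submodule.zero_mem _
  | cons j τ ih =>
    intro h
    rw [List.map_cons, List.flatten_cons, List.map_cons, List.prod_cons]
    exact (h j (by simp)).mul (ih (fun i hi => h i (by simp [hi])))

theorem length_flatten_perm {C C' : List (Wd d)} (h : C.Perm C') :
    C.flatten.length = C'.flatten.length := (h.flatten).length_eq

theorem sum_range_list (f : ℕ → ℕ) (M : ℕ) :
    ∑ j ∈ Finset.range M, f j = ((List.range M).map f).sum := by
  induction M with
  | zero => simp
  | succ M ih => rw [Finset.sum_range_succ, List.range_succ, ih]; simp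

/-- A chain is reducible to larger words. -/
theorem chain_reduce {M : ℕ} {β : Type*} [DecidableEq β] (cls : ℕ → β) (sgn : ℕ → Bool)
    (hM : 1 ≤ M) (hadj : ∀ t, t + 1 < M → cls t ≠ cls (t + 1))
    (hlaw : ∀ φ : β → G, ((List.range M).map (fun t => sg (sgn t) (φ (cls t)))).prod = 1)
    {C : List (Wd d)} (hC : C.length = M) (hch : Ch C) :
    Br (K := K) s C.flatten ∈ Up s C.flatten.length (num C.flatten) := by
  have hex : ∀ j : ℕ, ∃ (g : G) (N : ℕ), 1 ≤ N ∧ MonoidAlgebra.of K G g - 1 ∈ augPow K G N ∧
      (j < M → N = (C.getD j []).length ∧ Lead (K := K) s (C.getD j []) (MonoidAlgebra.of K G g - 1)) := by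
    intro j
    by_cases hj : j < M
    · have hmem : C.getD j [] ∈ C := by
        rw [List.getD_eq_getElem _ _ (by omega)]; exact List.getElem_mem _
      have hgw := hch.1 _ hmem
      obtain ⟨g, hg⟩ := hgw.exists_lead (K := K) (s := s)
      exact ⟨g, _, List.length_pos_iff.2 hgw.ne_nil, Ge_le hg.mem_Ge, fun _ => ⟨rfl, hg⟩⟩
    · refine ⟨1, 1, le_rfl, ?_, fun h => absurd h hj⟩
      rw [map_one, sub_self]; exact Submodule.zero_mem _
  choose h N hN hy hL using hex
  have hrel := law_rel (augF K G) (MonoidAlgebra.of K G) cls sgn M hM hadj hlaw h N hy hN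
  set Cf : ℕ → Wd d := fun j => C.getD j [] with hCf
  set x : ℕ → MonoidAlgebra K G := fun j => MonoidAlgebra.of K G (h j) - 1 with hx
  have hmapC : (List.range M).map Cf = C := by
    rw [← hC]
    have := map_range_getD ([] : Wd d) (fun w => w) C
    rw [List.map_id'] at this
    exact this
  have hlead : ∀ τ : List ℕ, (∀ j ∈ τ, j < M) → Lead s (τ.map Cf).flatten (Yp (MonoidAlgebra.of K G) h τ) := by
    intro τ hτ
    exact Lead_list τ (fun j hj => (hL j (hτ j hj)).2)
  have h1 := hlead (List.range M) (fun j hj => List.mem_range.1 hj)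
  rw [hmapC] at h1
  have hsumN : ∑ j ∈ Finset.range M, N j = C.flatten.length := by
    have e1 : ∀ j ∈ Finset.range M, N j = (C.getD j []).length :=
      fun j hj => (hL j (Finset.mem_range.1 hj)).1
    rw [Finset.sum_congr rfl e1, List.length_flatten]
    have e2 : C.map List.length = (List.range M).map (fun j => (C.getD j []).length) := by
      conv_lhs => rw [← hmapC]
      rw [List.map_map]; rfl
    rw [e2, ← sum_range_list]
  have hWW : WW (augF K G) (MonoidAlgebra.of K G) h N (Finset.range M) (List.range M) ≤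
      Up s C.flatten.length (num C.flatten) := by
    refine sup_le ?_ ?_
    · rw [Submodule.span_le]
      rintro _ ⟨τ, hτ1, hτ2, hτ3, rfl⟩
      have hτM : ∀ j ∈ τ, j < M := by
        intro j hj
        have : j ∈ τ.toFinset := by simpa using hj
        rw [hτ2] at this; exact Finset.mem_range.1 this
      have hperm : (List.range M).Perm τ := by
        rw [List.perm_ext_iff_of_nodup List.nodup_range hτ1]
        intro a
        rw [List.mem_range, ← Finset.mem_range, ← hτ2, List.mem_toFinset]
      have hperm2 : C.Perm (τ.map Cf) := by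
        have := hperm.map Cf
        rwa [hmapC] at this
      have hnd : C.Nodup := hch.2.imp (fun {a b} hab => by
        intro h; rw [h] at hab; exact lt_irrefl _ hab)
      have hne : C ≠ τ.map Cf := by
        intro hcc
        apply hτ3
        have hlen : τ.length = M := by
          have := hperm.length_eq; rw [List.length_range] at this; exact this.symm
        apply List.ext_getElem
        · rw [hlen, List.length_range]
        · intro i hi1 hi2
          rw [List.getElem_range]
          have hi3 : i < C.length := by omega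
          have hτi : τ[i] < M := hτM _ (List.getElem_mem hi1)
          have e1 : C[i] = (τ.map Cf)[i]'(by rw [List.length_map]; exact hi1) := by
            congr 1
          rw [List.getElem_map] at e1
          have e2 : Cf (τ[i]) = C[τ[i]]'(by omega) := by
            simp only [hCf]; rw [List.getD_eq_getElem _ _ (by omega)]
          rw [e2] at e1
          exact ((List.Nodup.getElem_inj_iff hnd).1 e1).symm
      have hlt := num_flatten_lt_of_perm (fun u hu => (hch.1 u hu).ne_nil) hch.2 hperm2 hne
      have h2 := Ge_le_Up hlt (hlead τ hτM).mem_Ge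
      rw [length_flatten_perm hperm2]
      exact h2
    · rw [hsumN]; exact le_sup_right
  have h3 := Submodule.sub_mem _ (hWW hrel) h1
  simpa using h3

/-- Words with a chain factor are reducible. -/
theorem word_reduce {M : ℕ} {β : Type*} [DecidableEq β] (cls : ℕ → β) (sgn : ℕ → Bool)
    (hM : 1 ≤ M) (hadj : ∀ t, t + 1 < M → cls t ≠ cls (t + 1))
    (hlaw : ∀ φ : β → G, ((List.range M).map (fun t => sg (sgn t) (φ (cls t)))).prod = 1)
    {w : Wd d} (hw : w ∉ Fr d M) : Br (K := K) s w ∈ Up s w.length (num w) := by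
  simp only [Fr, Set.mem_ofPred_eq, not_forall, not_not, ne_eq] at hw
  obtain ⟨p, C, q, hC, hch, rfl⟩ := hw
  rw [Br_append, Br_append]
  exact Ge_mul_Up (Br_mem_Ge p) (Up_mul_Ge (chain_reduce cls sgn hM hadj hlaw hC hch) (Br_mem_Ge q))

/-- All words are combinations of chain-free words. -/
theorem word_span {M : ℕ} {β : Type*} [DecidableEq β] (cls : ℕ → β) (sgn : ℕ → Bool)
    (hM : 1 ≤ M) (hadj : ∀ t, t + 1 < M → cls t ≠ cls (t + 1))
    (hlaw : ∀ φ : β → G, ((List.range M).map (fun t => sg (sgn t) (φ (cls t)))).prod = 1) (n : ℕ) :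
    ∀ (c : ℕ) (w : Wd d), w.length = n →
      Set.ncard {v : Wd d | v.length = n ∧ num w < num v} ≤ c →
      Br (K := K) s w ∈ Submodule.span K {x | ∃ v : Wd d, v ∈ Fr d M ∧ v.length = n ∧ x = Br s v} ⊔
        augPow K G (n + 1) := by
  intro c
  induction c with
  | zero =>
    intro w hw hc
    by_cases hF : w ∈ Fr d M
    · exact Submodule.mem_sup_left (Submodule.subset_span ⟨w, hF, hw, rfl⟩)
    · have h1 := word_reduce (K := K) (s := s) cls sgn hM hadj hlaw hF
      have hfin : {v : Wd d | v.length = n ∧ num w < num v}.Finite :=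
        (finite_len n).subset (fun v hv => hv.1)
      have hemp : {v : Wd d | v.length = n ∧ num w < num v} = ∅ :=
        (Set.ncard_eq_zero hfin).1 (Nat.le_zero.1 hc)
      have h2 : {x : MonoidAlgebra K G | ∃ v : Wd d, v.length = w.length ∧ num w < num v ∧
          x = Br s v} = ∅ := by
        ext x
        simp only [Set.mem_ofPred_eq, Set.mem_empty_iff_false, iff_false]
        rintro ⟨v, hv1, hv2, _⟩
        have : v ∈ {v : Wd d | v.length = n ∧ num w < num v} := ⟨by rw [hv1, hw], hv2⟩
        rw [hemp] at this; exact this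
      unfold Up at h1
      rw [h2, Submodule.span_empty, bot_sup_eq, hw] at h1
      exact Submodule.mem_sup_right h1
  | succ c ih =>
    intro w hw hc
    by_cases hF : w ∈ Fr d M
    · exact Submodule.mem_sup_left (Submodule.subset_span ⟨w, hF, hw, rfl⟩)
    · have h1 := word_reduce (K := K) (s := s) cls sgn hM hadj hlaw hF
      have h2 : Up (K := K) s w.length (num w) ≤
          Submodule.span K {x | ∃ v : Wd d, v ∈ Fr d M ∧ v.length = n ∧ x = Br s v} ⊔
            augPow K G (n + 1) := by
        rw [hw]
        refine sup_le ?_ le_sup_right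
        rw [Submodule.span_le]
        rintro _ ⟨v, hv1, hv2, rfl⟩
        refine ih v hv1 ?_
        have hfin : {u : Wd d | u.length = n ∧ num w < num u}.Finite :=
          (finite_len n).subset (fun v hv => hv.1)
        have hlt : Set.ncard {u : Wd d | u.length = n ∧ num v < num u} <
            Set.ncard {u : Wd d | u.length = n ∧ num w < num u} := by
          refine Set.ncard_lt_ncard ?_ hfin
          refine ⟨fun u hu => ⟨hu.1, hv2.trans hu.2⟩, ?_⟩
          intro hsub
          exact absurd (hsub (a := v) ⟨hv1, hv2⟩).2 (lt_irrefl _)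
        omega
      exact h2 h1

/-- The first layer is spanned by the generators. -/
theorem aug_gen (hs : Subgroup.closure (Set.range s) = ⊤) :
    aug K G ≤ Submodule.span K (Set.range (fun i => MonoidAlgebra.of K G (s i) - 1)) ⊔
      augPow K G 2 := by
  unfold aug
  rw [Submodule.span_le]
  rintro _ ⟨g, rfl⟩
  have hg : g ∈ Subgroup.closure (Set.range s) := by rw [hs]; trivial
  have h2 : ∀ a b : G, (MonoidAlgebra.of K G a - 1) * (MonoidAlgebra.of K G b - 1) ∈
      augPow K G 2 := by
    intro a b
    exact augPow_mul 1 1 (Submodule.mul_mem_mul (of_sub_mem' a) (of_sub_mem' b))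
  induction hg using Subgroup.closure_induction with
  | mem x hx =>
    obtain ⟨i, rfl⟩ := hx
    exact Submodule.mem_sup_left (Submodule.subset_span ⟨i, rfl⟩)
  | one =>
    have : MonoidAlgebra.of K G (1 : G) - 1 = 0 := by rw [map_one, sub_self]
    simp only [this]; exact Submodule.zero_mem _
  | mul a b _ _ ha hb =>
    have e : MonoidAlgebra.of K G (a * b) - 1 = (MonoidAlgebra.of K G a - 1) +
        (MonoidAlgebra.of K G b - 1) +
        (MonoidAlgebra.of K G a - 1) * (MonoidAlgebra.of K G b - 1) := by
      rw [map_mul]; noncomm_ring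
    simp only [e]
    exact Submodule.add_mem _ (Submodule.add_mem _ ha hb) (Submodule.mem_sup_right (h2 a b))
  | inv a _ ha =>
    have e : MonoidAlgebra.of K G (a⁻¹) - 1 = -(MonoidAlgebra.of K G a - 1) -
        (MonoidAlgebra.of K G (a⁻¹) - 1) * (MonoidAlgebra.of K G a - 1) := by
      have : MonoidAlgebra.of K G (a⁻¹) * MonoidAlgebra.of K G a = 1 := by
        rw [← map_mul, inv_mul_cancel, map_one]
      rw [sub_mul, mul_sub, this]; noncomm_ring
    show MonoidAlgebra.of K G (a⁻¹) - 1 ∈ _
    rw [e]
    exact Submodule.sub_mem _ (Submodule.neg_mem _ ha) (Submodule.mem_sup_right (h2 _ a))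

theorem augPow_le_span (hs : Subgroup.closure (Set.range s) = ⊤) : ∀ n,
    augPow K G n ≤ Submodule.span K {x | ∃ v : Wd d, v.length = n ∧ x = Br s v} ⊔
      augPow K G (n + 1) := by
  intro n
  induction n with
  | zero =>
    intro x _
    induction x using MonoidAlgebra.induction_on with
    | of g =>
      have e : MonoidAlgebra.of K G g = 1 + (MonoidAlgebra.of K G g - 1) := by abel
      rw [e]
      refine Submodule.add_mem _ (Submodule.mem_sup_left (Submodule.subset_span ⟨[], rfl, ?_⟩))
        (Submodule.mem_sup_right (of_sub_mem' g))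
      simp [Br]
    | add a b ha hb => exact Submodule.add_mem _ (ha trivial) (hb trivial)
    | smul c a ha => exact Submodule.smul_mem _ _ (ha trivial)
  | succ n ih =>
    rw [augPow, Submodule.mul_le]
    intro x hx y hy
    have hx' := aug_gen hs hx
    have hy' := ih hy
    refine mul_sup_mem (m := 1) (n := n) ?_ ?_ ?_ ?_ hx' hy'
    · rintro _ ⟨i, rfl⟩; exact of_sub_mem' (s i)
    · rintro _ ⟨v, rfl, rfl⟩; exact Br_mem s v
    · rw [add_comm 1 n]; exact le_sup_right
    · rintro _ ⟨i, rfl⟩ _ ⟨v, rfl, rfl⟩
      refine Submodule.mem_sup_left (Submodule.subset_span ⟨i :: v, by simp, by simp [Br]⟩)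

end

/-- Dimension of a quotient spanned by a finite set. -/
theorem quot_dim {K A : Type*} [Field K] [AddCommGroup A] [Module K A] (V W : Submodule K A)
    (X : Set A) (hX : X.Finite) (h : V ≤ Submodule.span K X ⊔ W) (hXV : X ⊆ V) :
    Module.Finite K (V ⧸ W.submoduleOf V) ∧
      Module.finrank K (V ⧸ W.submoduleOf V) ≤ X.ncard := by
  have hXf := hX.fintype
  let f : X → V ⧸ W.submoduleOf V := fun x => (W.submoduleOf V).mkQ ⟨x.1, hXV x.2⟩
  have htop : Submodule.span K (Set.range f) = ⊤ := by
    rw [eq_top_iff]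
    rintro q -
    obtain ⟨⟨v, hv⟩, rfl⟩ := (W.submoduleOf V).mkQ_surjective q
    obtain ⟨a, ha, b, hb, hab⟩ := Submodule.mem_sup.1 (h hv)
    have key : ∀ a ∈ Submodule.span K X, ∀ haV : a ∈ V,
        (W.submoduleOf V).mkQ ⟨a, haV⟩ ∈ Submodule.span K (Set.range f) := by
      intro a ha
      have hle : Submodule.span K X ≤ V := Submodule.span_le.2 hXV
      induction ha using Submodule.span_induction with
      | mem x hx => intro _; exact Submodule.subset_span ⟨⟨x, hx⟩, rfl⟩
      | zero =>
        intro h0
        have : (⟨0, h0⟩ : V) = 0 := rfl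
        rw [this, map_zero]; exact Submodule.zero_mem _
      | add x y hx hy ihx ihy =>
        intro hxy
        have : (⟨x + y, hxy⟩ : V) = ⟨x, hle hx⟩ + ⟨y, hle hy⟩ := rfl
        rw [this, map_add]
        exact Submodule.add_mem _ (ihx _) (ihy _)
      | smul c x hx ihx =>
        intro hcx
        have : (⟨c • x, hcx⟩ : V) = c • ⟨x, hle hx⟩ := rfl
        rw [this, map_smul]
        exact Submodule.smul_mem _ _ (ihx _)
    have haV : a ∈ V := (Submodule.span_le.2 hXV) ha
    have : (W.submoduleOf V).mkQ ⟨v, hv⟩ = (W.submoduleOf V).mkQ ⟨a, haV⟩ := by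
      rw [← sub_eq_zero, ← map_sub, Submodule.mkQ_apply, Submodule.Quotient.mk_eq_zero]
      show v - a ∈ W
      rw [← hab]; simpa using hb
    rw [this]
    exact key a ha haV
  constructor
  · rw [Module.finite_def, ← htop]
    exact Submodule.fg_span (Set.finite_range f)
  · rw [← finrank_top, ← htop]
    refine (finrank_range_le_card (R := K) f).trans ?_
    rw [Set.ncard_eq_toFinset_card', Set.toFinset_card]

/-- The dimension bound. -/
theorem dim_le {K G : Type*} [Field K] [Group G] {d : ℕ} {s : Fin d → G}
    (hs : Subgroup.closure (Set.range s) = ⊤) {M : ℕ} {β : Type*} [DecidableEq β] (cls : ℕ → β)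
    (sgn : ℕ → Bool) (hM : 1 ≤ M) (hadj : ∀ t, t + 1 < M → cls t ≠ cls (t + 1))
    (hlaw : ∀ φ : β → G, ((List.range M).map (fun t => sg (sgn t) (φ (cls t)))).prod = 1) (n : ℕ) :
    Module.Finite K (augPow K G n ⧸ (augPow K G (n + 1)).submoduleOf (augPow K G n)) ∧
      Module.finrank K (augPow K G n ⧸ (augPow K G (n + 1)).submoduleOf (augPow K G n)) ≤
        cn d M n := by
  set X : Set (MonoidAlgebra K G) := Br s '' {v : Wd d | v ∈ Fr d M ∧ v.length = n} with hX
  have hfin : {v : Wd d | v ∈ Fr d M ∧ v.length = n}.Finite :=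
    (finite_len n).subset (fun v hv => hv.2)
  have hXfin : X.Finite := hfin.image _
  have hXset : X = {x | ∃ v : Wd d, v ∈ Fr d M ∧ v.length = n ∧ x = Br s v} := by
    ext x
    constructor
    · rintro ⟨v, ⟨h1, h2⟩, rfl⟩; exact ⟨v, h1, h2, rfl⟩
    · rintro ⟨v, h1, h2, rfl⟩; exact ⟨v, ⟨h1, h2⟩, rfl⟩
  have hsp : augPow K G n ≤ Submodule.span K X ⊔ augPow K G (n + 1) := by
    refine (augPow_le_span hs n).trans (sup_le ?_ le_sup_right)
    rw [Submodule.span_le]
    rintro _ ⟨v, hv, rfl⟩
    rw [hXset]
    exact word_span cls sgn hM hadj hlaw n _ v hv le_rfl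
  have h1 := quot_dim (augPow K G n) (augPow K G (n + 1)) X hXfin hsp (by
    rintro _ ⟨v, ⟨_, hv⟩, rfl⟩; rw [← hv]; exact Br_mem s v)
  exact ⟨h1.1, h1.2.trans (Set.ncard_image_le hfin)⟩

end Pool.Agent.LawGrowth
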