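import Pool.Agent.Lib.MP_f46765_al.H13.Zeta

/-! Parsing words with respect to the smallest letter. -/

namespace Pool.Agent.LawGrowth

open scoped ENNReal

variable {d : ℕ}

/-- Words over `F` avoiding chains beyond the letters of `S`. -/
def AF (m : ℕ) (S : Set (Wd d)) (F : Finset (Wd d)) : Set (Wd d) :=
  {w | ∃ L : List (Wd d), (∀ x ∈ L, x ∈ F) ∧ L.flatten = w ∧ NoCh m (Thr S) L}

/-- Words over `S` starting with their smallest letter `ze`. -/
def Gz (m : ℕ) (S : Set (Wd d)) (ze : Wd d) : Set (Wd d) :=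
  {w | ∃ L : List (Wd d), (∀ x ∈ L, x ∈ S ∧ num ze ≤ num x) ∧ (∃ L', L = ze :: L') ∧
    L.flatten = w ∧ NoCh m (Thr S) L}

theorem AF_insert {m : ℕ} {S : Set (Wd d)} {F : Finset (Wd d)} {ze : Wd d}
    (hF : ∀ x ∈ insert ze F, x ∈ S) (hmin : ∀ x ∈ F, num ze ≤ num x) :
    AF m S (insert ze F) ⊆ AF m S F ∪ cat (AF m S F) (Gz m S ze) := by
  rintro w ⟨L, hL, rfl, hch⟩
  by_cases hz : ze ∈ L
  · right
    obtain ⟨P, Q, rfl, hP⟩ := List.eq_append_cons_of_mem hz
    refine ⟨P.flatten, ⟨P, ?_, rfl, hch.pre⟩, (ze :: Q).flatten,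
      ⟨ze :: Q, ?_, ⟨Q, rfl⟩, rfl, hch.suffix⟩, by simp⟩
    · intro x hx
      rcases Finset.mem_insert.1 (hL x (by simp [hx])) with h | h
      · rw [h] at hx; exact absurd hx hP
      · exact h
    · intro x hx
      have h1 := hL x (by simp only [List.mem_append]; right; exact hx)
      refine ⟨hF x h1, ?_⟩
      rcases Finset.mem_insert.1 h1 with h | h
      · rw [h]
      · exact hmin x h
  · left
    refine ⟨L, ?_, rfl, hch⟩
    intro x hx
    rcases Finset.mem_insert.1 (hL x hx) with h | h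
    · rw [h] at hx; exact absurd hx hz
    · exact h

theorem Z_AF (t : ℝ≥0∞) {m : ℕ} {S : Set (Wd d)} (F : Finset (Wd d)) (hF : ∀ x ∈ F, x ∈ S) :
    Z t (AF m S F) ≤ ∏ x ∈ F, (1 + Z t (Gz m S x)) := by
  induction F using Finset.induction_on_min_value (f := num) with
  | empty =>
    have : AF m S ∅ ⊆ {[]} := by
      rintro w ⟨L, hL, rfl, _⟩
      rcases L with _ | ⟨x, L⟩
      · rfl
      · exact absurd (hL x (by simp)) (by simp)
    refine (Z_mono this).trans ?_
    rw [Z_singleton]; simp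
  | insert ze F hze hmin ih =>
    rw [Finset.prod_insert hze]
    refine (Z_mono (AF_insert hF hmin)).trans ((Z_union _ _ _).trans ?_)
    have h1 := ih (fun x hx => hF x (Finset.mem_insert_of_mem hx))
    calc Z t (AF m S F) + Z t (cat (AF m S F) (Gz m S ze))
        ≤ Z t (AF m S F) + Z t (AF m S F) * Z t (Gz m S ze) := by
          gcongr; exact Z_cat _ _ _
      _ = (1 + Z t (Gz m S ze)) * Z t (AF m S F) := by ring
      _ ≤ _ := mul_le_mul' le_rfl h1

theorem prod_one_add_le {ι : Type*} (F : Finset ι) (a : ι → ℝ≥0∞) (h : ∑ i ∈ F, a i ≠ ⊤) :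
    ∏ i ∈ F, (1 + a i) ≤ ENNReal.ofReal (Real.exp (∑ i ∈ F, a i).toReal) := by
  classical
  induction F using Finset.induction_on with
  | empty => simp
  | insert i F hi ih =>
    rw [Finset.sum_insert hi] at h
    have h1 : a i ≠ ⊤ := fun h' => h (by rw [h']; simp)
    have h2 : ∑ j ∈ F, a j ≠ ⊤ := fun h' => h (by rw [h']; simp)
    rw [Finset.prod_insert hi, Finset.sum_insert hi, ENNReal.toReal_add h1 h2, Real.exp_add,
      ENNReal.ofReal_mul (Real.exp_pos _).le]
    refine mul_le_mul' ?_ (ih h2)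
    have : (1 : ℝ≥0∞) + a i = ENNReal.ofReal (1 + (a i).toReal) := by
      rw [ENNReal.ofReal_add zero_le_one ENNReal.toReal_nonneg, ENNReal.ofReal_one,
        ENNReal.ofReal_toReal h1]
    rw [this]
    apply ENNReal.ofReal_le_ofReal
    rw [add_comm]; exact Real.add_one_le_exp _

theorem Z_Av_le (t : ℝ≥0∞) {m : ℕ} {S : Set (Wd d)} {B : ℝ≥0∞}
    (h : ∀ F : Finset (Wd d), (∀ x ∈ F, x ∈ S) → Z t (AF m S F) ≤ B) : Z t (Av m S) ≤ B := by
  classical
  unfold Z
  rw [ENNReal.tsum_eq_iSup_sum]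
  refine iSup_le (fun s => ?_)
  -- choose lists
  have hch : ∀ w : Av m S, ∃ L : List (Wd d), (∀ x ∈ L, x ∈ S) ∧ L.flatten = w.1 ∧
      NoCh m (Thr S) L := fun w => w.2
  choose Lw h1 h2 h3 using hch
  set F : Finset (Wd d) := s.biUnion (fun w => (Lw w).toFinset) with hF
  have hFS : ∀ x ∈ F, x ∈ S := by
    intro x hx
    obtain ⟨w, _, hw⟩ := Finset.mem_biUnion.1 hx
    exact h1 w x (List.mem_toFinset.1 hw)
  refine le_trans ?_ (h F hFS)
  have hmem : ∀ w ∈ s, w.1 ∈ AF m S F := by
    intro w hw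
    exact ⟨Lw w, fun x hx => Finset.mem_biUnion.2 ⟨w, hw, List.mem_toFinset.2 hx⟩, h2 w, h3 w⟩
  have e1 : ∑ w ∈ s, t ^ (w.1.length) = ∑ w ∈ s.image Subtype.val, t ^ w.length := by
    rw [Finset.sum_image (fun a _ b _ hab => Subtype.ext hab)]
  rw [e1, ← Finset.tsum_subtype' (s.image Subtype.val) (fun w : Wd d => t ^ w.length)]
  refine Z_mono ?_
  intro w hw
  simp only [Finset.coe_image, Set.mem_image, Finset.mem_coe] at hw
  obtain ⟨v, hv, rfl⟩ := hw
  exact hmem v hv

/-- Membership of a block in the eliminated alphabet. -/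
theorem block_mem {n : ℕ} {S : Set (Wd d)} (hS : Alph S) {ze : Wd d} (hze : ze ∈ S) {a : ℕ}
    (ha : 1 ≤ a) {V R : List (Wd d)} (hV : ∀ x ∈ V, x ∈ S ∧ num ze < num x) (hVne : V ≠ [])
    (hch : NoCh (n + 2) (Thr S) (List.replicate a ze ++ V ++ R)) :
    pw a ze ++ V.flatten ∈ nxt n S ze := by
  refine ⟨a, V, ha, hVne, hV, ?_, rfl⟩
  intro P Q hPQ hc
  obtain ⟨a, rfl⟩ : ∃ a', a = a' + 1 := ⟨a - 1, by omega⟩
  refine hch (List.replicate a ze) (ze :: (V ++ R)) ?_ ?_
  · rw [List.replicate_succ']; simp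
  · have e : (ze :: (V ++ R)).flatten = (ze ++ P.flatten) ++ (Q.flatten ++ R.flatten) := by
      rw [hPQ]; simp
    rw [e]
    have h1 : HasCh (n + 2) (Thr S) ((ze ++ P.flatten) ++ Q.flatten) := by
      refine HasCh.cons hc (GW_cons hS hze P (fun x hx => hV x (by rw [hPQ]; simp [hx]))) ?_ ?_
      · exact ⟨ze, hze, num_le_append _ _⟩
      · intro u hu hb
        exact ⟨⟨ze, hze, hb.num_lt.le⟩, per_lt_of_bey hze (hS.good ze hze).ne_nil
          (fun x hx => (hV x (by rw [hPQ]; simp [hx])).1) hb hu.ne_nil⟩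
    refine h1.pfx ?_
    rw [← List.append_assoc]
    exact List.prefix_append _ _

theorem replicate_of_all_eq {α : Type*} [DecidableEq α] (z : α) (L : List α) :
    L.takeWhile (fun x => decide (x = z)) =
      List.replicate (L.takeWhile (fun x => decide (x = z))).length z := by
  rw [List.eq_replicate_iff]
  refine ⟨rfl, fun b hb => ?_⟩
  simpa using List.mem_takeWhile_imp hb

/-- Parsing a list starting with its smallest letter. -/
theorem parse {n : ℕ} {S : Set (Wd d)} (hS : Alph S) {ze : Wd d} (hze : ze ∈ S) :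
    ∀ (l : ℕ) (L : List (Wd d)), L.length ≤ l → (∀ x ∈ L, x ∈ S ∧ num ze ≤ num x) →
      (L = [] ∨ ∃ L', L = ze :: L') → NoCh (n + 2) (Thr S) L →
      ∃ (Y : List (Wd d)) (e : ℕ), (∀ y ∈ Y, y ∈ nxt n S ze) ∧ L.flatten = Y.flatten ++ pw e ze ∧
        ∀ P Q, Y = P ++ Q → ∃ P' Q', L = P' ++ Q' ∧ Q'.flatten = Q.flatten ++ pw e ze := by
  intro l
  induction l with
  | zero =>
    intro L hL _ _ _
    have : L = [] := List.length_eq_zero_iff.1 (by omega)
    subst this
    refine ⟨[], 0, by simp, by simp [pw_zero], ?_⟩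
    intro P Q hPQ
    obtain ⟨rfl, rfl⟩ := List.nil_eq_append_iff.1 hPQ
    exact ⟨[], [], rfl, by simp [pw_zero]⟩
  | succ l ih =>
    intro L hLl hL hst hch
    rcases hst with rfl | ⟨L', rfl⟩
    · refine ⟨[], 0, by simp, by simp [pw_zero], ?_⟩
      intro P Q hPQ
      obtain ⟨rfl, rfl⟩ := List.nil_eq_append_iff.1 hPQ
      exact ⟨[], [], rfl, by simp [pw_zero]⟩
    · set L := ze :: L' with hLdef
      set A := L.takeWhile (fun x => decide (x = ze)) with hA
      set R := L.dropWhile (fun x => decide (x = ze)) with hR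
      have hAR : L = A ++ R := (List.takeWhile_append_dropWhile).symm
      have hArep : A = List.replicate A.length ze := replicate_of_all_eq ze L
      have hA1 : 1 ≤ A.length := by
        rw [hA, hLdef]; simp
      rcases hRc : R with _ | ⟨r, R0⟩
      · refine ⟨[], A.length, by simp, ?_, ?_⟩
        · rw [hAR, hRc, pw_flat, ← hArep]; simp
        · intro P Q hPQ
          obtain ⟨rfl, rfl⟩ := List.nil_eq_append_iff.1 hPQ
          refine ⟨[], L, rfl, ?_⟩
          rw [hAR, hRc, pw_flat, ← hArep]; simp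
      · have hr : r ≠ ze := by
          have h1 : R ≠ [] := by rw [hRc]; simp
          have := List.head_dropWhile_not (fun x => decide (x = ze)) (l := L) h1
          have h2 : R.head h1 = r := by simp [hRc]
          rw [h2] at this
          simpa using this
        set V := R.takeWhile (fun x => decide (x ≠ ze)) with hV
        set R' := R.dropWhile (fun x => decide (x ≠ ze)) with hR'
        have hVR : R = V ++ R' := (List.takeWhile_append_dropWhile).symm
        have hVne : V ≠ [] := by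
          rw [hV, hRc]; simp [hr]
        have hVall : ∀ x ∈ V, x ∈ S ∧ num ze < num x := by
          intro x hx
          have hxL : x ∈ L := by rw [hAR, hVR]; simp [hx]
          have h1 := hL x hxL
          have h2 : x ≠ ze := by simpa using List.mem_takeWhile_imp hx
          refine ⟨h1.1, lt_of_le_of_ne h1.2 ?_⟩
          intro h3; exact h2 (num_inj h3).symm
        have hR'st : R' = [] ∨ ∃ L'', R' = ze :: L'' := by
          rcases hR'c : R' with _ | ⟨q, Q⟩
          · left; rfl
          · right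
            have h1 : R' ≠ [] := by rw [hR'c]; simp
            have := List.head_dropWhile_not (fun x => decide (x ≠ ze)) (l := R) h1
            have h2 : R'.head h1 = q := by simp [hR'c]
            rw [h2] at this
            have h3 : q = ze := by simpa using this
            exact ⟨Q, by rw [h3]⟩
        have hLdec : L = A ++ V ++ R' := by rw [hAR, hVR]; simp
        have hlen : R'.length ≤ l := by
          have := congrArg List.length hLdec
          simp only [List.length_append] at this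
          omega
        have hchR' : NoCh (n + 2) (Thr S) R' := by rw [hLdec] at hch; exact hch.suffix
        obtain ⟨Y, e, hY1, hY2, hY3⟩ := ih R' hlen
          (fun x hx => hL x (by rw [hLdec]; simp [hx])) hR'st hchR'
        have hblock : pw A.length ze ++ V.flatten ∈ nxt n S ze := by
          refine block_mem hS hze hA1 (R := R') hVall hVne ?_
          rw [← hArep, ← hLdec]; exact hch
        have hflat : L.flatten = ((pw A.length ze ++ V.flatten) :: Y).flatten ++ pw e ze := by
          have hpA : pw A.length ze = A.flatten := by rw [pw_flat, ← hArep]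
          rw [hLdec, List.flatten_append, List.flatten_append, hY2, List.flatten_cons, hpA]
          simp
        refine ⟨(pw A.length ze ++ V.flatten) :: Y, e, ?_, hflat, ?_⟩
        · intro y hy
          rcases List.mem_cons.1 hy with rfl | hy
          · exact hblock
          · exact hY1 y hy
        · intro P Q hPQ
          rcases P with _ | ⟨p, P⟩
          · refine ⟨[], L, rfl, ?_⟩
            rw [List.nil_append] at hPQ
            rw [← hPQ]; exact hflat
          · rw [List.cons_append] at hPQ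
            obtain ⟨_, hYPQ⟩ := List.cons_eq_cons.1 hPQ
            obtain ⟨P', Q', h1, h2⟩ := hY3 P Q hYPQ
            exact ⟨A ++ V ++ P', Q', by rw [hLdec, h1]; simp, h2⟩

theorem Gz_sub {n : ℕ} {S : Set (Wd d)} (hS : Alph S) {ze : Wd d} (hze : ze ∈ S) :
    Gz (n + 2) S ze ⊆ cat (Av (n + 2) (nxt n S ze)) (⋃ e : ℕ, {pw e ze}) := by
  rintro w ⟨L, hL, hst, rfl, hch⟩
  obtain ⟨Y, e, h1, h2, h3⟩ := parse hS hze L.length L le_rfl hL (Or.inr hst) hch
  refine ⟨Y.flatten, ⟨Y, h1, rfl, ?_⟩, pw e ze, Set.mem_iUnion.2 ⟨e, rfl⟩, h2⟩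
  intro P Q hPQ hc
  obtain ⟨P', Q', h4, h5⟩ := h3 P Q hPQ
  refine hch P' Q' h4 ?_
  rw [h5]
  refine (hc.mono ?_).pfx (List.prefix_append _ _)
  rintro u ⟨y, ⟨e', V, he', _, _, _, rfl⟩, hyu⟩
  refine ⟨ze, hze, le_trans ?_ hyu⟩
  obtain ⟨e', rfl⟩ : ∃ a', e' = a' + 1 := ⟨e' - 1, by omega⟩
  rw [pw_succ, List.append_assoc]
  exact num_le_append _ _

theorem length_pw (e : ℕ) (w : Wd d) : (pw e w).length = e * w.length := by simp [pw]

theorem Z_Gz {n : ℕ} {S : Set (Wd d)} (hS : Alph S) {ze : Wd d} (hze : ze ∈ S) {t : ℝ≥0∞}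
    (ht : t ≤ 1) : Z t (Gz (n + 2) S ze) ≤ Z t (Av (n + 2) (nxt n S ze)) * (1 - t)⁻¹ := by
  refine (Z_mono (Gz_sub hS hze)).trans ((Z_cat _ _ _).trans (mul_le_mul' le_rfl ?_))
  refine (Z_iUnion _ _).trans ?_
  rw [← ENNReal.tsum_geometric]
  refine ENNReal.tsum_le_tsum (fun e => ?_)
  rw [Z_singleton, length_pw]
  apply pow_le_pow_right_of_le_one' ht
  have : 1 ≤ ze.length := List.length_pos_iff.2 (hS.good ze hze).ne_nil
  nlinarith

theorem length_Gz {m : ℕ} {S : Set (Wd d)} {ze : Wd d} : ∀ w ∈ Gz m S ze, ze.length ≤ w.length := by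
  rintro w ⟨L, _, ⟨L', rfl⟩, rfl, _⟩
  simp

end Pool.Agent.LawGrowth
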