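import Pool.Agent.Lib.MP_f46765_al.H13.Alph

/-! How the rank of letters behaves under elimination. -/

namespace Pool.Agent.LawGrowth

variable {d : ℕ}

/-- Letters above `z` not starting with a chain of length `k+1` beyond `z`. -/
def Bk (k : ℕ) (S : Set (Wd d)) (z : Wd d) : Set (Wd d) :=
  {x | x ∈ S ∧ num z < num x ∧ ¬ HasCh (k + 1) (bey S z) x}

theorem HasCh_one {Th : Wd d → Prop} {x v : Wd d} (hx : GW x) (hT : Th x) (hv : x <+: v) :
    HasCh 1 Th v := by
  refine ⟨[x], rfl, ⟨by simpa using hx, by simp⟩, by simpa using hT, by simpa using hv⟩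

theorem Bk_zero {S : Set (Wd d)} (hS : Alph S) {z : Wd d} (hz : z ∈ S) : Bk 0 S z = ∅ := by
  ext x
  simp only [Bk, Set.mem_ofPred_eq, Set.mem_empty_iff_false, iff_false]
  rintro ⟨hx, hlt, h⟩
  exact h (HasCh_one (hS.good x hx) (hS.bey hz hx hlt) (List.prefix_refl x))

theorem Bk_subset (k : ℕ) (S : Set (Wd d)) (z : Wd d) : Bk k S z ⊆ S := fun _ h => h.1

theorem Alph.subset {S S' : Set (Wd d)} (hS : Alph S) (h : S' ⊆ S) : Alph S' :=
  ⟨fun x hx => hS.good x (h hx), fun x hx y hy hlt L hL =>
    hS.oe x (h hx) y (h hy) hlt L (fun z hz => h (hL z hz))⟩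

/-- The combinatorial decomposition behind `rank_step`. -/
theorem diff_step {S : Set (Wd d)} (hS : Alph S) {ze : Wd d} (hze : ze ∈ S) {E : ℕ}
    {Vz : List (Wd d)} (hVz : ∀ x ∈ Vz, x ∈ S ∧ num ze < num x)
    (hVne : Vz ≠ []) {e : ℕ} {V : List (Wd d)}
    (hV : ∀ x ∈ V, x ∈ S ∧ num ze < num x) (hne : V ≠ [])
    (hlt : num (pw E ze ++ Vz.flatten) < num (pw e ze ++ V.flatten)) :
    ∃ (P x : _) (R : List (Wd d)) (zz : Wd d) (T : List (Wd d)), V = P ++ x :: R ∧
      (List.replicate E ze ++ Vz) ++ [ze] = (List.replicate e ze ++ P) ++ zz :: T ∧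
      zz ∈ S ∧ num ze ≤ num zz ∧ num zz < num x := by
  rcases lt_trichotomy e E with h | h | h
  · obtain ⟨k, rfl⟩ : ∃ k, E = e + (k + 1) := ⟨E - e - 1, by omega⟩
    obtain ⟨x, V, rfl⟩ := List.exists_cons_of_ne_nil hne
    refine ⟨[], x, V, ze, List.replicate k ze ++ Vz ++ [ze], rfl, ?_, hze, le_rfl,
      (hV x (by simp)).2⟩
    simp [List.replicate_add, List.replicate_succ]
  · subst h
    rcases list_cmp V Vz with h | h | ⟨P, x, R, y, R', hxy, rfl, rfl⟩
    · exfalso
      obtain ⟨R, rfl⟩ := h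
      have : num (pw e ze ++ V.flatten) ≤ num (pw e ze ++ (V ++ R).flatten) := by
        rw [List.flatten_append, ← List.append_assoc]; exact num_le_append _ _
      exact absurd hlt (not_lt.2 this)
    · obtain ⟨R, rfl⟩ := h
      rcases R with _ | ⟨x, R⟩
      · simp at hlt
      · exact ⟨Vz, x, R, ze, [], rfl, by simp, hze, le_rfl, (hV x (by simp)).2⟩
    · have hx := hV x (by simp)
      have hy := hVz y (by simp)
      refine ⟨P, x, R, y, R' ++ [ze], rfl, by simp, hy.1, hy.2.le, ?_⟩
      rcases lt_trichotomy (num x) (num y) with h | h | h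
      · exfalso
        have h1 := hS.lt_of_diff (P := List.replicate e ze ++ P) (R := R)
            (w := R'.flatten) hx.1 hy.1 h (fun z hz => (hV z (by simp [hz])).1)
        have h2 : num (pw e ze ++ (P ++ x :: R).flatten) <
            num (pw e ze ++ (P ++ y :: R').flatten) := by
          simpa [pw_flat] using h1
        exact lt_asymm hlt h2
      · exact absurd (num_inj h) hxy
      · exact h
  · exfalso
    obtain ⟨k, rfl⟩ : ∃ k, e = E + (k + 1) := ⟨e - E - 1, by omega⟩
    obtain ⟨y, Vz, rfl⟩ := List.exists_cons_of_ne_nil hVne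
    have hy := hVz y (by simp)
    have h1 := hS.lt_of_diff (P := List.replicate E ze)
      (R := List.replicate k ze ++ V) (w := Vz.flatten) hze hy.1 hy.2
      (over_append (over_replicate hze k) (fun z hz => (hV z hz).1))
    have e1 : pw (E + (k + 1)) ze ++ V.flatten =
        (List.replicate E ze ++ ze :: (List.replicate k ze ++ V)).flatten := by
      simp only [pw_flat, List.replicate_add, List.replicate_succ, List.flatten_append,
        List.flatten_cons, List.append_assoc]
    have e2 : pw E ze ++ (y :: Vz).flatten =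
        (List.replicate E ze).flatten ++ (y ++ Vz.flatten) := by
      simp [pw_flat]
    rw [e1, e2] at hlt
    exact lt_asymm hlt h1

theorem rank_step {k n : ℕ} {S : Set (Wd d)} (hS : Alph S) {ze : Wd d} (hze : ze ∈ S) {E : ℕ}
    {Vz : List (Wd d)} (hVz : ∀ x ∈ Vz, x ∈ S ∧ num ze < num x)
    (hVne : Vz ≠ []) {y : Wd d} (hy : y ∈ Bk (k + 1) (nxt n S ze) (pw E ze ++ Vz.flatten)) :
    ∃ (A : List (Wd d)) (x : Wd d) (R : List (Wd d)) (zz : Wd d) (T : List (Wd d)),
      (List.replicate E ze ++ Vz) ++ [ze] = A ++ zz :: T ∧ 1 ≤ A.length ∧ zz ∈ S ∧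
      x ∈ Bk (k + 1) S zz ∧ R.flatten ∈ Av (k + 1) (Bk k S ze) ∧
      y = A.flatten ++ (x ++ R.flatten) := by
  obtain ⟨⟨e, V, he, hne, hV, hVch, rfl⟩, hlt, hrk⟩ := hy
  obtain ⟨P, x, R, zz, T, rfl, hA, hzz, hzz1, hzz2⟩ := diff_step hS hze hVz hVne hV hne hlt
  set A : List (Wd d) := List.replicate e ze ++ P with hAdef
  have hx := hV x (by simp)
  have hgze := hS.good ze hze
  have hAl : 1 ≤ A.length := by simp [hAdef]; omega
  have hyA : pw e ze ++ (P ++ x :: R).flatten = A.flatten ++ (x ++ R.flatten) := by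
    simp [hAdef, pw_flat]
  -- A is a list over `S` starting with `ze`
  obtain ⟨A', hA'1, hA'2⟩ : ∃ A', (∀ z ∈ A', z ∈ S) ∧ A = ze :: A' := by
    obtain ⟨e, rfl⟩ : ∃ e', e = e' + 1 := ⟨e - 1, by omega⟩
    refine ⟨List.replicate e ze ++ P, over_append (over_replicate hze e)
      (fun z hz => (hV z (by simp [hz])).1), ?_⟩
    simp [hAdef, List.replicate_succ]
  have hAfl : A.flatten = ze ++ A'.flatten := by rw [hA'2]; simp
  have hAne : A.flatten ≠ [] := by rw [hAfl]; simp [hgze.ne_nil]
  -- words beyond ze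
  have hperA : ∀ u, u ≠ [] → bey S ze u → per A.flatten < per u := by
    intro u hu hb
    rw [hAfl]; exact per_lt_of_bey hze hgze.ne_nil hA'1 hb hu
  -- the representation of z' L
  have hrep : ∀ L : List (Wd d), (∀ y ∈ L, y ∈ nxt n S ze) → ∃ M : List (Wd d),
      (∀ y ∈ M, y ∈ S) ∧ (pw E ze ++ Vz.flatten) ++ L.flatten = A.flatten ++ M.flatten ∧
      (M = [] ∨ ∃ R1, M = zz :: R1) := by
    intro L hL
    obtain ⟨M, hM1, hM2, hM3⟩ := nxt_flat hze L hL
    have hTS : ∀ z ∈ T, z ∈ S := by
      intro z hz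
      have : z ∈ (List.replicate E ze ++ Vz) ++ [ze] := by rw [hA]; simp [hz]
      rcases List.mem_append.1 this with h | h
      · exact over_append (over_replicate hze E) (fun x hx => (hVz x hx).1) z h
      · rw [List.mem_singleton.1 h]; exact hze
    have hE' : pw E ze ++ Vz.flatten = (List.replicate E ze ++ Vz).flatten := by
      simp [pw_flat]
    rcases hM3 with rfl | ⟨R1, rfl⟩
    · rcases List.eq_nil_or_concat T with rfl | ⟨T, q, rfl⟩
      · refine ⟨[], by simp, ?_, Or.inl rfl⟩
        have := List.append_inj_left' hA rfl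
        rw [hE', this, ← hM2]
      · refine ⟨zz :: T, ?_, ?_, Or.inr ⟨T, rfl⟩⟩
        · intro z hz
          rcases List.mem_cons.1 hz with rfl | hz
          · exact hzz
          · exact hTS z (by simp [hz])
        · have h1 : (List.replicate E ze ++ Vz) ++ [ze] = (A ++ zz :: T) ++ [q] := by
            rw [hA]; simp
          have := List.append_inj_left' h1 rfl
          rw [hE', this, ← hM2]; simp
    · refine ⟨zz :: (T ++ R1), ?_, ?_, Or.inr ⟨_, rfl⟩⟩
      · intro z hz
        rcases List.mem_cons.1 hz with rfl | hz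
        · exact hzz
        · exact over_append hTS (fun w hw => hM1 w (by simp [hw])) z hz
      · rw [hE', ← hM2]
        have h1 : (List.replicate E ze ++ Vz).flatten ++ (ze :: R1).flatten =
            ((List.replicate E ze ++ Vz) ++ [ze]).flatten ++ R1.flatten := by simp
        rw [h1, hA]; simp
  -- beyond z'
  have hb1 : ∀ u, u ≠ [] → bey S zz u → bey (nxt n S ze) (pw E ze ++ Vz.flatten)
      (A.flatten ++ u) := by
    intro u hu hb L hL
    obtain ⟨M, hM1, hM2, hM3⟩ := hrep L hL
    rw [hM2]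
    apply num_append_lt_append
    rcases hM3 with rfl | ⟨R1, rfl⟩
    · simpa [num_nil] using num_pos hu
    · have := hb R1 (fun z hz => hM1 z (by simp [hz]))
      simpa using this
  have hb2 : ∀ u, bey S ze u → bey (nxt n S ze) (pw E ze ++ Vz.flatten) u := by
    intro u hb L hL
    obtain ⟨M, hM1, hM2, hM3⟩ := hrep L hL
    rw [hM2, hAfl]
    have := hb (A' ++ M) (over_append hA'1 hM1)
    simpa using this
  have hzzx : bey S zz x := hS.bey hzz hx.1 hzz2
  have hxne := (hS.good x hx.1).ne_nil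
  have hlow : ∀ u, bey S zz u → bey S ze u := fun u hu => hS.bey_of_le hze hzz hzz1 hu
  -- the exceeding letter
  have hxB : x ∈ Bk (k + 1) S zz := by
    refine ⟨hx.1, hzz2, ?_⟩
    intro hch
    apply hrk
    rw [hyA, ← List.append_assoc]
    refine HasCh.pfx (v := A.flatten ++ x) (HasCh.merge hch ?_) (by simp)
    intro u hu hbu
    have hlu := hlow u hbu
    refine ⟨?_, hb1 u hu.ne_nil hbu, hb2 u hlu, ?_⟩
    · by_cases hP : P = []
      · obtain ⟨e, rfl⟩ : ∃ e', e = e' + 1 := ⟨e - 1, by omega⟩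
        have hp := per_lt_of_bey hze hgze.ne_nil (L := []) (by simp) hlu hu.ne_nil
        simp only [List.flatten_nil, List.append_nil] at hp
        have : A.flatten = pw (e + 1) ze := by rw [hAdef, hP]; simp [pw_flat]
        rw [this]
        exact GW_pw hgze hu.ne_nil hp (GW.mul hgze hu hp) e
      · have hg : GW A.flatten := by
          have := GW_nxt hS hze he hP (fun z hz => hV z (by simp [hz]))
          rw [hAdef, List.flatten_append]; exact this
        exact GW.mul hg hu (hperA u hu.ne_nil hlu)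
    · intro u' hu' hb' hlt'
      exact per_append_lt hAne hu.ne_nil (hperA u' hu'.ne_nil (hlow u' hb')) hlt'
  -- the rest
  have hRch : NoCh (k + 1) (bey S ze) R := by
    intro P' Q hR hch
    apply hrk
    rw [hyA, hR]
    have e1 : A.flatten ++ (x ++ (P' ++ Q).flatten) =
        (A.flatten ++ (x ++ P'.flatten)) ++ Q.flatten := by simp
    rw [e1]
    refine HasCh.cons hch ?_ ?_ ?_
    · have : A.flatten ++ (x ++ P'.flatten) = pw e ze ++ (P ++ x :: P').flatten := by
        simp [hAdef, pw_flat]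
      rw [this]
      refine GW_nxt hS hze he (by simp) ?_
      intro z hz
      apply hV z
      rw [hR]
      simp only [List.mem_append, List.mem_cons] at hz ⊢
      tauto
    · exact hb1 _ (by simp [hxne]) (hzzx.trans_le (num_le_append _ _))
    · intro u hu hb
      refine ⟨hb2 u hb, ?_⟩
      have : A.flatten ++ (x ++ P'.flatten) = ze ++ (A' ++ x :: P').flatten := by
        rw [hAfl]; simp
      rw [this]
      refine per_lt_of_bey hze hgze.ne_nil ?_ hb hu.ne_nil
      refine over_append hA'1 ?_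
      intro z hz
      rcases List.mem_cons.1 hz with rfl | hz
      · exact hx.1
      · exact (hV z (by rw [hR]; simp [hz])).1
  refine ⟨A, x, R, zz, T, hA, hAl, hzz, hxB, ?_, hyA⟩
  refine ⟨R, ?_, rfl, ?_⟩
  · intro r hr
    have hrV := hV r (by simp [hr])
    refine ⟨hrV.1, hrV.2, ?_⟩
    intro hch
    obtain ⟨P', Q, rfl⟩ := List.append_of_mem hr
    exact hRch P' (r :: Q) rfl (hch.pfx (by simp))
  · refine hRch.mono ?_
    rintro u ⟨v, hv, hvu⟩
    exact (hS.bey hze hv.1 hv.2.1).trans_le hvu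

end Pool.Agent.LawGrowth
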