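import Mathlib

/-! Numeric encoding of words over `Fin d` and the class of good words. -/

namespace Pool.Agent.LawGrowth

open scoped ENNReal

/-- Words over the alphabet `Fin d`. -/
abbrev Wd (d : ℕ) := List (Fin d)

variable {d : ℕ}

/-- The number `0.(w_1+1)(w_2+1)...` in base `d+1`. -/
def num : Wd d → ℚ
  | [] => 0
  | a :: w => ((a : ℕ) + 1 + num w) / (d + 1)

/-- `(d+1)^(-|w|)`. -/
def bet (w : Wd d) : ℚ := (1 / (d + 1 : ℚ)) ^ w.length

theorem bpos : (0 : ℚ) < d + 1 := by positivity

theorem bet_pos (w : Wd d) : 0 < bet w := by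
  unfold bet; have := @bpos d; positivity

theorem bet_nil : bet ([] : Wd d) = 1 := by simp [bet]

theorem bet_append (u v : Wd d) : bet (u ++ v) = bet u * bet v := by
  simp [bet, pow_add]

theorem bet_le_one (w : Wd d) : bet w ≤ 1 := by
  unfold bet
  apply pow_le_one₀
  · have := @bpos d; positivity
  · rw [div_le_one (@bpos d)]; linarith [(Nat.cast_nonneg d : (0 : ℚ) ≤ d)]

theorem bet_lt_one {w : Wd d} (hw : w ≠ []) : bet w < 1 := by
  rcases w with _ | ⟨a, w⟩
  · exact absurd rfl hw
  · have hd : 0 < d := lt_of_le_of_lt (Nat.zero_le _) a.2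
    have hd' : (0 : ℚ) < d := by exact_mod_cast hd
    unfold bet
    apply pow_lt_one₀
    · have := @bpos d; positivity
    · rw [div_lt_one (@bpos d)]; linarith
    · simp

theorem num_nil : num ([] : Wd d) = 0 := rfl

theorem num_cons (a : Fin d) (w : Wd d) : num (a :: w) = ((a : ℕ) + 1 + num w) / (d + 1) := rfl

theorem num_append (u v : Wd d) : num (u ++ v) = num u + bet u * num v := by
  induction u with
  | nil => simp [num_nil, bet_nil]
  | cons a u ih =>
    rw [List.cons_append, num_cons, num_cons, ih]
    simp only [bet, List.length_cons, pow_succ]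
    ring

theorem num_nonneg (w : Wd d) : 0 ≤ num w := by
  induction w with
  | nil => simp [num_nil]
  | cons a w ih => rw [num_cons]; positivity

theorem num_pos {w : Wd d} (hw : w ≠ []) : 0 < num w := by
  rcases w with _ | ⟨a, w⟩
  · exact absurd rfl hw
  · rw [num_cons]; have := num_nonneg w; positivity

theorem num_le (w : Wd d) : num w ≤ 1 - bet w := by
  induction w with
  | nil => simp [num_nil, bet_nil]
  | cons a w ih =>
    rw [num_cons]
    have hb : bet (a :: w) = bet w / (d + 1) := by
      simp only [bet, List.length_cons, pow_succ]; ring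
    rw [hb, div_le_iff₀ (@bpos d)]
    have ha : ((a : ℕ) : ℚ) + 1 ≤ d := by exact_mod_cast a.2
    have : (1 - bet w / (d + 1)) * ((d : ℚ) + 1) = d + 1 - bet w := by
      field_simp
    rw [this]; linarith

theorem num_lt_one (w : Wd d) : num w < 1 := by
  have := num_le w; have := bet_pos w; linarith

theorem num_inj : ∀ {u v : Wd d}, num u = num v → u = v := by
  intro u
  induction u with
  | nil =>
    intro v h
    by_contra hv
    have := num_pos (w := v) (fun h' => hv h'.symm)
    rw [← h, num_nil] at this; exact lt_irrefl _ this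
  | cons a u ih =>
    intro v h
    rcases v with _ | ⟨c, v⟩
    · have := num_pos (w := a :: u) (by simp)
      rw [h, num_nil] at this; exact absurd this (lt_irrefl _)
    · rw [num_cons, num_cons, div_left_inj' (ne_of_gt (@bpos d))] at h
      have h1 := num_nonneg u
      have h2 := num_lt_one u
      have h3 := num_nonneg v
      have h4 := num_lt_one v
      have hac : (a : ℕ) = (c : ℕ) := by
        rcases lt_trichotomy (a : ℕ) (c : ℕ) with hl | he | hl
        · exfalso
          have : ((a : ℕ) : ℚ) + 1 ≤ ((c : ℕ) : ℚ) := by exact_mod_cast hl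
          linarith
        · exact he
        · exfalso
          have : ((c : ℕ) : ℚ) + 1 ≤ ((a : ℕ) : ℚ) := by exact_mod_cast hl
          linarith
      have hac' : a = c := Fin.ext hac
      subst hac'
      have : num u = num v := by linarith
      rw [ih this]

theorem num_le_append (u v : Wd d) : num u ≤ num (u ++ v) := by
  rw [num_append]
  have := mul_nonneg (le_of_lt (bet_pos u)) (num_nonneg v); linarith

theorem num_le_of_prefix {u v : Wd d} (h : u <+: v) : num u ≤ num v := by
  obtain ⟨r, rfl⟩ := h; exact num_le_append u r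

theorem num_append_lt_append {u v w : Wd d} (h : num v < num w) :
    num (u ++ v) < num (u ++ w) := by
  rw [num_append, num_append]
  have := mul_lt_mul_of_pos_left h (bet_pos u); linarith

theorem num_append_lt_append_iff {u v w : Wd d} :
    num (u ++ v) < num (u ++ w) ↔ num v < num w := by
  rw [num_append, num_append]
  have := bet_pos u
  constructor
  · intro h
    have h' : bet u * num v < bet u * num w := by linarith
    exact lt_of_mul_lt_mul_left h' this.le
  · intro h
    have := mul_lt_mul_of_pos_left h this; linarith

/-- The value of the periodic word `w w w ...`. -/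
def per (w : Wd d) : ℚ := num w / (1 - bet w)

theorem num_eq_per {w : Wd d} (hw : w ≠ []) : num w = per w * (1 - bet w) := by
  unfold per
  have := bet_lt_one hw
  rw [div_mul_cancel₀]; linarith

theorem num_lt_per {w : Wd d} (hw : w ≠ []) : num w < per w := by
  have h1 := bet_lt_one hw
  have h2 := bet_pos w
  have h3 := num_pos hw
  have h4 : 0 < 1 - bet w := by linarith
  unfold per
  rw [lt_div_iff₀ h4]
  nlinarith

theorem per_append {u v : Wd d} (hu : u ≠ []) (hv : v ≠ []) :
    per (u ++ v) * (1 - bet u * bet v) = per u * (1 - bet u) + bet u * (1 - bet v) * per v := by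
  have h := num_eq_per (w := u ++ v) (by simp [hu])
  rw [num_append, bet_append, num_eq_per hu, num_eq_per hv] at h
  linarith

theorem per_append_lt {u v : Wd d} {c : ℚ} (hu : u ≠ []) (hv : v ≠ [])
    (h1 : per u < c) (h2 : per v < c) : per (u ++ v) < c := by
  have h := per_append hu hv
  have a1 := bet_lt_one hu
  have a2 := bet_pos u
  have a3 := bet_lt_one hv
  have a4 := bet_pos v
  have h5 : 0 < 1 - bet u * bet v := by nlinarith
  have h6 : per (u ++ v) * (1 - bet u * bet v) < c * (1 - bet u * bet v) := by
    rw [h]
    have e1 : per u * (1 - bet u) < c * (1 - bet u) :=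
      mul_lt_mul_of_pos_right h1 (by linarith)
    have e2 : bet u * (1 - bet v) * per v < bet u * (1 - bet v) * c :=
      mul_lt_mul_of_pos_left h2 (mul_pos a2 (by linarith))
    nlinarith
  exact lt_of_mul_lt_mul_right h6 h5.le

theorem lt_per_append {u v : Wd d} {c : ℚ} (hu : u ≠ []) (hv : v ≠ [])
    (h1 : c ≤ per u) (h2 : c < per v) : c < per (u ++ v) := by
  have h := per_append hu hv
  have a1 := bet_lt_one hu
  have a2 := bet_pos u
  have a3 := bet_lt_one hv
  have a4 := bet_pos v
  have h5 : 0 < 1 - bet u * bet v := by nlinarith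
  have h6 : c * (1 - bet u * bet v) < per (u ++ v) * (1 - bet u * bet v) := by
    rw [h]
    have e1 : c * (1 - bet u) ≤ per u * (1 - bet u) :=
      mul_le_mul_of_nonneg_right h1 (by linarith)
    have e2 : bet u * (1 - bet v) * c < bet u * (1 - bet v) * per v :=
      mul_lt_mul_of_pos_left h2 (mul_pos a2 (by linarith))
    nlinarith
  exact lt_of_mul_lt_mul_right h6 h5.le

/-- The key comparison: `xy < yx` when `x^infinity < y^infinity`. -/
theorem num_comm_lt {x y : Wd d} (hx : x ≠ []) (hy : y ≠ []) (h : per x < per y) :
    num (x ++ y) < num (y ++ x) := by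
  rw [num_append, num_append, num_eq_per hx, num_eq_per hy]
  have a1 := bet_lt_one hx
  have a3 := bet_lt_one hy
  have : 0 < (1 - bet x) * (1 - bet y) * (per y - per x) :=
    mul_pos (mul_pos (by linarith) (by linarith)) (by linarith)
  nlinarith

/-- Powers of a word. -/
def pw (n : ℕ) (s : Wd d) : Wd d := (List.replicate n s).flatten

theorem pw_zero (s : Wd d) : pw 0 s = [] := rfl

theorem pw_succ (n : ℕ) (s : Wd d) : pw (n + 1) s = s ++ pw n s := by
  simp [pw, List.replicate_succ]

theorem num_pw {s : Wd d} (hs : s ≠ []) (n : ℕ) : num (pw n s) = per s * (1 - bet s ^ n) := by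
  induction n with
  | zero => simp [pw_zero, num_nil]
  | succ n ih =>
    rw [pw_succ, num_append, ih, num_eq_per hs]; ring

theorem per_le_of_pw {s : Wd d} (hs : s ≠ []) {c : ℚ} (h : ∀ n, num (pw n s) ≤ c) : per s ≤ c := by
  by_contra hc
  push Not at hc
  have hp : 0 < per s := lt_of_le_of_lt (num_nonneg s) (num_lt_per hs)
  have h1 : 0 < (per s - c) / per s := div_pos (by linarith) hp
  obtain ⟨n, hn⟩ := exists_pow_lt_of_lt_one h1 (bet_lt_one hs)
  have h2 := h n
  rw [num_pw hs] at h2
  rw [lt_div_iff₀ hp] at hn
  nlinarith

/-- Good words. -/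
inductive GW : Wd d → Prop
  | letter (a : Fin d) : GW [a]
  | mul {u v : Wd d} : GW u → GW v → per u < per v → GW (u ++ v)

theorem GW.ne_nil {u : Wd d} (h : GW u) : u ≠ [] := by
  induction h with
  | letter a => simp
  | mul _ _ _ h1 _ => simp [h1]

/-- `Ch C` says that `C` is a chain: good words with increasing periodic values. -/
def Ch (C : List (Wd d)) : Prop := (∀ u ∈ C, GW u) ∧ C.Pairwise (fun u v => per u < per v)

/-- Moving a smaller word to the front. -/
theorem num_move {u : Wd d} (hu : u ≠ []) : ∀ (P : List (Wd d)), (∀ p ∈ P, p ≠ [] ∧ per u < per p) →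
    ∀ R : Wd d, num (u ++ (P.flatten ++ R)) ≤ num (P.flatten ++ (u ++ R)) ∧
      (P ≠ [] → num (u ++ (P.flatten ++ R)) < num (P.flatten ++ (u ++ R))) := by
  intro P
  induction P with
  | nil => intro _ R; simp
  | cons p P ih =>
    intro hP R
    obtain ⟨hp1, hp2⟩ := hP p (by simp)
    have ih' := (ih (fun q hq => hP q (by simp [hq])) R).1
    have key : num (u ++ ((p :: P).flatten ++ R)) < num ((p :: P).flatten ++ (u ++ R)) := by
      calc num (u ++ ((p :: P).flatten ++ R))
          = num ((u ++ p) ++ (P.flatten ++ R)) := by simp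
        _ < num ((p ++ u) ++ (P.flatten ++ R)) := by
            rw [num_append (u ++ p), num_append (p ++ u), bet_append, bet_append,
              mul_comm (bet u) (bet p)]
            have := num_comm_lt hu hp1 hp2
            linarith
        _ = num (p ++ (u ++ (P.flatten ++ R))) := by simp
        _ ≤ num (p ++ (P.flatten ++ (u ++ R))) := by
            rw [num_append, num_append p]
            have := mul_le_mul_of_nonneg_left ih' (bet_pos p).le
            linarith
        _ = num ((p :: P).flatten ++ (u ++ R)) := by simp
    exact ⟨key.le, fun _ => key⟩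

/-- The increasing arrangement has the smallest concatenation. -/
theorem num_flatten_lt_of_perm : ∀ {C C' : List (Wd d)}, (∀ u ∈ C, u ≠ []) →
    C.Pairwise (fun u v => per u < per v) → C.Perm C' → C ≠ C' →
    num C.flatten < num C'.flatten := by
  intro C
  induction C with
  | nil =>
    intro C' _ _ hp hne
    exact absurd (List.Perm.eq_nil hp.symm).symm hne
  | cons u C ih =>
    intro C' hne hpw hp hneq
    have hu : u ∈ C' := hp.subset (by simp)
    obtain ⟨P, Q, rfl⟩ := List.append_of_mem hu
    have hp2 : C.Perm (P ++ Q) := by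
      have : (u :: C).Perm (u :: (P ++ Q)) := hp.trans List.perm_middle
      exact (List.perm_cons u).1 this
    rw [List.pairwise_cons] at hpw
    have hP : ∀ p ∈ P, p ≠ [] ∧ per u < per p := by
      intro p hpP
      have : p ∈ C := hp2.symm.subset (by simp [hpP])
      exact ⟨hne p (by simp [this]), hpw.1 p this⟩
    have hmv := num_move (hne u (by simp)) P hP Q.flatten
    have h1 : num (P ++ u :: Q).flatten = num (P.flatten ++ (u ++ Q.flatten)) := by simp
    have h2 : num (u :: C).flatten = num (u ++ C.flatten) := by simp
    rw [h1, h2]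
    have h3 : num (u ++ C.flatten) ≤ num (u ++ (P.flatten ++ Q.flatten)) := by
      by_cases hCe : C = P ++ Q
      · rw [hCe]; simp
      · have := ih (fun v hv => hne v (by simp [hv])) hpw.2 hp2 hCe
        have h4 : (P ++ Q).flatten = P.flatten ++ Q.flatten := by simp
        rw [h4] at this
        exact (num_append_lt_append this).le
    by_cases hPn : P = []
    · subst hPn
      have hCe : C ≠ [] ++ Q := by
        intro h; apply hneq; simp at h; simp [h]
      have := ih (fun v hv => hne v (by simp [hv])) hpw.2 hp2 hCe
      simp only [List.nil_append, List.flatten_nil] at this ⊢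
      exact num_append_lt_append this
    · exact lt_of_le_of_lt h3 (hmv.2 hPn)

end Pool.Agent.LawGrowth
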