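import Pool.Agent.Lib.MP_f46765_al.H13.Rank

/-! Generating functions of sets of words. -/

namespace Pool.Agent.LawGrowth

open scoped ENNReal

variable {d : ℕ}

/-- The generating function of a set of words. -/
noncomputable def Z (t : ℝ≥0∞) (X : Set (Wd d)) : ℝ≥0∞ := ∑' w : X, t ^ (w.1.length)

theorem Z_mono {t : ℝ≥0∞} {X Y : Set (Wd d)} (h : X ⊆ Y) : Z t X ≤ Z t Y := by
  unfold Z
  exact ENNReal.tsum_mono_subtype (fun w : Wd d => t ^ w.length) h

theorem Z_mono_t {s t : ℝ≥0∞} (h : s ≤ t) (X : Set (Wd d)) : Z s X ≤ Z t X :=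
  ENNReal.tsum_le_tsum (fun _ => pow_le_pow_left' h _)

theorem Z_empty (t : ℝ≥0∞) : Z t (∅ : Set (Wd d)) = 0 := by simp [Z]

theorem Z_singleton (t : ℝ≥0∞) (w : Wd d) : Z t {w} = t ^ w.length := by
  simp [Z]

/-- Concatenation of two sets of words. -/
def cat (X Y : Set (Wd d)) : Set (Wd d) := {w | ∃ x ∈ X, ∃ y ∈ Y, w = x ++ y}

theorem Z_cat (t : ℝ≥0∞) (X Y : Set (Wd d)) : Z t (cat X Y) ≤ Z t X * Z t Y := by
  have h1 : Z t X * Z t Y = ∑' p : X × Y, t ^ (p.1.1.length) * t ^ (p.2.1.length) := by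
    rw [ENNReal.tsum_prod (f := fun (x : X) (y : Y) => t ^ (x.1.length) * t ^ (y.1.length)),
      Z, Z, ← ENNReal.tsum_mul_right]
    refine tsum_congr (fun x => ?_)
    rw [ENNReal.tsum_mul_left]
  rw [h1]
  let f : X × Y → cat X Y := fun p => ⟨p.1.1 ++ p.2.1, p.1.1, p.1.2, p.2.1, p.2.2, rfl⟩
  have hf : Function.Surjective f := by
    rintro ⟨w, x, hx, y, hy, rfl⟩
    exact ⟨(⟨x, hx⟩, ⟨y, hy⟩), rfl⟩
  refine (ENNReal.tsum_le_tsum_comp_of_surjective hf _).trans (le_of_eq ?_)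
  refine tsum_congr (fun p => ?_)
  simp [f, pow_add]

theorem Z_union (t : ℝ≥0∞) (X Y : Set (Wd d)) : Z t (X ∪ Y) ≤ Z t X + Z t Y :=
  ENNReal.tsum_union_le (fun w : Wd d => t ^ w.length) X Y

theorem Z_iUnion {ι : Type*} (t : ℝ≥0∞) (X : ι → Set (Wd d)) :
    Z t (⋃ i, X i) ≤ ∑' i, Z t (X i) :=
  ENNReal.tsum_iUnion_le_tsum (fun w : Wd d => t ^ w.length) X

theorem Z_biUnion_finset {ι : Type*} (t : ℝ≥0∞) (F : Finset ι) (X : ι → Set (Wd d)) :
    Z t (⋃ i ∈ F, X i) ≤ ∑ i ∈ F, Z t (X i) :=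
  ENNReal.tsum_biUnion_le (fun w : Wd d => t ^ w.length) F X

/-- All products of `n` elements of `X`. -/
def pows (X : Set (Wd d)) : ℕ → Set (Wd d)
  | 0 => {[]}
  | n + 1 => cat X (pows X n)

theorem Z_pows (t : ℝ≥0∞) (X : Set (Wd d)) (n : ℕ) : Z t (pows X n) ≤ (Z t X) ^ n := by
  induction n with
  | zero => simp [pows, Z_singleton]
  | succ n ih =>
    rw [pows, pow_succ']
    exact (Z_cat t _ _).trans (mul_le_mul' le_rfl ih)

theorem mem_pows {X : Set (Wd d)} : ∀ L : List (Wd d), (∀ x ∈ L, x ∈ X) →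
    L.flatten ∈ pows X L.length := by
  intro L
  induction L with
  | nil => intro _; simp [pows]
  | cons x L ih =>
    intro h
    exact ⟨x, h x (by simp), L.flatten, ih (fun y hy => h y (by simp [hy])), by simp⟩

theorem Z_star {t : ℝ≥0∞} {X : Set (Wd d)} {Y : Set (Wd d)}
    (h : ∀ w ∈ Y, ∃ L : List (Wd d), (∀ x ∈ L, x ∈ X) ∧ L.flatten = w) :
    Z t Y ≤ (1 - Z t X)⁻¹ := by
  have h1 : Y ⊆ ⋃ n, pows X n := by
    intro w hw
    obtain ⟨L, hL, rfl⟩ := h w hw
    exact Set.mem_iUnion.2 ⟨L.length, mem_pows L hL⟩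
  refine (Z_mono h1).trans ((Z_iUnion t _).trans ?_)
  rw [← ENNReal.tsum_geometric]
  exact ENNReal.tsum_le_tsum (fun n => Z_pows t X n)

theorem Z_shift {t s : ℝ≥0∞} (hs : s ≤ 1) {X : Set (Wd d)} {l : ℕ}
    (h : ∀ w ∈ X, l ≤ w.length) : Z (s * t) X ≤ s ^ l * Z t X := by
  unfold Z
  rw [← ENNReal.tsum_mul_left]
  refine ENNReal.tsum_le_tsum (fun w => ?_)
  rw [mul_pow]
  exact mul_le_mul' (pow_le_pow_right_of_le_one' hs (h w.1 w.2)) le_rfl

/-- Lengths of flattened lists. -/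
theorem length_flatten_ge : ∀ L : List (Wd d), (∀ x ∈ L, x ≠ []) → L.length ≤ L.flatten.length := by
  intro L
  induction L with
  | nil => intro _; simp
  | cons x L ih =>
    intro h
    have h1 := ih (fun y hy => h y (by simp [hy]))
    have h2 : 1 ≤ x.length := List.length_pos_iff.2 (h x (by simp))
    simp only [List.length_cons, List.flatten_cons, List.length_append]
    omega

theorem geom_range_le (t : ℝ≥0∞) (n : ℕ) : ∑ i ∈ Finset.range n, t ^ i ≤ (1 - t)⁻¹ := by
  rw [← ENNReal.tsum_geometric]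
  exact ENNReal.sum_le_tsum _

theorem geom_range_le' (t : ℝ≥0∞) (l n : ℕ) :
    ∑ i ∈ Finset.range n, t ^ (l + i) ≤ t ^ l * (1 - t)⁻¹ := by
  simp_rw [pow_add]
  rw [← Finset.mul_sum]
  exact mul_le_mul' le_rfl (geom_range_le t n)

/-- The recursion for the letters of bounded rank. -/
theorem Z_Bk_nxt {k n : ℕ} {S : Set (Wd d)} (hS : Alph S) {ze : Wd d} (hze : ze ∈ S)
    {z' : Wd d} (hz' : z' ∈ nxt n S ze) {t : ℝ≥0∞} (ht : t ≤ 1) {b c : ℝ≥0∞}
    (hb : ∀ zz ∈ S, Z t (Bk (k + 1) S zz) ≤ b) (hc : Z t (Av (k + 1) (Bk k S ze)) ≤ c) :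
    Z t (Bk (k + 1) (nxt n S ze) z') ≤ t ^ ze.length * (1 - t)⁻¹ * (b * c) := by
  obtain ⟨E, Vz, hE, hVne, hVz, _, rfl⟩ := hz'
  set l : List (Wd d) := List.replicate E ze ++ Vz with hl
  have hlS : ∀ z ∈ l, z ∈ S := over_append (over_replicate hze E) (fun x hx => (hVz x hx).1)
  have hsub : Bk (k + 1) (nxt n S ze) (pw E ze ++ Vz.flatten) ⊆
      ⋃ i ∈ Finset.range l.length, cat {(l.take (i + 1)).flatten}
        (cat {x | (l ++ [ze]).getD (i + 1) ze ∈ S ∧
          x ∈ Bk (k + 1) S ((l ++ [ze]).getD (i + 1) ze)} (Av (k + 1) (Bk k S ze))) := by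
    intro y hy
    obtain ⟨A, x, R, zz, T, hA, hA1, hzz, hx, hR, rfl⟩ := rank_step hS hze hVz hVne hy
    rw [← hl] at hA
    have hAle : A.length ≤ l.length := by
      have := congrArg List.length hA
      simp only [List.length_append, List.length_cons, List.length_nil] at this
      omega
    have hAt : A = l.take A.length := by
      have h1 : (l ++ [ze]).take A.length = A := by rw [hA]; simp
      rw [List.take_append_of_le_length hAle] at h1
      exact h1.symm
    have hzz' : (l ++ [ze]).getD A.length ze = zz := by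
      rw [hA]; simp
    simp only [Set.mem_iUnion]
    refine ⟨A.length - 1, Finset.mem_range.2 (by omega), ?_⟩
    have : A.length - 1 + 1 = A.length := by omega
    rw [this]
    exact ⟨A.flatten, by rw [← hAt]; rfl, x ++ R.flatten,
      ⟨x, ⟨by rw [hzz']; exact hzz, by rw [hzz']; exact hx⟩, R.flatten, hR, rfl⟩, rfl⟩
  refine (Z_mono hsub).trans ((Z_biUnion_finset t _ _).trans ?_)
  have h1 : ∀ i ∈ Finset.range l.length, Z t (cat {(l.take (i + 1)).flatten}
        (cat {x | (l ++ [ze]).getD (i + 1) ze ∈ S ∧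
          x ∈ Bk (k + 1) S ((l ++ [ze]).getD (i + 1) ze)} (Av (k + 1) (Bk k S ze)))) ≤
      t ^ (ze.length + i) * (b * c) := by
    intro i hi
    refine (Z_cat _ _ _).trans (mul_le_mul' ?_ ((Z_cat _ _ _).trans (mul_le_mul' ?_ hc)))
    · rw [Z_singleton]
      apply pow_le_pow_right_of_le_one' ht
      obtain ⟨E, rfl⟩ : ∃ e', E = e' + 1 := ⟨E - 1, by omega⟩
      have hl' : l = ze :: (List.replicate E ze ++ Vz) := by
        simp [hl, List.replicate_succ]
      have hi' := Finset.mem_range.1 hi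
      rw [hl'] at hi' ⊢
      rw [List.take_succ_cons, List.flatten_cons, List.length_append]
      have h2 := length_flatten_ge ((List.replicate E ze ++ Vz).take i) (by
        intro x hx
        have : x ∈ l := by rw [hl']; exact List.mem_cons_of_mem _ (List.mem_of_mem_take hx)
        exact (hS.good x (hlS x this)).ne_nil)
      rw [List.length_take] at h2
      simp only [List.length_cons] at hi'
      have h3 : min i (List.replicate E ze ++ Vz).length = i := by
        apply min_eq_left; omega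
      rw [h3] at h2
      omega
    · by_cases hS' : (l ++ [ze]).getD (i + 1) ze ∈ S
      · refine (Z_mono ?_).trans (hb _ hS')
        intro x hx; exact hx.2
      · have : {x | (l ++ [ze]).getD (i + 1) ze ∈ S ∧
          x ∈ Bk (k + 1) S ((l ++ [ze]).getD (i + 1) ze)} = ∅ := by
          ext x; constructor
          · intro hx; exact absurd hx.1 hS'
          · intro hx; exact absurd hx (Set.notMem_empty x)
        rw [this, Z_empty]; exact zero_le
  refine (Finset.sum_le_sum h1).trans ?_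
  rw [← Finset.sum_mul]
  exact mul_le_mul' (geom_range_le' t _ _) le_rfl

/-- The size of the eliminated alphabet. -/
theorem Z_nxt {n : ℕ} {S : Set (Wd d)} (hS : Alph S) {ze : Wd d} (hze : ze ∈ S)
    {t : ℝ≥0∞} (ht : t ≤ 1) {c : ℝ≥0∞} (hc : Z t (Av (n + 1) (Bk n S ze)) ≤ c) :
    Z t (nxt n S ze) ≤ t ^ ze.length * (1 - t)⁻¹ * c := by
  have hsub : nxt n S ze ⊆ ⋃ i : ℕ, cat {pw (i + 1) ze} (Av (n + 1) (Bk n S ze)) := by
    rintro y ⟨e, V, he, hne, hV, hch, rfl⟩
    refine Set.mem_iUnion.2 ⟨e - 1, pw e ze, ?_, V.flatten, ⟨V, ?_, rfl, ?_⟩, rfl⟩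
    · have : e - 1 + 1 = e := by omega
      rw [this]; rfl
    · intro x hx
      refine ⟨(hV x hx).1, (hV x hx).2, ?_⟩
      intro h
      obtain ⟨P, Q, rfl⟩ := List.append_of_mem hx
      exact hch P (x :: Q) rfl (h.pfx (by simp))
    · refine hch.mono ?_
      rintro u ⟨v, hv, hvu⟩
      exact (hS.bey hze hv.1 hv.2.1).trans_le hvu
  refine (Z_mono hsub).trans ((Z_iUnion t _).trans ?_)
  have h1 : ∀ i : ℕ, Z t (cat {pw (i + 1) ze} (Av (n + 1) (Bk n S ze))) ≤
      t ^ ze.length * t ^ i * c := by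
    intro i
    refine (Z_cat _ _ _).trans (mul_le_mul' ?_ hc)
    rw [Z_singleton, ← pow_add]
    apply pow_le_pow_right_of_le_one' ht
    have : (pw (i + 1) ze).length = (i + 1) * ze.length := by
      simp [pw]
    rw [this]
    have : 1 ≤ ze.length := List.length_pos_iff.2 (hS.good ze hze).ne_nil
    nlinarith
  refine (ENNReal.tsum_le_tsum h1).trans ?_
  rw [ENNReal.tsum_mul_right, ENNReal.tsum_mul_left, ENNReal.tsum_geometric]

end Pool.Agent.LawGrowth
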